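import Mathlib

set_option autoImplicit false

/-! Definitions from free probability, for tuples of operators on a Hilbert space with a
distinguished vector. -/

open scoped InnerProductSpace ENNReal
open MeasureTheory

namespace Pool.Agent.TH254.FE

section Defs

variable {K : Type} [NormedAddCommGroup K] [InnerProductSpace ℂ K] {n : ℕ}

/-- the moment `τ(X_w)` of the word `w`, where `τ(a) = ⟪ω, a ω⟫` -/
noncomputable def mom (ω : K) (X : Fin n → (K →L[ℂ] K)) (w : List (Fin n)) : ℂ :=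
  ⟪ω, (w.map X).prod ω⟫_ℂ

/-- `(τ ⊗ τ)(∂_i w)`, where `∂_i` is the free difference quotient: the sum over all ways of
writing `w = u i v` of `τ(X_u) τ(X_v)` -/
noncomputable def ddq (ω : K) (X : Fin n → (K →L[ℂ] K)) (i : Fin n) (w : List (Fin n)) : ℂ :=
  ∑ k : Fin w.length, if w.get k = i then mom ω X (w.take k) * mom ω X (w.drop (k + 1)) else 0

/-- `ξ` is the `i`-th conjugate variable of the tuple `X`: it lies in the closure of
`ℂ⟨X⟩ ω` and `⟪ξ, X_w ω⟫ = (τ ⊗ τ)(∂_i w)` for all words `w` -/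
def IsConj (ω : K) (X : Fin n → (K →L[ℂ] K)) (i : Fin n) (ξ : K) : Prop :=
  ξ ∈ closure (Submodule.span ℂ (Set.range fun w : List (Fin n) => (w.map X).prod ω) : Set K) ∧
  ∀ w : List (Fin n), ⟪ξ, (w.map X).prod ω⟫_ℂ = ddq ω X i w

/-- the free Fisher information `Φ*(X) = ∑ ‖ξ_i‖²` (infinite if a conjugate variable
does not exist; it is unique if it exists) -/
noncomputable def fisher (ω : K) (X : Fin n → (K →L[ℂ] K)) : ℝ≥0∞ :=
  ∑ i, ⨅ (ξ : K) (_ : IsConj ω X i ξ), ‖ξ‖ₑ ^ 2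

/-- the function `t ↦ Φ*(Y_1 + √t S_1, …, Y_n + √t S_n)` -/
noncomputable def fisherT (ω : K) (Y S : Fin n → (K →L[ℂ] K)) (t : ℝ) : ℝ≥0∞ :=
  fisher ω (fun i => Y i + (Real.sqrt t : ℂ) • S i)

/-- the positive part of the integral in the definition of `χ*` -/
noncomputable def chiPos (ω : K) (Y S : Fin n → (K →L[ℂ] K)) : ℝ≥0∞ :=
  ∫⁻ t in Set.Ioi (0 : ℝ), (ENNReal.ofReal (n / (1 + t)) - fisherT ω Y S t)

/-- the negative part of the integral in the definition of `χ*` -/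
noncomputable def chiNeg (ω : K) (Y S : Fin n → (K →L[ℂ] K)) : ℝ≥0∞ :=
  ∫⁻ t in Set.Ioi (0 : ℝ), (fisherT ω Y S t - ENNReal.ofReal (n / (1 + t)))

/-- Voiculescu's non-microstates free entropy
`χ*(Y) = 1/2 ∫_0^∞ (n/(1+t) - Φ*(Y + √t S)) dt + n/2 log (2πe)` -/
noncomputable def chiStar (ω : K) (Y S : Fin n → (K →L[ℂ] K)) : EReal :=
  ((1 / 2 : ℝ) : EReal) * ((chiPos ω Y S : EReal) - (chiNeg ω Y S : EReal)) +
    ((n / 2 * Real.log (2 * Real.pi * Real.exp 1) : ℝ) : EReal)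

/-- free independence of a family of algebras -/
def FreeFam {J : Type} (ω : K) (B : J → Subalgebra ℂ (K →L[ℂ] K)) : Prop :=
  ∀ L : List (J × (K →L[ℂ] K)), L ≠ [] → (L.map Prod.fst).IsChain (· ≠ ·) →
    (∀ p ∈ L, p.2 ∈ B p.1 ∧ ⟪ω, p.2 ω⟫_ℂ = 0) → ⟪ω, (L.map Prod.snd).prod ω⟫_ℂ = 0

/-- `s` is a standard semicircular element: it is self-adjoint, its even moments are the Catalan
numbers and its odd moments vanish -/
def Semicircular [CompleteSpace K] (ω : K) (s : K →L[ℂ] K) : Prop :=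
  IsSelfAdjoint s ∧ ∀ m : ℕ, ⟪ω, (s ^ (2 * m)) ω⟫_ℂ = (catalan m : ℂ) ∧
    ⟪ω, (s ^ (2 * m + 1)) ω⟫_ℂ = 0

/-- `(K, ω)` with the tuples `Y` and `S` is a realization of the tuple `y` (in `(H, ξ)`) together
with a free semicircular family: the vector state of `ω` is a trace on the algebra generated by
`Y` and `S`, the self-adjoint tuple `Y` has the law of `y`, the `S_i` are standard semicircular,
and `ℂ⟨Y⟩, ℂ[S_1], …, ℂ[S_n]` are free. -/
structure FreeRealization [CompleteSpace K] {H : Type} [NormedAddCommGroup H]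
    [InnerProductSpace ℂ H] (ξ : H) (y : Fin n → (H →L[ℂ] H)) (ω : K)
    (Y S : Fin n → (K →L[ℂ] K)) : Prop where
  norm : ‖ω‖ = 1
  sa : ∀ i, IsSelfAdjoint (Y i)
  law : ∀ w : List (Fin n), mom ω Y w = mom ξ y w
  semi : ∀ i, Semicircular ω (S i)
  trace : ∀ a ∈ Algebra.adjoin ℂ (Set.range Y ∪ Set.range S),
    ∀ b ∈ Algebra.adjoin ℂ (Set.range Y ∪ Set.range S), ⟪ω, (a * b) ω⟫_ℂ = ⟪ω, (b * a) ω⟫_ℂ
  free : FreeFam ω (fun j : Option (Fin n) =>
    j.elim (Algebra.adjoin ℂ (Set.range Y)) (fun i => Algebra.adjoin ℂ {S i}))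

/-- `𝒦_M(z)`: tuples of finite rank operators with `∑ [T_j, J z_j* J] = 0`; here
`r_j = J z_j* J` is the element of `M'` with `r_j ξ = z_j ξ` -/
def KSet {H : Type} [NormedAddCommGroup H] [InnerProductSpace ℂ H] (M : Set (H →L[ℂ] H)) (ξ : H)
    {m : ℕ} (z : Fin m → (H →L[ℂ] H)) : Set (Fin m → (H →L[ℂ] H)) :=
  {T | (∀ k, FiniteDimensional ℂ (LinearMap.range ((T k : H →L[ℂ] H) : H →ₗ[ℂ] H))) ∧
    ∃ r : Fin m → (H →L[ℂ] H), (∀ k, r k ∈ Set.centralizer M ∧ r k ξ = z k ξ) ∧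
      ∑ k, (T k * r k - r k * T k) = 0}

/-- `Δ_M(z) = m - dim (closure of 𝒦_M(z))`, written as the sum over `j` of the squared
Hilbert-Schmidt distance from `𝒦_M(z)` to the tuple with the rank one projection onto `ξ` in
position `j` and zeros elsewhere (the formula of the frozen statement S04381) -/
noncomputable def Delta {H : Type} [NormedAddCommGroup H] [InnerProductSpace ℂ H] {ι : Type}
    (b : HilbertBasis ι ℂ H) (M : Set (H →L[ℂ] H)) (ξ : H) {m : ℕ}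
    (z : Fin m → (H →L[ℂ] H)) : ℝ :=
  ∑ j : Fin m, ⨅ T : KSet M ξ z, ∑ k : Fin m, ∑' i : ι,
    ‖(T.1 k) (b i) - (if k = j then ⟪ξ, b i⟫_ℂ • ξ else 0)‖ ^ 2

end Defs

end Pool.Agent.TH254.FE
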