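import Mathlib

set_option autoImplicit false
set_option linter.unusedSectionVars false
set_option linter.deprecated false

/-! Tracial vectors: the modular conjugation and right multiplications. -/

open scoped InnerProductSpace ComplexConjugate

namespace Pool.Agent.TH254.TR

variable {H : Type} [NormedAddCommGroup H] [InnerProductSpace ℂ H] [CompleteSpace H]

/-- `ξ` is cyclic and tracial for the star algebra `𝒜` -/
structure TrVec (𝒜 : StarSubalgebra ℂ (H →L[ℂ] H)) (ξ : H) : Prop where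
  dense : DenseRange fun a : 𝒜 => (a : H →L[ℂ] H) ξ
  tr : ∀ a ∈ 𝒜, ∀ b ∈ 𝒜, ⟪ξ, (a * b) ξ⟫_ℂ = ⟪ξ, (b * a) ξ⟫_ℂ

variable (𝒜 : StarSubalgebra ℂ (H →L[ℂ] H)) (ξ : H)

/-- evaluation at the vector -/
noncomputable def ev : 𝒜 →ₗ[ℂ] H where
  toFun a := (a : H →L[ℂ] H) ξ
  map_add' a b := by simp
  map_smul' c a := by simp

/-- evaluation of the adjoint -/
noncomputable def evs : 𝒜 →ₛₗ[starRingEnd ℂ] H where
  toFun a := (star (a : H →L[ℂ] H)) ξ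
  map_add' a b := by simp
  map_smul' c a := by simp

/-- the modular conjugation -/
noncomputable def J : H →SL[starRingEnd ℂ] H := (evs 𝒜 ξ).extendOfNorm (ev 𝒜 ξ)

variable {𝒜} {ξ}
variable (h : TrVec 𝒜 ξ)
include h

theorem norm_star (a : H →L[ℂ] H) (ha : a ∈ 𝒜) : ‖(star a) ξ‖ = ‖a ξ‖ := by
  have h1 : ⟪(star a) ξ, (star a) ξ⟫_ℂ = ⟪a ξ, a ξ⟫_ℂ := by
    have e1 : ⟪(star a) ξ, (star a) ξ⟫_ℂ = ⟪ξ, (a * star a) ξ⟫_ℂ := by
      rw [ContinuousLinearMap.mul_apply, ContinuousLinearMap.star_eq_adjoint,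
        ContinuousLinearMap.adjoint_inner_left]
    have e2 : ⟪a ξ, a ξ⟫_ℂ = ⟪ξ, (star a * a) ξ⟫_ℂ := by
      rw [ContinuousLinearMap.mul_apply, ContinuousLinearMap.star_eq_adjoint,
        ContinuousLinearMap.adjoint_inner_right]
    rw [e1, e2]
    exact h.tr a ha _ (star_mem ha)
  rw [inner_self_eq_norm_sq_to_K, inner_self_eq_norm_sq_to_K] at h1
  have h2 : ‖(star a) ξ‖ ^ 2 = ‖a ξ‖ ^ 2 := by exact_mod_cast h1
  exact (sq_eq_sq₀ (norm_nonneg _) (norm_nonneg _)).1 h2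

theorem J_apply (a : H →L[ℂ] H) (ha : a ∈ 𝒜) : J 𝒜 ξ (a ξ) = (star a) ξ := by
  have h1 := LinearMap.extendOfNorm_eq (f := evs 𝒜 ξ) (e := ev 𝒜 ξ) h.dense
    ⟨1, fun x => by
      rw [one_mul]
      exact (norm_star h x x.2).le⟩ ⟨a, ha⟩
  exact h1

/-- two continuous functions agreeing on `𝒜 ξ` agree -/
theorem ext_cont {Y : Type*} [TopologicalSpace Y] [T2Space Y] {f g : H → Y} (hf : Continuous f)
    (hg : Continuous g) (hfg : ∀ a ∈ 𝒜, f (a ξ) = g (a ξ)) (v : H) : f v = g v := by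
  have := h.dense.equalizer hf hg (by
    funext a
    exact hfg a a.2)
  exact congrFun this v

theorem J_J (v : H) : J 𝒜 ξ (J 𝒜 ξ v) = v := by
  apply ext_cont h (f := fun v => J 𝒜 ξ (J 𝒜 ξ v)) (g := fun v => v)
  · exact (J 𝒜 ξ).continuous.comp (J 𝒜 ξ).continuous
  · exact continuous_id
  · intro a ha
    rw [J_apply h a ha, J_apply h _ (star_mem ha), star_star]

theorem J_inner (u v : H) : ⟪J 𝒜 ξ u, J 𝒜 ξ v⟫_ℂ = ⟪v, u⟫_ℂ := by
  have h1 : ∀ a ∈ 𝒜, ∀ b ∈ 𝒜, ⟪J 𝒜 ξ (a ξ), J 𝒜 ξ (b ξ)⟫_ℂ = ⟪b ξ, a ξ⟫_ℂ := by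
    intro a ha b hb
    rw [J_apply h a ha, J_apply h b hb, ContinuousLinearMap.star_eq_adjoint,
      ContinuousLinearMap.adjoint_inner_left]
    have := h.tr a ha _ (star_mem hb)
    rw [ContinuousLinearMap.mul_apply, ContinuousLinearMap.mul_apply] at this
    rw [this, ContinuousLinearMap.star_eq_adjoint, ContinuousLinearMap.adjoint_inner_right]
  have h2 : ∀ a ∈ 𝒜, ∀ v, ⟪J 𝒜 ξ (a ξ), J 𝒜 ξ v⟫_ℂ = ⟪v, a ξ⟫_ℂ := by
    intro a ha v
    apply ext_cont h (f := fun v => ⟪J 𝒜 ξ (a ξ), J 𝒜 ξ v⟫_ℂ) (g := fun v => ⟪v, a ξ⟫_ℂ)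
    · exact continuous_const.inner (J 𝒜 ξ).continuous
    · exact continuous_id.inner continuous_const
    · exact h1 a ha
  apply ext_cont h (f := fun u => ⟪J 𝒜 ξ u, J 𝒜 ξ v⟫_ℂ) (g := fun u => ⟪v, u⟫_ℂ)
  · exact (J 𝒜 ξ).continuous.inner continuous_const
  · exact continuous_const.inner continuous_id
  · intro a ha
    exact h2 a ha v

theorem J_inner' (u v : H) : ⟪J 𝒜 ξ u, v⟫_ℂ = ⟪J 𝒜 ξ v, u⟫_ℂ := by
  conv_lhs => rw [← J_J h v]
  rw [J_inner h]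

theorem J_inner'' (u v : H) : ⟪u, J 𝒜 ξ v⟫_ℂ = ⟪v, J 𝒜 ξ u⟫_ℂ := by
  conv_lhs => rw [← J_J h u]
  rw [J_inner h]

omit h in
theorem adjL (a : H →L[ℂ] H) (u v : H) : ⟪(star a) u, v⟫_ℂ = ⟪u, a v⟫_ℂ := by
  rw [ContinuousLinearMap.star_eq_adjoint, ContinuousLinearMap.adjoint_inner_left]

omit h in
/-- the right multiplication by `a` -/
noncomputable def R (𝒜 : StarSubalgebra ℂ (H →L[ℂ] H)) (ξ : H) (a : H →L[ℂ] H) : H →L[ℂ] H where
  toFun v := J 𝒜 ξ ((star a) (J 𝒜 ξ v))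
  map_add' u v := by simp
  map_smul' c v := by simp
  cont := (J 𝒜 ξ).continuous.comp ((star a).continuous.comp (J 𝒜 ξ).continuous)

omit h in
theorem R_def (a : H →L[ℂ] H) (v : H) : R 𝒜 ξ a v = J 𝒜 ξ ((star a) (J 𝒜 ξ v)) := rfl

theorem R_apply (a : H →L[ℂ] H) (ha : a ∈ 𝒜) (b : H →L[ℂ] H) (hb : b ∈ 𝒜) :
    R 𝒜 ξ a (b ξ) = (b * a) ξ := by
  rw [R_def, J_apply h b hb]
  have := J_apply h (star a * star b) (mul_mem (star_mem ha) (star_mem hb))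
  rw [ContinuousLinearMap.mul_apply] at this
  rw [this, ← star_mul, star_star]

theorem R_one (a : H →L[ℂ] H) (ha : a ∈ 𝒜) : R 𝒜 ξ a ξ = a ξ := by
  have := R_apply h a ha 1 (one_mem _)
  simpa using this

theorem R_comm (a : H →L[ℂ] H) (ha : a ∈ 𝒜) (b : H →L[ℂ] H) (hb : b ∈ 𝒜) :
    R 𝒜 ξ a * b = b * R 𝒜 ξ a := by
  ext1 v
  rw [ContinuousLinearMap.mul_apply, ContinuousLinearMap.mul_apply]
  apply ext_cont h (f := fun v => R 𝒜 ξ a (b v)) (g := fun v => b (R 𝒜 ξ a v))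
  · exact (R 𝒜 ξ a).continuous.comp b.continuous
  · exact b.continuous.comp (R 𝒜 ξ a).continuous
  · intro c hc
    have h1 := R_apply h a ha (b * c) (mul_mem hb hc)
    rw [ContinuousLinearMap.mul_apply] at h1
    rw [h1, R_apply h a ha c hc, mul_assoc]
    rfl

theorem R_star (a : H →L[ℂ] H) : star (R 𝒜 ξ a) = R 𝒜 ξ (star a) := by
  rw [ContinuousLinearMap.star_eq_adjoint]
  symm
  rw [ContinuousLinearMap.eq_adjoint_iff]
  intro u v
  rw [R_def, R_def, star_star, J_inner' h, ← adjL, J_inner'' h]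

/-- an operator commuting with the algebra is determined by its value at the vector -/
theorem unique_R (r : H →L[ℂ] H) (hr : ∀ b ∈ 𝒜, r * b = b * r) (a : H →L[ℂ] H) (ha : a ∈ 𝒜)
    (hra : r ξ = a ξ) : r = R 𝒜 ξ a := by
  ext1 v
  apply ext_cont h (f := fun v => r v) (g := fun v => R 𝒜 ξ a v) r.continuous
    (R 𝒜 ξ a).continuous
  intro b hb
  have h1 := congrArg (fun T : H →L[ℂ] H => T ξ) (hr b hb)
  simp only [ContinuousLinearMap.mul_apply] at h1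
  rw [h1, hra, R_apply h a ha b hb, ContinuousLinearMap.mul_apply]

/-- `J (c ξ) = c* ξ` for operators commuting with all right multiplications -/
theorem J_M (c : H →L[ℂ] H) (hc : ∀ a ∈ 𝒜, c * R 𝒜 ξ a = R 𝒜 ξ a * c) :
    J 𝒜 ξ (c ξ) = (star c) ξ := by
  apply ext_inner_right ℂ
  intro v
  apply ext_cont h (f := fun v => ⟪J 𝒜 ξ (c ξ), v⟫_ℂ) (g := fun v => ⟪(star c) ξ, v⟫_ℂ)
    (continuous_const.inner continuous_id) (continuous_const.inner continuous_id)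
  intro a ha
  rw [J_inner' h, J_apply h a ha]
  have h1 := congrArg (fun T : H →L[ℂ] H => T ξ) (hc a ha)
  simp only [ContinuousLinearMap.mul_apply] at h1
  rw [R_one h a ha] at h1
  rw [adjL c ξ (a ξ), h1, ← adjL (R 𝒜 ξ a) ξ (c ξ), R_star h, R_one h _ (star_mem ha)]

/-- the vector is tracial for the commutant of the right multiplications -/
theorem trace_M (a c : H →L[ℂ] H) (ha : ∀ b ∈ 𝒜, a * R 𝒜 ξ b = R 𝒜 ξ b * a)
    (hc : ∀ b ∈ 𝒜, c * R 𝒜 ξ b = R 𝒜 ξ b * c) : ⟪ξ, (a * c) ξ⟫_ℂ = ⟪ξ, (c * a) ξ⟫_ℂ := by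
  rw [ContinuousLinearMap.mul_apply, ContinuousLinearMap.mul_apply, ← adjL a ξ (c ξ),
    ← adjL c ξ (a ξ), ← J_M h a ha, ← J_M h c hc, J_inner' h]

/-- eigenvectors of right multiplications -/
theorem R_eig (a : H →L[ℂ] H) (hs : star a = a) 
    (he : ∀ (c : ℂ) (v : H), a v = c • v → v = 0) (c : ℂ) (v : H) (hv : R 𝒜 ξ a v = c • v) :
    v = 0 := by
  rw [R_def, hs] at hv
  have h1 : a (J 𝒜 ξ v) = (starRingEnd ℂ c) • J 𝒜 ξ v := by
    rw [← J_J h (a (J 𝒜 ξ v)), hv, map_smulₛₗ]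
  have h2 := he _ _ h1
  rw [← J_J h v, h2, map_zero]

end Pool.Agent.TH254.TR
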