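import Mathlib
import Pool.Agent.TH254.FC.Tr
import Pool.Agent.TH254.FC.Defs

set_option autoImplicit false
set_option linter.unusedSectionVars false
set_option linter.deprecated false

/-! The free entropy does not depend on the choice of the free semicircular family. -/

open scoped InnerProductSpace ENNReal
open MeasureTheory Filter Topology

namespace Pool.Agent.TH254.UN

open Pool.Agent.TH254.FE

section Alg

variable {G : Type} [Ring G] [Algebra ℂ G] {J : Type}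

/-- alternating centered lists -/
def Alt (B : J → Subalgebra ℂ G) (φ : G →ₗ[ℂ] ℂ) (L : List (J × G)) : Prop :=
  (L.map Prod.fst).IsChain (· ≠ ·) ∧ ∀ p ∈ L, p.2 ∈ B p.1 ∧ φ p.2 = 0

/-- the span of products of alternating centered lists -/
def VV (B : J → Subalgebra ℂ G) (φ : G →ₗ[ℂ] ℂ) : Submodule ℂ G :=
  Submodule.span ℂ {x | ∃ L, Alt B φ L ∧ x = (L.map Prod.snd).prod}

variable (B : J → Subalgebra ℂ G) (φ : G →ₗ[ℂ] ℂ) (h1 : φ 1 = 1)

theorem one_VV : (1 : G) ∈ VV B φ := Submodule.subset_span ⟨[], ⟨by simp, by simp⟩, by simp⟩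

include h1 in
theorem step (j : J) (b : G) (hb : b ∈ B j) (L : List (J × G)) (hL : Alt B φ L)
    (hj : (L.map Prod.fst).head? ≠ some j) : b * (L.map Prod.snd).prod ∈ VV B φ := by
  have e : b * (L.map Prod.snd).prod =
      (((j, b - algebraMap ℂ G (φ b)) :: L).map Prod.snd).prod + φ b • (L.map Prod.snd).prod := by
    rw [List.map_cons, List.prod_cons, sub_mul, ← Algebra.smul_def]
    abel
  rw [e]
  refine Submodule.add_mem _ (Submodule.subset_span ⟨_, ⟨?_, ?_⟩, rfl⟩)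
    (Submodule.smul_mem _ _ (Submodule.subset_span ⟨L, hL, rfl⟩))
  · rw [List.map_cons, List.isChain_cons]
    refine ⟨?_, hL.1⟩
    intro i hi
    rintro rfl
    exact hj (by simpa using hi)
  · intro p hp
    rcases List.mem_cons.1 hp with rfl | hp
    · refine ⟨(B j).sub_mem hb ((B j).algebraMap_mem _), ?_⟩
      simp only
      rw [map_sub, Algebra.algebraMap_eq_smul_one, map_smul, h1, smul_eq_mul, mul_one, sub_self]
    · exact hL.2 p hp

include h1 in
theorem mul_VV (j : J) (b : G) (hb : b ∈ B j) (v : G) (hv : v ∈ VV B φ) : b * v ∈ VV B φ := by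
  induction hv using Submodule.span_induction with
  | mem v hv =>
    obtain ⟨L, hL, rfl⟩ := hv
    by_cases hj : (L.map Prod.fst).head? = some j
    · rcases L with _ | ⟨⟨i, c⟩, L⟩
      · simp at hj
      · simp only [List.map_cons, List.head?_cons, Option.some.injEq] at hj
        subst hj
        have hc := (hL.2 (i, c) List.mem_cons_self).1
        have hch := hL.1
        rw [List.map_cons, List.isChain_cons] at hch
        rw [List.map_cons, List.prod_cons, ← mul_assoc]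
        refine step B φ h1 i (b * c) ((B i).mul_mem hb hc) L ⟨hch.2, fun p hp =>
          hL.2 p (List.mem_cons_of_mem _ hp)⟩ ?_
        intro h
        exact hch.1 i (by simpa using h) rfl
    · exact step B φ h1 j b hb L hL hj
  | zero => rw [mul_zero]; exact Submodule.zero_mem _
  | add x z _ _ hx hz => rw [mul_add]; exact Submodule.add_mem _ hx hz
  | smul c x _ hx => rw [mul_smul_comm]; exact Submodule.smul_mem _ _ hx

include h1 in
/-- two states which are free agree if they agree on the subalgebras -/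
theorem agree (ψ : G →ₗ[ℂ] ℂ) (h2 : ψ 1 = 1) (hB : ∀ j, ∀ b ∈ B j, φ b = ψ b)
    (hφ : ∀ L : List (J × G), L ≠ [] → (L.map Prod.fst).IsChain (· ≠ ·) →
      (∀ p ∈ L, p.2 ∈ B p.1 ∧ φ p.2 = 0) → φ (L.map Prod.snd).prod = 0)
    (hψ : ∀ L : List (J × G), L ≠ [] → (L.map Prod.fst).IsChain (· ≠ ·) →
      (∀ p ∈ L, p.2 ∈ B p.1 ∧ ψ p.2 = 0) → ψ (L.map Prod.snd).prod = 0)
    (v : G) (hv : v ∈ VV B φ) : φ v = ψ v := by
  induction hv using Submodule.span_induction with
  | mem v hv =>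
    obtain ⟨L, hL, rfl⟩ := hv
    by_cases hne : L = []
    · subst hne
      simp [h1, h2]
    · rw [hφ L hne hL.1 hL.2, hψ L hne hL.1]
      intro p hp
      refine ⟨(hL.2 p hp).1, ?_⟩
      rw [← hB p.1 p.2 (hL.2 p hp).1]
      exact (hL.2 p hp).2
  | zero => rw [map_zero, map_zero]
  | add x z _ _ hx hz => rw [map_add, map_add, hx, hz]
  | smul c x _ hx => rw [map_smul, map_smul, hx]

end Alg

theorem adjoin_words {G : Type} [Ring G] [Algebra ℂ G] {ι : Type} (f : ι → G) (x : G)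
    (hx : x ∈ Algebra.adjoin ℂ (Set.range f)) :
    x ∈ Submodule.span ℂ (Set.range fun w : List ι => (w.map f).prod) := by
  have h1 : x ∈ Subalgebra.toSubmodule (Algebra.adjoin ℂ (Set.range f)) := hx
  rw [Algebra.adjoin_eq_span] at h1
  refine Submodule.span_mono ?_ h1
  intro z hz
  induction hz using Submonoid.closure_induction with
  | mem z hz =>
    obtain ⟨i, rfl⟩ := hz
    exact ⟨[i], by simp⟩
  | one => exact ⟨[], by simp⟩
  | mul a b _ _ ha hb =>
    obtain ⟨w, rfl⟩ := ha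
    obtain ⟨w', rfl⟩ := hb
    exact ⟨w ++ w', by simp⟩

section Law

variable {K K' H : Type} [NormedAddCommGroup K] [InnerProductSpace ℂ K] [CompleteSpace K]
variable [NormedAddCommGroup K'] [InnerProductSpace ℂ K'] [CompleteSpace K']
variable [NormedAddCommGroup H] [InnerProductSpace ℂ H] {n : ℕ}

/-- the free algebra of the joint law -/
abbrev FF (n : ℕ) : Type := FreeAlgebra ℂ (Fin n ⊕ Fin n)

/-- evaluation -/
noncomputable def evl (Y S : Fin n → (K →L[ℂ] K)) : FF n →ₐ[ℂ] (K →L[ℂ] K) :=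
  FreeAlgebra.lift ℂ (Sum.elim Y S)

/-- the joint law -/
noncomputable def ph (ω : K) (Y S : Fin n → (K →L[ℂ] K)) : FF n →ₗ[ℂ] ℂ where
  toFun x := ⟪ω, evl Y S x ω⟫_ℂ
  map_add' a b := by rw [map_add, ContinuousLinearMap.add_apply, inner_add_right]
  map_smul' c a := by
    rw [map_smul, ContinuousLinearMap.smul_apply, inner_smul_right]
    rfl

/-- the subalgebras -/
noncomputable def BB (n : ℕ) (j : Option (Fin n)) : Subalgebra ℂ (FF n) :=
  j.elim (Algebra.adjoin ℂ (Set.range fun i : Fin n => FreeAlgebra.ι ℂ (Sum.inl i)))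
    (fun i => Algebra.adjoin ℂ {FreeAlgebra.ι ℂ (Sum.inr i)})

theorem evl_BB (Y S : Fin n → (K →L[ℂ] K)) (j : Option (Fin n)) (b : FF n) (hb : b ∈ BB n j) :
    evl Y S b ∈ (j.elim (Algebra.adjoin ℂ (Set.range Y)) (fun i => Algebra.adjoin ℂ {S i}) :
      Subalgebra ℂ (K →L[ℂ] K)) := by
  have h : evl Y S b ∈ (BB n j).map (evl Y S) := ⟨b, hb, rfl⟩
  rcases j with _ | i
  · simp only [BB, Option.elim_none, AlgHom.map_adjoin, ← Set.range_comp] at h ⊢
    have e : (evl Y S ∘ fun i : Fin n => FreeAlgebra.ι ℂ (Sum.inl i)) = Y := by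
      funext i
      simp [evl]
    rw [e] at h
    exact h
  · simp only [BB, Option.elim_some, AlgHom.map_adjoin, Set.image_singleton] at h ⊢
    have e : evl Y S (FreeAlgebra.ι ℂ (Sum.inr i)) = S i := by simp [evl]
    rw [e] at h
    exact h

theorem ph_free {ξ : H} {y : Fin n → (H →L[ℂ] H)} {ω : K} {Y S : Fin n → (K →L[ℂ] K)}
    (h : FreeRealization ξ y ω Y S) (L : List (Option (Fin n) × FF n)) (hL : L ≠ [])
    (hc : (L.map Prod.fst).IsChain (· ≠ ·)) (hp : ∀ p ∈ L, p.2 ∈ BB n p.1 ∧ ph ω Y S p.2 = 0) :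
    ph ω Y S (L.map Prod.snd).prod = 0 := by
  have h1 := h.free (L.map fun p => (p.1, evl Y S p.2)) (by simpa using hL) (by
    rw [List.map_map]
    exact hc) (by
    intro p hp'
    obtain ⟨p', hp1, rfl⟩ := List.mem_map.1 hp'
    exact ⟨evl_BB Y S _ _ (hp p' hp1).1, (hp p' hp1).2⟩)
  have h2 : evl Y S (L.map Prod.snd).prod =
      ((L.map fun p => (p.1, evl Y S p.2)).map Prod.snd).prod := by
    rw [map_list_prod, List.map_map, List.map_map]
    rfl
  show ⟪ω, evl Y S (L.map Prod.snd).prod ω⟫_ℂ = 0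
  rw [h2]
  exact h1

theorem ph_span (ω : K) (Y S : Fin n → (K →L[ℂ] K)) (ω' : K') (Y' S' : Fin n → (K' →L[ℂ] K'))
    (T : Set (FF n)) (hT : ∀ b ∈ T, ph ω Y S b = ph ω' Y' S' b) (b : FF n)
    (hb : b ∈ Submodule.span ℂ T) : ph ω Y S b = ph ω' Y' S' b := by
  have h : Submodule.span ℂ T ≤ LinearMap.ker (ph ω Y S - ph ω' Y' S') := by
    rw [Submodule.span_le]
    intro b hb
    show (ph ω Y S - ph ω' Y' S') b = 0
    rw [LinearMap.sub_apply, hT b hb, sub_self]
  have h2 : (ph ω Y S - ph ω' Y' S') b = 0 := h hb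
  rw [LinearMap.sub_apply, sub_eq_zero] at h2
  exact h2

theorem ph_wordl (ω : K) (Y S : Fin n → (K →L[ℂ] K)) (w : List (Fin n)) :
    ph ω Y S (w.map fun i : Fin n => FreeAlgebra.ι ℂ (Sum.inl i)).prod = mom ω Y w := by
  show ⟪ω, evl Y S _ ω⟫_ℂ = _
  rw [map_list_prod, List.map_map, mom]
  have e : (evl Y S ∘ fun i : Fin n => FreeAlgebra.ι ℂ (Sum.inl i)) = Y := by
    funext i
    simp [evl]
  rw [e]

theorem ph_wordr (ω : K) (Y S : Fin n → (K →L[ℂ] K)) (i : Fin n) (m : ℕ) :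
    ph ω Y S ((FreeAlgebra.ι ℂ (Sum.inr i)) ^ m) = ⟪ω, (S i ^ m) ω⟫_ℂ := by
  show ⟪ω, evl Y S _ ω⟫_ℂ = _
  rw [map_pow]
  have e : evl Y S (FreeAlgebra.ι ℂ (Sum.inr i)) = S i := by simp [evl]
  rw [e]

theorem ph_BB {ξ : H} {y : Fin n → (H →L[ℂ] H)} {ω : K} {Y S : Fin n → (K →L[ℂ] K)}
    (h : FreeRealization ξ y ω Y S) {ω' : K'} {Y' S' : Fin n → (K' →L[ℂ] K')}
    (h' : FreeRealization ξ y ω' Y' S') (j : Option (Fin n)) (b : FF n) (hb : b ∈ BB n j) :
    ph ω Y S b = ph ω' Y' S' b := by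
  rcases j with _ | i
  · refine ph_span ω Y S ω' Y' S' _ ?_ b (adjoin_words _ b hb)
    rintro _ ⟨w, rfl⟩
    simp only [ph_wordl]
    rw [h.law, h'.law]
  · have hb2 : b ∈ Algebra.adjoin ℂ (Set.range fun _ : Unit =>
        (FreeAlgebra.ι ℂ (Sum.inr i) : FF n)) := by
      rw [Set.range_const]
      exact hb
    refine ph_span ω Y S ω' Y' S' _ ?_ b (adjoin_words _ b hb2)
    rintro _ ⟨w, rfl⟩
    simp only [List.map_const', List.prod_replicate, ph_wordr]
    rcases Nat.even_or_odd' w.length with ⟨m, hm | hm⟩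
    · rw [hm, ((h.semi i).2 m).1, ((h'.semi i).2 m).1]
    · rw [hm, ((h.semi i).2 m).2, ((h'.semi i).2 m).2]

theorem ph_one {ξ : H} {y : Fin n → (H →L[ℂ] H)} {ω : K} {Y S : Fin n → (K →L[ℂ] K)}
    (h : FreeRealization ξ y ω Y S) : ph ω Y S 1 = 1 := by
  show ⟪ω, evl Y S 1 ω⟫_ℂ = 1
  rw [map_one, ContinuousLinearMap.one_apply, inner_self_eq_norm_sq_to_K, h.norm]
  simp

/-- the law of `Y + √t S` is determined -/
theorem mom_eq {ξ : H} {y : Fin n → (H →L[ℂ] H)} {ω : K} {Y S : Fin n → (K →L[ℂ] K)}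
    (h : FreeRealization ξ y ω Y S) {ω' : K'} {Y' S' : Fin n → (K' →L[ℂ] K')}
    (h' : FreeRealization ξ y ω' Y' S') (c : ℂ) (w : List (Fin n)) :
    mom ω (fun i => Y i + c • S i) w = mom ω' (fun i => Y' i + c • S' i) w := by
  have hm : ∀ v ∈ VV (BB n) (ph ω Y S), ∀ w : List (Fin n),
      (w.map fun i => (FreeAlgebra.ι ℂ (Sum.inl i) + c • FreeAlgebra.ι ℂ (Sum.inr i) :
        FF n)).prod * v ∈ VV (BB n) (ph ω Y S) := by
    intro v hv w
    induction w with
    | nil => simpa using hv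
    | cons i w ih =>
      rw [List.map_cons, List.prod_cons, mul_assoc, add_mul, smul_mul_assoc]
      refine Submodule.add_mem _ ?_ (Submodule.smul_mem _ _ ?_)
      · exact mul_VV (BB n) (ph ω Y S) (ph_one h) none _
          (Algebra.subset_adjoin ⟨i, rfl⟩) _ ih
      · exact mul_VV (BB n) (ph ω Y S) (ph_one h) (some i) _
          (Algebra.subset_adjoin rfl) _ ih
  have h1 := hm 1 (one_VV _ _) w
  rw [mul_one] at h1
  have h2 := agree (BB n) (ph ω Y S) (ph_one h) (ph ω' Y' S') (ph_one h')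
    (fun j b hb => ph_BB h h' j b hb) (fun L a b c => ph_free h L a b c)
    (fun L a b c => ph_free h' L a b c) _ h1
  have e : ∀ {K : Type} [NormedAddCommGroup K] [InnerProductSpace ℂ K] [CompleteSpace K]
      (ω : K) (Y S : Fin n → (K →L[ℂ] K)),
      ph ω Y S (w.map fun i => (FreeAlgebra.ι ℂ (Sum.inl i) +
        c • FreeAlgebra.ι ℂ (Sum.inr i) : FF n)).prod = mom ω (fun i => Y i + c • S i) w := by
    intro K _ _ _ ω Y S
    show ⟪ω, evl Y S _ ω⟫_ℂ = _
    rw [map_list_prod, List.map_map, mom]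
    have e : (evl Y S ∘ fun i : Fin n => (FreeAlgebra.ι ℂ (Sum.inl i) +
        c • FreeAlgebra.ι ℂ (Sum.inr i) : FF n)) = fun i => Y i + c • S i := by
      funext i
      simp [evl]
    rw [e]
  rw [e, e] at h2
  exact h2

/-! ### the Fisher information depends only on the law -/

/-- evaluation of linear combinations of words -/
noncomputable def E (ω : K) (X : Fin n → (K →L[ℂ] K)) : (List (Fin n) →₀ ℂ) →ₗ[ℂ] K :=
  Finsupp.linearCombination ℂ (fun w => (w.map X).prod ω)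

theorem E_single (ω : K) (X : Fin n → (K →L[ℂ] K)) (w : List (Fin n)) :
    E ω X (Finsupp.single w 1) = (w.map X).prod ω := by
  rw [E, Finsupp.linearCombination_single, one_smul]

theorem adj_word (X : Fin n → (K →L[ℂ] K)) (hX : ∀ i, IsSelfAdjoint (X i)) (v : List (Fin n))
    (a b : K) : ⟪(v.map X).prod a, b⟫_ℂ = ⟪a, (v.reverse.map X).prod b⟫_ℂ := by
  induction v generalizing b with
  | nil => simp
  | cons i v ih =>
    rw [List.map_cons, List.prod_cons, ContinuousLinearMap.mul_apply]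
    have h1 : ⟪X i ((v.map X).prod a), b⟫_ℂ = ⟪(v.map X).prod a, X i b⟫_ℂ := by
      conv_lhs => rw [← (hX i).star_eq]
      rw [TR.adjL]
    rw [h1, ih]
    simp

theorem E_inner (ω : K) (X : Fin n → (K →L[ℂ] K)) (hX : ∀ i, IsSelfAdjoint (X i))
    (ω' : K') (X' : Fin n → (K' →L[ℂ] K')) (hX' : ∀ i, IsSelfAdjoint (X' i))
    (hm : ∀ w, mom ω X w = mom ω' X' w) (p r : List (Fin n) →₀ ℂ) :
    ⟪E ω X p, E ω X r⟫_ℂ = ⟪E ω' X' p, E ω' X' r⟫_ℂ := by
  have h1 : ∀ v w : List (Fin n), ⟪(v.map X).prod ω, (w.map X).prod ω⟫_ℂ =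
      ⟪(v.map X').prod ω', (w.map X').prod ω'⟫_ℂ := by
    intro v w
    rw [adj_word X hX, adj_word X' hX']
    have := hm (v.reverse ++ w)
    simpa [mom] using this
  simp only [E, Finsupp.linearCombination_apply, Finsupp.sum, sum_inner, inner_sum,
    inner_smul_left, inner_smul_right, h1]

theorem E_norm (ω : K) (X : Fin n → (K →L[ℂ] K)) (hX : ∀ i, IsSelfAdjoint (X i))
    (ω' : K') (X' : Fin n → (K' →L[ℂ] K')) (hX' : ∀ i, IsSelfAdjoint (X' i))
    (hm : ∀ w, mom ω X w = mom ω' X' w) (p : List (Fin n) →₀ ℂ) :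
    ‖E ω X p‖ = ‖E ω' X' p‖ := by
  have h1 := E_inner ω X hX ω' X' hX' hm p p
  rw [inner_self_eq_norm_sq_to_K, inner_self_eq_norm_sq_to_K] at h1
  have h2 : ‖E ω X p‖ ^ 2 = ‖E ω' X' p‖ ^ 2 := by exact_mod_cast h1
  exact (sq_eq_sq₀ (norm_nonneg _) (norm_nonneg _)).1 h2

theorem ddq_eq (ω : K) (X : Fin n → (K →L[ℂ] K)) (ω' : K') (X' : Fin n → (K' →L[ℂ] K'))
    (hm : ∀ w, mom ω X w = mom ω' X' w) (i : Fin n) (w : List (Fin n)) :
    ddq ω X i w = ddq ω' X' i w := by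
  unfold ddq
  simp only [hm]

theorem conj_transfer (ω : K) (X : Fin n → (K →L[ℂ] K)) (hX : ∀ i, IsSelfAdjoint (X i))
    (ω' : K') (X' : Fin n → (K' →L[ℂ] K')) (hX' : ∀ i, IsSelfAdjoint (X' i))
    (hm : ∀ w, mom ω X w = mom ω' X' w) (i : Fin n) (ξ : K) (hξ : IsConj ω X i ξ) :
    ∃ ξ' : K', IsConj ω' X' i ξ' ∧ ‖ξ'‖ = ‖ξ‖ := by
  obtain ⟨x, hx, hlim⟩ := mem_closure_iff_seq_limit.1 hξ.1
  have hx2 : ∀ k, ∃ p, E ω X p = x k := by
    intro k
    have := hx k
    rw [SetLike.mem_coe, ← Finsupp.range_linearCombination] at this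
    exact this
  choose p hp using hx2
  have hc : CauchySeq (fun k => E ω X (p k)) := by
    have : (fun k => E ω X (p k)) = x := by funext k; exact hp k
    rw [this]
    exact hlim.cauchySeq
  have hc' : CauchySeq (fun k => E ω' X' (p k)) := by
    rw [Metric.cauchySeq_iff] at hc ⊢
    intro ε hε
    obtain ⟨N, hN⟩ := hc ε hε
    refine ⟨N, fun m hm' k hk => ?_⟩
    have := hN m hm' k hk
    rw [dist_eq_norm, ← map_sub] at this ⊢
    rw [← E_norm ω X hX ω' X' hX' hm]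
    exact this
  obtain ⟨ξ', hξ'⟩ := cauchySeq_tendsto_of_complete hc'
  have hlim2 : Tendsto (fun k => E ω X (p k)) atTop (𝓝 ξ) := by
    have : (fun k => E ω X (p k)) = x := by funext k; exact hp k
    rw [this]
    exact hlim
  refine ⟨ξ', ⟨?_, fun w => ?_⟩, ?_⟩
  · refine mem_closure_of_tendsto hξ' (Eventually.of_forall fun k => ?_)
    rw [SetLike.mem_coe, ← Finsupp.range_linearCombination]
    exact ⟨p k, rfl⟩
  · rw [← ddq_eq ω X ω' X' hm, ← hξ.2 w]
    have l1 : Tendsto (fun k => ⟪E ω' X' (p k), (w.map X').prod ω'⟫_ℂ) atTop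
        (𝓝 ⟪ξ', (w.map X').prod ω'⟫_ℂ) := hξ'.inner tendsto_const_nhds
    have l2 : Tendsto (fun k => ⟪E ω X (p k), (w.map X).prod ω⟫_ℂ) atTop
        (𝓝 ⟪ξ, (w.map X).prod ω⟫_ℂ) := hlim2.inner tendsto_const_nhds
    refine tendsto_nhds_unique l1 (l2.congr fun k => ?_)
    rw [← E_single ω X, ← E_single ω' X']
    exact E_inner ω X hX ω' X' hX' hm _ _
  · refine tendsto_nhds_unique hξ'.norm (hlim2.norm.congr fun k => ?_)
    exact E_norm ω X hX ω' X' hX' hm _

theorem fisher_le (ω : K) (X : Fin n → (K →L[ℂ] K)) (hX : ∀ i, IsSelfAdjoint (X i))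
    (ω' : K') (X' : Fin n → (K' →L[ℂ] K')) (hX' : ∀ i, IsSelfAdjoint (X' i))
    (hm : ∀ w, mom ω X w = mom ω' X' w) : fisher ω' X' ≤ fisher ω X := by
  unfold fisher
  refine Finset.sum_le_sum fun i _ => ?_
  refine le_iInf₂ fun ξ hξ => ?_
  obtain ⟨ξ', h1, h2⟩ := conj_transfer ω X hX ω' X' hX' hm i ξ hξ
  refine (iInf₂_le ξ' h1).trans (le_of_eq ?_)
  rw [← ofReal_norm, ← ofReal_norm, h2]

theorem fisher_eq (ω : K) (X : Fin n → (K →L[ℂ] K)) (hX : ∀ i, IsSelfAdjoint (X i))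
    (ω' : K') (X' : Fin n → (K' →L[ℂ] K')) (hX' : ∀ i, IsSelfAdjoint (X' i))
    (hm : ∀ w, mom ω X w = mom ω' X' w) : fisher ω X = fisher ω' X' :=
  le_antisymm (fisher_le ω' X' hX' ω X hX fun w => (hm w).symm) (fisher_le ω X hX ω' X' hX' hm)

theorem shift_sa {Y S : Fin n → (K →L[ℂ] K)} (hY : ∀ i, IsSelfAdjoint (Y i))
    (hS : ∀ i, IsSelfAdjoint (S i)) (r : ℝ) (i : Fin n) : IsSelfAdjoint (Y i + (r : ℂ) • S i) := by
  refine (hY i).add ?_
  show star ((r : ℂ) • S i) = (r : ℂ) • S i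
  rw [star_smul, (hS i).star_eq]
  simp

/-- the function `t ↦ Φ*(y + √t s)` does not depend on the realization -/
theorem fisherT_eq {ξ : H} {y : Fin n → (H →L[ℂ] H)} {ω : K} {Y S : Fin n → (K →L[ℂ] K)}
    (h : FreeRealization ξ y ω Y S) {ω' : K'} {Y' S' : Fin n → (K' →L[ℂ] K')}
    (h' : FreeRealization ξ y ω' Y' S') (t : ℝ) : fisherT ω Y S t = fisherT ω' Y' S' t := by
  unfold fisherT
  exact fisher_eq _ _ (shift_sa h.sa (fun i => (h.semi i).1) _) _ _
    (shift_sa h'.sa (fun i => (h'.semi i).1) _) (fun w => mom_eq h h' _ w)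

/-- the free entropy does not depend on the realization -/
theorem chi_eq {ξ : H} {y : Fin n → (H →L[ℂ] H)} {ω : K} {Y S : Fin n → (K →L[ℂ] K)}
    (h : FreeRealization ξ y ω Y S) {ω' : K'} {Y' S' : Fin n → (K' →L[ℂ] K')}
    (h' : FreeRealization ξ y ω' Y' S') :
    chiPos ω Y S = chiPos ω' Y' S' ∧ chiNeg ω Y S = chiNeg ω' Y' S' ∧
      chiStar ω Y S = chiStar ω' Y' S' := by
  have e : fisherT ω Y S = fisherT ω' Y' S' := funext fun t => fisherT_eq h h' t
  have e1 : chiPos ω Y S = chiPos ω' Y' S' := by unfold chiPos; rw [e]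
  have e2 : chiNeg ω Y S = chiNeg ω' Y' S' := by unfold chiNeg; rw [e]
  exact ⟨e1, e2, by unfold chiStar; rw [e1, e2]⟩

end Law

end Pool.Agent.TH254.UN
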