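import Mathlib

set_option autoImplicit false
set_option linter.unusedSectionVars false
set_option linter.deprecated false

/-! A trace argument for finite rank operators. -/

open scoped InnerProductSpace

namespace Pool.Agent.TH254.RK

variable {H : Type} [NormedAddCommGroup H] [InnerProductSpace ℂ H] [CompleteSpace H]

/-- finite rank operators -/
def FR (T : H →L[ℂ] H) : Prop :=
  FiniteDimensional ℂ (LinearMap.range ((T : H →L[ℂ] H) : H →ₗ[ℂ] H))

theorem FR.rep {T : H →L[ℂ] H} (hT : FR T) : ∃ (r : ℕ) (u v : Fin r → H),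
    ∀ x, T x = ∑ i, ⟪v i, x⟫_ℂ • u i := by
  have : FiniteDimensional ℂ (LinearMap.range ((T : H →L[ℂ] H) : H →ₗ[ℂ] H)) := hT
  set W := LinearMap.range ((T : H →L[ℂ] H) : H →ₗ[ℂ] H) with hW
  let e := stdOrthonormalBasis ℂ W
  refine ⟨_, fun i => (e i : H), fun i => (star T) (e i : H), fun x => ?_⟩
  have hx : T x ∈ W := ⟨x, rfl⟩
  have h1 := e.sum_repr' ⟨T x, hx⟩
  have h2 := congrArg (fun z : W => (z : H)) h1
  simp only [Submodule.coe_sum, Submodule.coe_smul, Submodule.coe_inner] at h2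
  rw [← h2]
  apply Finset.sum_congr rfl
  intro i _
  rw [ContinuousLinearMap.star_eq_adjoint, ContinuousLinearMap.adjoint_inner_left]

theorem hasSum_tr {ι : Type*} (b : HilbertBasis ι ℂ H) (T C B : H →L[ℂ] H) {r : ℕ}
    (u v : Fin r → H) (hT : ∀ x, T x = ∑ i, ⟪v i, x⟫_ℂ • u i) :
    HasSum (fun k => ⟪b k, C (T (B (b k)))⟫_ℂ) (∑ i, ⟪v i, B (C (u i))⟫_ℂ) := by
  have e1 : ∀ k, ⟪b k, C (T (B (b k)))⟫_ℂ =
      ∑ i, ⟪(star B) (v i), b k⟫_ℂ * ⟪b k, C (u i)⟫_ℂ := by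
    intro k
    rw [hT, map_sum, inner_sum]
    apply Finset.sum_congr rfl
    intro i _
    rw [map_smul, inner_smul_right, ContinuousLinearMap.star_eq_adjoint,
      ContinuousLinearMap.adjoint_inner_left]
  simp only [e1]
  apply hasSum_sum
  intro i _
  have := b.hasSum_inner_mul_inner ((star B) (v i)) (C (u i))
  rw [ContinuousLinearMap.star_eq_adjoint, ContinuousLinearMap.adjoint_inner_left] at this
  rw [ContinuousLinearMap.star_eq_adjoint]
  exact this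

theorem trace0 (T0 T1 R0 R1 B : H →L[ℂ] H) (h0 : FR T0) (h1 : FR T1)
    (hs : (T0 * R0 - R0 * T0) + (T1 * R1 - R1 * T1) = 0) (hB0 : R0 * B = B * R0) (α β : H)
    (hB1 : ∀ x, R1 (B x) - B (R1 x) = ⟪α, x⟫_ℂ • β) : ⟪α, T1 β⟫_ℂ = 0 := by
  obtain ⟨r0, u0, v0, e0⟩ := h0.rep
  obtain ⟨r1, u1, v1, e1⟩ := h1.rep
  obtain ⟨w, b, -⟩ := exists_hilbertBasis ℂ H
  have s1 := hasSum_tr b T0 1 (R0 * B) u0 v0 e0
  have s2 := hasSum_tr b T0 R0 B u0 v0 e0
  have s3 := hasSum_tr b T1 1 (R1 * B) u1 v1 e1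
  have s4 := hasSum_tr b T1 R1 B u1 v1 e1
  have s := (s1.sub s2).add (s3.sub s4)
  have z : ∀ k, ⟪b k, (1 : H →L[ℂ] H) (T0 ((R0 * B) (b k)))⟫_ℂ - ⟪b k, R0 (T0 (B (b k)))⟫_ℂ +
      (⟪b k, (1 : H →L[ℂ] H) (T1 ((R1 * B) (b k)))⟫_ℂ - ⟪b k, R1 (T1 (B (b k)))⟫_ℂ) = 0 := by
    intro k
    have h3 := congrArg (fun S : H →L[ℂ] H => ⟪b k, S (B (b k))⟫_ℂ) hs
    simp only [ContinuousLinearMap.add_apply, ContinuousLinearMap.sub_apply,
      ContinuousLinearMap.mul_apply, ContinuousLinearMap.zero_apply, inner_zero_right,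
      inner_add_right, inner_sub_right] at h3
    simp only [ContinuousLinearMap.one_apply, ContinuousLinearMap.mul_apply]
    exact h3
  simp only [z] at s
  have h4 := s.unique hasSum_zero
  have h5 : ∑ i, ⟪v0 i, (R0 * B) ((1 : H →L[ℂ] H) (u0 i))⟫_ℂ - ∑ i, ⟪v0 i, B (R0 (u0 i))⟫_ℂ = 0 := by
    rw [hB0]
    simp
  have h6 : ∑ i, ⟪v1 i, (R1 * B) ((1 : H →L[ℂ] H) (u1 i))⟫_ℂ - ∑ i, ⟪v1 i, B (R1 (u1 i))⟫_ℂ =
      ⟪α, T1 β⟫_ℂ := by
    rw [e1, inner_sum, ← Finset.sum_sub_distrib]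
    apply Finset.sum_congr rfl
    intro i _
    rw [ContinuousLinearMap.one_apply, ContinuousLinearMap.mul_apply, ← inner_sub_right, hB1,
      inner_smul_right, inner_smul_right]
    ring
  rw [h5, h6, zero_add] at h4
  exact h4

/-- a finite rank operator commuting with an operator without eigenvectors vanishes -/
theorem comm0 (T R : H →L[ℂ] H) (hT : FR T) (hc : T * R = R * T)
    (he : ∀ (c : ℂ) (v : H), R v = c • v → v = 0) : T = 0 := by
  by_contra hne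
  have : FiniteDimensional ℂ (LinearMap.range ((T : H →L[ℂ] H) : H →ₗ[ℂ] H)) := hT
  set W := LinearMap.range ((T : H →L[ℂ] H) : H →ₗ[ℂ] H) with hW
  have hinv : ∀ x ∈ W, (R : H →ₗ[ℂ] H) x ∈ W := by
    rintro _ ⟨x, rfl⟩
    refine ⟨R x, ?_⟩
    have := congrArg (fun S : H →L[ℂ] H => S x) hc
    simpa using this
  let f : W →ₗ[ℂ] W := (R : H →ₗ[ℂ] H).restrict hinv
  have hnt : Nontrivial W := by
    obtain ⟨x, hx⟩ : ∃ x, T x ≠ 0 := by
      by_contra hall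
      push Not at hall
      exact hne (ContinuousLinearMap.ext hall)
    refine ⟨⟨⟨T x, ⟨x, rfl⟩⟩, 0, ?_⟩⟩
    intro h
    exact hx (congrArg Subtype.val h)
  obtain ⟨c, hcv⟩ := Module.End.exists_eigenvalue f
  obtain ⟨v, hv⟩ := hcv.exists_hasEigenvector
  have h1 : f v = c • v := hv.apply_eq_smul
  have h2 : R (v : H) = c • (v : H) := by
    have := congrArg Subtype.val h1
    simpa [f] using this
  have h3 := he c v h2
  exact hv.2 (Subtype.ext h3)

end Pool.Agent.TH254.RK
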