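import Mathlib
import Pool.Agent.TH254.FC.Tr
import Pool.Agent.TH254.FC.Rank
import Pool.Agent.TH254.FC.Defs

set_option autoImplicit false
set_option linter.unusedSectionVars false
set_option linter.deprecated false

open scoped InnerProductSpace

namespace Pool.Agent.TH254.DL

open Pool.Agent.TH254.TR Pool.Agent.TH254.RK Pool.Agent.TH254.FE

variable {H : Type} [NormedAddCommGroup H] [InnerProductSpace ℂ H] [CompleteSpace H]
variable {𝒜 : StarSubalgebra ℂ (H →L[ℂ] H)} {ξ : H}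

theorem FR.mulLeft {T : H →L[ℂ] H} (hT : FR T) (A : H →L[ℂ] H) : FR (A * T) := by
  have : FiniteDimensional ℂ (LinearMap.range ((T : H →L[ℂ] H) : H →ₗ[ℂ] H)) := hT
  have h1 : LinearMap.range ((A * T : H →L[ℂ] H) : H →ₗ[ℂ] H) =
      (LinearMap.range ((T : H →L[ℂ] H) : H →ₗ[ℂ] H)).map (A : H →ₗ[ℂ] H) := by
    ext x
    simp only [LinearMap.mem_range, Submodule.mem_map]
    constructor
    · rintro ⟨z, rfl⟩
      exact ⟨T z, ⟨z, rfl⟩, rfl⟩
    · rintro ⟨_, ⟨z, rfl⟩, rfl⟩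
      exact ⟨z, rfl⟩
  unfold FR
  rw [h1]
  infer_instance

theorem FR.mulRight {T : H →L[ℂ] H} (hT : FR T) (A : H →L[ℂ] H) : FR (T * A) := by
  have : FiniteDimensional ℂ (LinearMap.range ((T : H →L[ℂ] H) : H →ₗ[ℂ] H)) := hT
  have h1 : LinearMap.range ((T * A : H →L[ℂ] H) : H →ₗ[ℂ] H) ≤
      LinearMap.range ((T : H →L[ℂ] H) : H →ₗ[ℂ] H) := by
    rintro _ ⟨z, rfl⟩
    exact ⟨A z, rfl⟩
  exact Submodule.finiteDimensional_of_le h1

theorem FR.add {S T : H →L[ℂ] H} (hS : FR S) (hT : FR T) : FR (S + T) := by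
  have : FiniteDimensional ℂ (LinearMap.range ((T : H →L[ℂ] H) : H →ₗ[ℂ] H)) := hT
  have : FiniteDimensional ℂ (LinearMap.range ((S : H →L[ℂ] H) : H →ₗ[ℂ] H)) := hS
  have h1 : LinearMap.range ((S + T : H →L[ℂ] H) : H →ₗ[ℂ] H) ≤
      LinearMap.range ((S : H →L[ℂ] H) : H →ₗ[ℂ] H) ⊔
        LinearMap.range ((T : H →L[ℂ] H) : H →ₗ[ℂ] H) := by
    rintro _ ⟨z, rfl⟩
    exact Submodule.add_mem_sup ⟨z, rfl⟩ ⟨z, rfl⟩
  exact Submodule.finiteDimensional_of_le h1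

/-- the data used for the computation of `Δ` -/
structure Dual (𝒜 : StarSubalgebra ℂ (H →L[ℂ] H)) (ξ : H) (y0 y1 D : H →L[ℂ] H) : Prop where
  tv : TrVec 𝒜 ξ
  m0 : y0 ∈ 𝒜
  m1 : y1 ∈ 𝒜
  s0 : star y0 = y0
  eig : ∀ (c : ℂ) (v : H), y0 v = c • v → v = 0
  d0 : R 𝒜 ξ y0 * D = D * R 𝒜 ξ y0
  d1 : ∀ x, R 𝒜 ξ y1 (D x) - D (R 𝒜 ξ y1 x) = -(⟪ξ, x⟫_ℂ • ξ)

variable {y0 y1 D : H →L[ℂ] H}

theorem Kzero (h : Dual 𝒜 ξ y0 y1 D) (T0 T1 : H →L[ℂ] H) (h0 : FR T0) (h1 : FR T1)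
    (hs : (T0 * R 𝒜 ξ y0 - R 𝒜 ξ y0 * T0) + (T1 * R 𝒜 ξ y1 - R 𝒜 ξ y1 * T1) = 0) :
    T0 = 0 ∧ T1 = 0 := by
  have key : ∀ a ∈ 𝒜, ∀ b ∈ 𝒜, ⟪(star b) ξ, T1 (a ξ)⟫_ℂ = 0 := by
    intro a ha b hb
    have h2 := trace0 T0 T1 (R 𝒜 ξ y0) (R 𝒜 ξ y1) (a * D * b) h0 h1 hs (by
      have e1 := R_comm h.tv y0 h.m0 a ha
      have e2 := R_comm h.tv y0 h.m0 b hb
      calc R 𝒜 ξ y0 * (a * D * b) = (R 𝒜 ξ y0 * a) * D * b := by noncomm_ring
        _ = a * (R 𝒜 ξ y0 * D) * b := by rw [e1]; noncomm_ring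
        _ = a * D * (R 𝒜 ξ y0 * b) := by rw [h.d0]; noncomm_ring
        _ = a * D * b * R 𝒜 ξ y0 := by rw [e2]; noncomm_ring) ((star b) ξ) (-(a ξ)) (by
      intro x
      have e1 := R_comm h.tv y1 h.m1 a ha
      have e2 := R_comm h.tv y1 h.m1 b hb
      have f1 : R 𝒜 ξ y1 (a (D (b x))) = a (R 𝒜 ξ y1 (D (b x))) := by
        have := congrArg (fun S : H →L[ℂ] H => S (D (b x))) e1
        simpa using this
      have f2 : b (R 𝒜 ξ y1 x) = R 𝒜 ξ y1 (b x) := by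
        have := congrArg (fun S : H →L[ℂ] H => S x) e2
        simpa using this.symm
      simp only [ContinuousLinearMap.mul_apply]
      rw [f1, f2, ← map_sub, h.d1, map_neg, map_smul, adjL, smul_neg])
    rw [map_neg, inner_neg_right, neg_eq_zero] at h2
    exact h2
  have hT1 : T1 = 0 := by
    ext1 v
    apply ext_cont h.tv (f := fun v => T1 v) (g := fun v => (0 : H →L[ℂ] H) v) T1.continuous
      (0 : H →L[ℂ] H).continuous
    intro a ha
    rw [ContinuousLinearMap.zero_apply]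
    have h3 : ∀ u : H, ⟪u, T1 (a ξ)⟫_ℂ = 0 := by
      intro u
      apply ext_cont h.tv (f := fun u => ⟪u, T1 (a ξ)⟫_ℂ) (g := fun _ => (0 : ℂ))
        (continuous_id.inner continuous_const) continuous_const
      intro b hb
      have := key a ha (star b) (star_mem hb)
      rw [star_star] at this
      exact this
    exact inner_self_eq_zero.1 (h3 _)
  refine ⟨?_, hT1⟩
  apply comm0 T0 (R 𝒜 ξ y0) h0
  · rw [hT1] at hs
    simp only [zero_mul, mul_zero, sub_zero, add_zero] at hs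
    exact sub_eq_zero.1 hs
  · intro c v hv
    exact R_eig h.tv y0 h.s0 h.eig c v hv

theorem R_mul (h : TrVec 𝒜 ξ) (a b : H →L[ℂ] H) : R 𝒜 ξ (a * b) = R 𝒜 ξ b * R 𝒜 ξ a := by
  ext1 v
  rw [ContinuousLinearMap.mul_apply, R_def, R_def, R_def, J_J h, star_mul,
    ContinuousLinearMap.mul_apply]

theorem Kzero' (h : Dual 𝒜 ξ y0 y1 D) (T0 T1 : H →L[ℂ] H) (h0 : FR T0) (h1 : FR T1)
    (hs : (T0 * R 𝒜 ξ y0 - R 𝒜 ξ y0 * T0) +
      (T1 * R 𝒜 ξ (y0 * y1 * y0) - R 𝒜 ξ (y0 * y1 * y0) * T1) = 0) :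
    T0 = 0 ∧ T1 = 0 := by
  rw [R_mul h.tv, R_mul h.tv] at hs
  set a := R 𝒜 ξ y0 with ha
  set b := R 𝒜 ξ y1 with hb
  have hinj : ∀ v, a v = 0 → v = 0 := by
    intro v hv
    exact R_eig h.tv y0 h.s0 h.eig 0 v (by rw [zero_smul]; exact hv)
  have hsa : star a = a := by rw [ha, R_star h.tv, h.s0]
  have h2 := Kzero h (T0 + (T1 * a * b + b * a * T1)) (a * T1 * a)
    (FR.add h0 (FR.add (FR.mulRight (FR.mulRight h1 a) b) (FR.mulLeft h1 (b * a))))
    (FR.mulRight (FR.mulLeft h1 a) a) (by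
      rw [← ha, ← hb, ← hs]
      noncomm_ring)
  obtain ⟨hS0, hS1⟩ := h2
  have h3 : T1 * a = 0 := by
    ext1 v
    rw [ContinuousLinearMap.mul_apply, ContinuousLinearMap.zero_apply]
    apply hinj
    have := congrArg (fun S : H →L[ℂ] H => S v) hS1
    simpa using this
  have h4 : T1 = 0 := by
    have h5 : a * star T1 = 0 := by
      have := congrArg star h3
      rw [star_mul, hsa, star_zero] at this
      exact this
    have h6 : star T1 = 0 := by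
      ext1 v
      rw [ContinuousLinearMap.zero_apply]
      apply hinj
      have := congrArg (fun S : H →L[ℂ] H => S v) h5
      simpa using this
    rw [← star_star T1, h6, star_zero]
  refine ⟨?_, h4⟩
  rw [h4] at hS0
  simpa using hS0

/-- if `𝒦_M(z)` is trivial then `Δ_M(z) = m` -/
theorem Delta_eq {ι : Type} (b : HilbertBasis ι ℂ H) (M : Set (H →L[ℂ] H)) (hξ : ‖ξ‖ = 1) {m : ℕ}
    (z : Fin m → (H →L[ℂ] H)) (hK : KSet M ξ z = {0}) : Delta b M ξ z = m := by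
  unfold Delta
  have h1 : ∀ j : Fin m, (⨅ T : KSet M ξ z, ∑ k : Fin m, ∑' i : ι,
      ‖(T.1 k) (b i) - (if k = j then ⟪ξ, b i⟫_ℂ • ξ else 0)‖ ^ 2) = 1 := by
    intro j
    have hne : Nonempty (KSet M ξ z) := ⟨⟨0, by rw [hK]; rfl⟩⟩
    have h2 : ∀ T : KSet M ξ z, (∑ k : Fin m, ∑' i : ι,
        ‖(T.1 k) (b i) - (if k = j then ⟪ξ, b i⟫_ℂ • ξ else 0)‖ ^ 2) = 1 := by
      intro T
      have h3 : T.1 = 0 := by
        have h7 : ∀ S, S ∈ KSet M ξ z → S = 0 := by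
          intro S hS
          rw [hK] at hS
          exact hS
        exact h7 _ T.2
      rw [h3]
      have h4 : ∀ k : Fin m, (∑' i : ι, ‖((0 : Fin m → (H →L[ℂ] H)) k) (b i) -
          (if k = j then ⟪ξ, b i⟫_ℂ • ξ else 0)‖ ^ 2) = if k = j then 1 else 0 := by
        intro k
        split_ifs with hk
        · have h5 : ∀ i, ‖((0 : Fin m → (H →L[ℂ] H)) k) (b i) - ⟪ξ, b i⟫_ℂ • ξ‖ ^ 2 =
              (⟪ξ, b i⟫_ℂ * ⟪b i, ξ⟫_ℂ).re := by
            intro i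
            simp only [Pi.zero_apply, ContinuousLinearMap.zero_apply, zero_sub, norm_neg,
              norm_smul, hξ, mul_one]
            rw [← inner_conj_symm ξ (b i), ← Complex.normSq_eq_conj_mul_self, Complex.ofReal_re,
              Complex.normSq_eq_norm_sq, RCLike.norm_conj]
          simp only [h5]
          have h6 := ((Complex.hasSum_iff _ _).1 (b.hasSum_inner_mul_inner ξ ξ)).1
          rw [inner_self_eq_norm_sq_to_K, hξ] at h6
          rw [h6.tsum_eq]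
          simp
        · simp
      simp only [h4]
      simp
    simp only [h2]
    exact ciInf_const
  simp [h1]

end Pool.Agent.TH254.DL
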