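import Mathlib

set_option autoImplicit false
set_option linter.unusedSectionVars false
set_option linter.deprecated false

/-! Multiplication operators on `L²` of a probability space. -/

open scoped InnerProductSpace ENNReal
open MeasureTheory

namespace Pool.Agent.TH254.MU

variable {X : Type} [MeasurableSpace X] (ν : Measure X) [IsProbabilityMeasure ν]

/-- `T` is multiplication by `φ` -/
def IsMul (T : Lp ℂ 2 ν →L[ℂ] Lp ℂ 2 ν) (φ : X → ℂ) : Prop :=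
  ∀ f : Lp ℂ 2 ν, (T f : X → ℂ) =ᵐ[ν] fun x => φ x * f x

/-- bounded measurable functions -/
def BM (φ : X → ℂ) : Prop := Measurable φ ∧ ∃ C : ℝ, ∀ x, ‖φ x‖ ≤ C

variable {ν}

theorem BM.mul {φ ψ : X → ℂ} (h1 : BM φ) (h2 : BM ψ) : BM (fun x => φ x * ψ x) := by
  obtain ⟨m1, C1, b1⟩ := h1
  obtain ⟨m2, C2, b2⟩ := h2
  refine ⟨m1.mul m2, C1 * C2, fun x => ?_⟩
  rw [norm_mul]
  exact mul_le_mul (b1 x) (b2 x) (norm_nonneg _) ((norm_nonneg _).trans (b1 x))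

theorem BM.add {φ ψ : X → ℂ} (h1 : BM φ) (h2 : BM ψ) : BM (fun x => φ x + ψ x) := by
  obtain ⟨m1, C1, b1⟩ := h1
  obtain ⟨m2, C2, b2⟩ := h2
  exact ⟨m1.add m2, C1 + C2, fun x => (norm_add_le _ _).trans (add_le_add (b1 x) (b2 x))⟩

theorem BM.const (c : ℂ) : BM (fun _ : X => c) := ⟨measurable_const, ‖c‖, fun _ => le_rfl⟩

theorem BM.conj {φ : X → ℂ} (h1 : BM φ) : BM (fun x => starRingEnd ℂ (φ x)) := by
  obtain ⟨m1, C1, b1⟩ := h1
  refine ⟨Complex.continuous_conj.measurable.comp m1, C1, fun x => ?_⟩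
  rw [RCLike.norm_conj]
  exact b1 x

theorem BM.integrable {φ : X → ℂ} (h1 : BM φ) : Integrable φ ν := by
  obtain ⟨m1, C1, b1⟩ := h1
  exact Integrable.of_bound m1.aestronglyMeasurable C1 (Filter.Eventually.of_forall b1)

theorem memLp_mul {φ : X → ℂ} (hφ : BM φ) (f : Lp ℂ 2 ν) : MemLp (fun x => φ x * f x) 2 ν := by
  obtain ⟨m1, C1, b1⟩ := hφ
  refine MemLp.of_le_mul (c := C1) (Lp.memLp f)
    (m1.aestronglyMeasurable.mul (Lp.aestronglyMeasurable f)) (Filter.Eventually.of_forall ?_)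
  intro x
  rw [norm_mul]
  exact mul_le_mul_of_nonneg_right (b1 x) (norm_nonneg _)

theorem exists_mul {φ : X → ℂ} (hφ : BM φ) : ∃ T : Lp ℂ 2 ν →L[ℂ] Lp ℂ 2 ν, IsMul ν T φ := by
  have hφ' := hφ
  obtain ⟨m1, C1, b1⟩ := hφ'
  refine ⟨LinearMap.mkContinuous
    { toFun := fun f => MemLp.toLp (fun x => φ x * f x) (memLp_mul hφ f)
      map_add' := by
        intro f g
        rw [← MemLp.toLp_add]
        apply MemLp.toLp_congr
        filter_upwards [Lp.coeFn_add f g] with x hx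
        rw [hx, Pi.add_apply, Pi.add_apply, mul_add]
      map_smul' := by
        intro c f
        rw [RingHom.id_apply, ← MemLp.toLp_const_smul]
        apply MemLp.toLp_congr
        filter_upwards [Lp.coeFn_smul c f] with x hx
        rw [hx, Pi.smul_apply, Pi.smul_apply, smul_eq_mul, smul_eq_mul]
        ring } C1 (by
      intro f
      apply Lp.norm_le_mul_norm_of_ae_le_mul
      have := MemLp.coeFn_toLp (memLp_mul hφ f)
      filter_upwards [this] with x hx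
      simp only [LinearMap.coe_mk, AddHom.coe_mk]
      rw [hx, norm_mul]
      exact mul_le_mul_of_nonneg_right (b1 x) (norm_nonneg _)), fun f => ?_⟩
  exact MemLp.coeFn_toLp (memLp_mul hφ f)

theorem IsMul.unique {S T : Lp ℂ 2 ν →L[ℂ] Lp ℂ 2 ν} {φ : X → ℂ} (h1 : IsMul ν S φ)
    (h2 : IsMul ν T φ) : S = T := by
  ext1 f
  apply Lp.ext
  exact (h1 f).trans (h2 f).symm

theorem IsMul.mul {S T : Lp ℂ 2 ν →L[ℂ] Lp ℂ 2 ν} {φ ψ : X → ℂ} (h1 : IsMul ν S φ)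
    (h2 : IsMul ν T ψ) : IsMul ν (S * T) (fun x => φ x * ψ x) := by
  intro f
  rw [ContinuousLinearMap.mul_apply]
  filter_upwards [h1 (T f), h2 f] with x hx hy
  rw [hx, hy, mul_assoc]

theorem IsMul.add {S T : Lp ℂ 2 ν →L[ℂ] Lp ℂ 2 ν} {φ ψ : X → ℂ} (h1 : IsMul ν S φ)
    (h2 : IsMul ν T ψ) : IsMul ν (S + T) (fun x => φ x + ψ x) := by
  intro f
  rw [ContinuousLinearMap.add_apply]
  filter_upwards [h1 f, h2 f, Lp.coeFn_add (S f) (T f)] with x hx hy hz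
  rw [hz, Pi.add_apply, hx, hy, add_mul]

theorem IsMul.const (c : ℂ) : IsMul ν (algebraMap ℂ (Lp ℂ 2 ν →L[ℂ] Lp ℂ 2 ν) c)
    (fun _ => c) := by
  intro f
  rw [Algebra.algebraMap_eq_smul_one, ContinuousLinearMap.smul_apply,
    ContinuousLinearMap.one_apply]
  filter_upwards [Lp.coeFn_smul c f] with x hx
  rw [hx, Pi.smul_apply, smul_eq_mul]

theorem IsMul.pow {S : Lp ℂ 2 ν →L[ℂ] Lp ℂ 2 ν} {φ : X → ℂ} (h1 : IsMul ν S φ) (n : ℕ) :
    IsMul ν (S ^ n) (fun x => φ x ^ n) := by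
  induction n with
  | zero =>
    have := IsMul.const (ν := ν) 1
    simpa using this
  | succ n ih =>
    have := ih.mul h1
    simpa only [pow_succ] using this

theorem IsMul.adj {S : Lp ℂ 2 ν →L[ℂ] Lp ℂ 2 ν} {φ : X → ℂ} (h1 : IsMul ν S φ)
    (hφ : BM φ) : IsMul ν (star S) (fun x => starRingEnd ℂ (φ x)) := by
  obtain ⟨T, hT⟩ := exists_mul (ν := ν) hφ.conj
  have : star S = T := by
    rw [ContinuousLinearMap.star_eq_adjoint]
    symm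
    rw [ContinuousLinearMap.eq_adjoint_iff]
    intro f g
    rw [L2.inner_def, L2.inner_def]
    apply integral_congr_ae
    filter_upwards [hT f, h1 g] with x hx hy
    rw [hx, hy]
    simp only [RCLike.inner_apply, map_mul, Complex.conj_conj]
    ring
  rw [this]
  exact hT

theorem IsMul.comm {S T : Lp ℂ 2 ν →L[ℂ] Lp ℂ 2 ν} {φ ψ : X → ℂ} (h1 : IsMul ν S φ)
    (h2 : IsMul ν T ψ) : S * T = T * S := by
  apply IsMul.unique (h1.mul h2)
  have := h2.mul h1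
  intro f
  filter_upwards [this f] with x hx
  rw [hx]
  ring

/-- the algebra of multiplication operators -/
noncomputable def mulAlg (ν : Measure X) [IsProbabilityMeasure ν] :
    Subalgebra ℂ (Lp ℂ 2 ν →L[ℂ] Lp ℂ 2 ν) where
  carrier := {T | ∃ φ, BM φ ∧ IsMul ν T φ}
  mul_mem' := by
    rintro S T ⟨φ, h1, h2⟩ ⟨ψ, h3, h4⟩
    exact ⟨_, h1.mul h3, h2.mul h4⟩
  add_mem' := by
    rintro S T ⟨φ, h1, h2⟩ ⟨ψ, h3, h4⟩
    exact ⟨_, h1.add h3, h2.add h4⟩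
  algebraMap_mem' := fun c => ⟨_, BM.const c, IsMul.const c⟩

theorem mulAlg_comm : ∀ S ∈ mulAlg ν, ∀ T ∈ mulAlg ν, S * T = T * S := by
  rintro S ⟨φ, h1, h2⟩ T ⟨ψ, h3, h4⟩
  exact h2.comm h4

theorem mulAlg_star : ∀ S ∈ mulAlg ν, star S ∈ mulAlg ν := by
  rintro S ⟨φ, h1, h2⟩
  exact ⟨_, h1.conj, h2.adj h1⟩

/-- the constant function one -/
noncomputable def e0 (ν : Measure X) [IsProbabilityMeasure ν] : Lp ℂ 2 ν :=
  (memLp_const (μ := ν) (p := 2) (1 : ℂ)).toLp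

theorem e0_ae : (e0 ν : X → ℂ) =ᵐ[ν] fun _ => 1 := MemLp.coeFn_toLp _

theorem inner_e0 {T : Lp ℂ 2 ν →L[ℂ] Lp ℂ 2 ν} {φ : X → ℂ} (h : IsMul ν T φ) :
    ⟪e0 ν, T (e0 ν)⟫_ℂ = ∫ x, φ x ∂ν := by
  rw [L2.inner_def]
  apply integral_congr_ae
  filter_upwards [h (e0 ν), e0_ae (ν := ν)] with x hx hy
  rw [hx, hy]
  simp

theorem norm_e0 : ‖e0 ν‖ = 1 := by
  have h := inner_e0 (ν := ν) (IsMul.const (1 : ℂ))
  simp only [map_one, ContinuousLinearMap.one_apply, integral_const] at h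
  have h2 : (‖e0 ν‖ : ℂ) ^ 2 = 1 := by
    rw [← Complex.coe_algebraMap, ← inner_self_eq_norm_sq_to_K (𝕜 := ℂ)]
    simpa using h
  have h3 : ‖e0 ν‖ ^ 2 = 1 := by exact_mod_cast h2
  nlinarith [norm_nonneg (e0 ν)]

theorem norm_sq_e0 {T : Lp ℂ 2 ν →L[ℂ] Lp ℂ 2 ν} {φ : X → ℂ} (h : IsMul ν T φ) :
    ‖T (e0 ν)‖ ^ 2 = ∫ x, ‖φ x‖ ^ 2 ∂ν := by
  have h1 : ((‖T (e0 ν)‖ ^ 2 : ℝ) : ℂ) = ((∫ x, ‖φ x‖ ^ 2 ∂ν : ℝ) : ℂ) := by
    have h2 : ((‖T (e0 ν)‖ ^ 2 : ℝ) : ℂ) = ⟪T (e0 ν), T (e0 ν)⟫_ℂ := by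
      rw [inner_self_eq_norm_sq_to_K]
      push_cast
      rfl
    rw [h2, L2.inner_def, ← integral_complex_ofReal]
    apply integral_congr_ae
    filter_upwards [h (e0 ν), e0_ae (ν := ν)] with x hx hy
    rw [hx, hy, mul_one, inner_self_eq_norm_sq_to_K]
    push_cast
    rfl
  exact_mod_cast h1

theorem norm_le {T : Lp ℂ 2 ν →L[ℂ] Lp ℂ 2 ν} {φ : X → ℂ} (h : IsMul ν T φ) (C : ℝ)
    (hC : ∀ x, ‖φ x‖ ≤ C) (f : Lp ℂ 2 ν) : ‖T f‖ ≤ C * ‖f‖ := by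
  apply Lp.norm_le_mul_norm_of_ae_le_mul
  filter_upwards [h f] with x hx
  rw [hx, norm_mul]
  exact mul_le_mul_of_nonneg_right (hC x) (norm_nonneg _)

theorem no_eigen {T : Lp ℂ 2 ν →L[ℂ] Lp ℂ 2 ν} {φ : X → ℂ} (h : IsMul ν T φ) (c : ℂ)
    (hc : ∀ᵐ x ∂ν, φ x ≠ c) (f : Lp ℂ 2 ν) (hf : T f = c • f) : f = 0 := by
  apply Lp.ext
  have h1 := h f
  rw [hf] at h1
  filter_upwards [h1, Lp.coeFn_smul c f, hc, Lp.coeFn_zero ℂ 2 ν] with x hx hy hz h0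
  rw [hy, Pi.smul_apply, smul_eq_mul] at hx
  rw [h0, Pi.zero_apply]
  have h3 : (φ x - c) * f x = 0 := by rw [sub_mul, ← hx, sub_self]
  rcases mul_eq_zero.1 h3 with h4 | h4
  · exact absurd (sub_eq_zero.1 h4) hz
  · exact h4

end Pool.Agent.TH254.MU
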