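import Mathlib

set_option autoImplicit false

/-! The calculus of split sums: `sp c Φ Ψ L` is the sum over all ways of writing the list `L` as
`L₁ ++ x :: L₂` of `c x * Φ L₁ • Ψ L₂`. -/

namespace Pool.Agent.TH254.FC

variable {V N N' : Type*} [AddCommGroup N] [Module ℂ N] [AddCommGroup N'] [Module ℂ N']

/-- auxiliary definition with the arguments in the order needed for the recursion -/
def spA (c : V → ℂ) (Ψ : List V → N) : (List V → ℂ) → List V → N
  | _, [] => 0
  | Φ, x :: L => (c x * Φ []) • Ψ L + spA c Ψ (fun M => Φ (x :: M)) L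

/-- the split sum -/
def sp (c : V → ℂ) (Φ : List V → ℂ) (Ψ : List V → N) (L : List V) : N := spA c Ψ Φ L

@[simp] theorem sp_nil (c : V → ℂ) (Φ : List V → ℂ) (Ψ : List V → N) : sp c Φ Ψ [] = 0 := rfl

theorem sp_cons (c : V → ℂ) (Φ : List V → ℂ) (Ψ : List V → N) (x : V) (L : List V) :
    sp c Φ Ψ (x :: L) = (c x * Φ []) • Ψ L + sp c (fun M => Φ (x :: M)) Ψ L := rfl

theorem sp_congr (c : V → ℂ) (Φ Φ' : List V → ℂ) (Ψ Ψ' : List V → N) (L : List V)
    (h1 : ∀ M : List V, (∀ x ∈ M, x ∈ L) → M.length < L.length → Φ M = Φ' M)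
    (h2 : ∀ M : List V, (∀ x ∈ M, x ∈ L) → M.length < L.length → Ψ M = Ψ' M) :
    sp c Φ Ψ L = sp c Φ' Ψ' L := by
  induction L generalizing Φ Φ' with
  | nil => rfl
  | cons x L ih =>
    rw [sp_cons, sp_cons, h1 [] (by simp) (by simp),
      h2 L (fun y hy => List.mem_cons_of_mem _ hy) (by simp)]
    congr 1
    apply ih
    · intro M hM hl
      apply h1
      · intro y hy
        rcases List.mem_cons.1 hy with rfl | hy
        · exact List.mem_cons_self
        · exact List.mem_cons_of_mem _ (hM y hy)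
      · simpa using hl
    · intro M hM hl
      exact h2 M (fun y hy => List.mem_cons_of_mem _ (hM y hy)) (by simp; omega)

theorem sp_congr_coef (c c' : V → ℂ) (Φ : List V → ℂ) (Ψ : List V → N) (L : List V)
    (h : ∀ x ∈ L, c x = c' x) : sp c Φ Ψ L = sp c' Φ Ψ L := by
  induction L generalizing Φ with
  | nil => rfl
  | cons x L ih =>
    rw [sp_cons, sp_cons, h x List.mem_cons_self, ih _ fun y hy => h y (List.mem_cons_of_mem _ hy)]

theorem sp_coef_zero (c : V → ℂ) (Φ : List V → ℂ) (Ψ : List V → N) (L : List V)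
    (h : ∀ x ∈ L, c x = 0) : sp c Φ Ψ L = 0 := by
  induction L generalizing Φ with
  | nil => rfl
  | cons x L ih =>
    rw [sp_cons, h x List.mem_cons_self, ih _ fun y hy => h y (List.mem_cons_of_mem _ hy)]
    simp

theorem sp_coef_add (c c' : V → ℂ) (Φ : List V → ℂ) (Ψ : List V → N) (L : List V) :
    sp (fun x => c x + c' x) Φ Ψ L = sp c Φ Ψ L + sp c' Φ Ψ L := by
  induction L generalizing Φ with
  | nil => simp
  | cons x L ih =>
    rw [sp_cons, sp_cons, sp_cons, ih, add_mul, add_smul]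
    abel

theorem sp_coef_smul (r : ℂ) (c : V → ℂ) (Φ : List V → ℂ) (Ψ : List V → N) (L : List V) :
    sp (fun x => r * c x) Φ Ψ L = r • sp c Φ Ψ L := by
  induction L generalizing Φ with
  | nil => simp
  | cons x L ih =>
    rw [sp_cons, sp_cons, ih, smul_add, smul_smul, mul_assoc]

theorem sp_add_left (c : V → ℂ) (Φ Φ' : List V → ℂ) (Ψ : List V → N) (L : List V) :
    sp c (fun M => Φ M + Φ' M) Ψ L = sp c Φ Ψ L + sp c Φ' Ψ L := by
  induction L generalizing Φ Φ' with
  | nil => simp
  | cons x L ih =>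
    rw [sp_cons, sp_cons, sp_cons, ih, mul_add, add_smul]
    abel

theorem sp_smul_left (r : ℂ) (c : V → ℂ) (Φ : List V → ℂ) (Ψ : List V → N) (L : List V) :
    sp c (fun M => r * Φ M) Ψ L = r • sp c Φ Ψ L := by
  induction L generalizing Φ with
  | nil => simp
  | cons x L ih =>
    rw [sp_cons, sp_cons, ih, smul_add, smul_smul]
    congr 2
    ring

theorem sp_zero_left (c : V → ℂ) (Ψ : List V → N) (L : List V) :
    sp c (fun _ => 0) Ψ L = 0 := by
  induction L with
  | nil => simp
  | cons x L ih => rw [sp_cons, ih]; simp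

theorem sp_sum_left {ι : Type*} (s : Finset ι) (c : V → ℂ) (Φ : ι → List V → ℂ)
    (Ψ : List V → N) (L : List V) :
    sp c (fun M => ∑ j ∈ s, Φ j M) Ψ L = ∑ j ∈ s, sp c (Φ j) Ψ L := by
  classical
  induction s using Finset.induction_on with
  | empty => simp [sp_zero_left]
  | insert a s ha ih =>
    simp only [Finset.sum_insert ha]
    rw [sp_add_left, ih]

theorem sp_add_right (c : V → ℂ) (Φ : List V → ℂ) (Ψ Ψ' : List V → N) (L : List V) :
    sp c Φ (fun M => Ψ M + Ψ' M) L = sp c Φ Ψ L + sp c Φ Ψ' L := by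
  induction L generalizing Φ with
  | nil => simp
  | cons x L ih =>
    rw [sp_cons, sp_cons, sp_cons, ih, smul_add]
    abel

theorem sp_zero_right (c : V → ℂ) (Φ : List V → ℂ) (L : List V) :
    sp c Φ (fun _ => (0 : N)) L = 0 := by
  induction L generalizing Φ with
  | nil => simp
  | cons x L ih => rw [sp_cons, ih]; simp

theorem sp_sum_right {ι : Type*} (s : Finset ι) (c : V → ℂ) (Φ : List V → ℂ)
    (Ψ : ι → List V → N) (L : List V) :
    sp c Φ (fun M => ∑ j ∈ s, Ψ j M) L = ∑ j ∈ s, sp c Φ (Ψ j) L := by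
  classical
  induction s using Finset.induction_on with
  | empty => simp [sp_zero_right]
  | insert a s ha ih =>
    simp only [Finset.sum_insert ha]
    rw [sp_add_right, ih]

/-- linear maps pass through the split sum -/
theorem map_sp (f : N →ₗ[ℂ] N') (c : V → ℂ) (Φ : List V → ℂ) (Ψ : List V → N) (L : List V) :
    f (sp c Φ Ψ L) = sp c Φ (fun M => f (Ψ M)) L := by
  induction L generalizing Φ with
  | nil => simp
  | cons x L ih => rw [sp_cons, sp_cons, map_add, map_smul, ih]

theorem sp_smul_right (r : ℂ) (c : V → ℂ) (Φ : List V → ℂ) (Ψ : List V → N) (L : List V) :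
    sp c Φ (fun M => r • Ψ M) L = r • sp c Φ Ψ L := by
  have := map_sp (r • (LinearMap.id : N →ₗ[ℂ] N)) c Φ Ψ L
  simpa using this.symm

/-- a scalar valued right factor multiplies a fixed vector -/
theorem sp_smul_vec (c : V → ℂ) (Φ Ψ : List V → ℂ) (v : N) (L : List V) :
    sp c Φ (fun M => Ψ M • v) L = sp c Φ Ψ L • v := by
  induction L generalizing Φ with
  | nil => simp
  | cons x L ih =>
    rw [sp_cons, sp_cons, ih, add_smul, smul_smul, smul_eq_mul]

/-- associativity of double splits -/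
theorem sp_assoc (c d : V → ℂ) (Φ Χ : List V → ℂ) (Ψ : List V → N) (L : List V) :
    sp d (sp c Φ Χ) Ψ L = sp c Φ (sp d Χ Ψ) L := by
  induction L generalizing Φ with
  | nil => rfl
  | cons x L ih =>
    rw [sp_cons, sp_cons]
    have : (fun M => sp c Φ Χ (x :: M)) = fun M => (c x * Φ []) * Χ M +
        sp c (fun M => Φ (x :: M)) Χ M := by
      funext M
      rw [sp_cons, smul_eq_mul]
    rw [this, sp_add_left, sp_smul_left, ih]
    simp

theorem sp_snoc (c : V → ℂ) (Φ : List V → ℂ) (Ψ : List V → N) (L : List V) (a : V) :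
    sp c Φ Ψ (L ++ [a]) = sp c Φ (fun M => Ψ (M ++ [a])) L + (c a * Φ L) • Ψ [] := by
  induction L generalizing Φ with
  | nil => simp [sp_cons]
  | cons x L ih =>
    rw [List.cons_append, sp_cons, sp_cons, ih]
    abel

end Pool.Agent.TH254.FC
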