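import Mathlib
import Pool.Agent.TH254.FC.Split

set_option autoImplicit false
set_option linter.unusedSectionVars false
set_option linter.deprecated false

/-! Semicircular elements `l j + l j*` over a commutative algebra `A`, from the relations
`l i* a l j = δ_{ij} τ(a)`, `l i* a Ω = 0`. -/

open scoped InnerProductSpace

namespace Pool.Agent.TH254.FC

variable {K : Type*} [NormedAddCommGroup K] [InnerProductSpace ℂ K] [CompleteSpace K]
variable {I : Type*} [Fintype I] [DecidableEq I]

/-- the vector state -/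
noncomputable def tau (Ω : K) (a : K →L[ℂ] K) : ℂ := ⟪Ω, a Ω⟫_ℂ

/-- the relations of creation operators over a commutative `*`-algebra -/
structure Fock (A : Subalgebra ℂ (K →L[ℂ] K)) (Ω : K) (l : I → K →L[ℂ] K) : Prop where
  norm : ‖Ω‖ = 1
  comm : ∀ a ∈ A, ∀ b ∈ A, a * b = b * a
  st : ∀ a ∈ A, star a ∈ A
  r1 : ∀ a ∈ A, ∀ i j, ∀ v : K, star (l i) (a (l j v)) = if i = j then tau Ω a • v else 0
  r2 : ∀ a ∈ A, ∀ i, star (l i) (a Ω) = 0

variable {A : Subalgebra ℂ (K →L[ℂ] K)} {Ω : K} {l : I → K →L[ℂ] K}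

/-- the operator of a letter -/
noncomputable def op (l : I → K →L[ℂ] K) (x : A × (I → ℂ)) : K →L[ℂ] K :=
  (x.1 : K →L[ℂ] K) + ∑ j, x.2 j • (l j + star (l j))

/-- the operator of a word -/
noncomputable def pr (l : I → K →L[ℂ] K) (L : List (A × (I → ℂ))) : K →L[ℂ] K :=
  (L.map (op l)).prod

@[simp] theorem pr_nil : pr l ([] : List (A × (I → ℂ))) = 1 := by simp [pr]

theorem pr_cons (x : A × (I → ℂ)) (L : List (A × (I → ℂ))) :
    pr l (x :: L) = op l x * pr l L := by simp [pr]

theorem pr_append (L L' : List (A × (I → ℂ))) :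
    pr l (L ++ L') = pr l L * pr l L' := by simp [pr]

/-- mixed moments -/
noncomputable def T (Ω : K) (l : I → K →L[ℂ] K) (a : K →L[ℂ] K) (L : List (A × (I → ℂ))) : ℂ :=
  ⟪Ω, a (pr l L Ω)⟫_ℂ

/-- coefficients of the letters -/
def cf (j : I) (x : A × (I → ℂ)) : ℂ := x.2 j

theorem T_nil (a : K →L[ℂ] K) : T Ω l a ([] : List (A × (I → ℂ))) = tau Ω a := by
  simp [T, tau]

theorem op_apply (x : A × (I → ℂ)) (v : K) :
    op l x v = (x.1 : K →L[ℂ] K) v + ∑ j, x.2 j • (l j v + star (l j) v) := by
  simp [op]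

variable (F : Fock A Ω l)
include F

/-- the annihilation formula on the vacuum, together with the recursion for moments -/
theorem annih_aux (n : ℕ) : ∀ L : List (A × (I → ℂ)), L.length ≤ n → ∀ a ∈ A, 
    (∀ i, star (l i) (a (pr l L Ω)) = sp (cf i) (T Ω l a) (fun M => pr l M Ω) L) ∧
    ∀ x : A × (I → ℂ), T Ω l a (x :: L) = T Ω l (a * x.1) L +
      ∑ j, x.2 j * sp (cf j) (T Ω l 1) (T Ω l a) L := by
  induction n using Nat.strong_induction_on with
  | _ n ih =>
    -- first the annihilation formula
    have key : ∀ L : List (A × (I → ℂ)), L.length ≤ n → ∀ a ∈ A, ∀ i, 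
        star (l i) (a (pr l L Ω)) = sp (cf i) (T Ω l a) (fun M => pr l M Ω) L := by
      intro L hL a ha i
      rcases L with _ | ⟨x, L⟩
      · simp [F.r2 a ha i]
      · have hL' : L.length < n := by simpa using hL
        have hL0 : L.length ≤ L.length := le_rfl
        rw [pr_cons, ContinuousLinearMap.mul_apply, op_apply, map_add, map_add, map_sum, map_sum,
          sp_cons]
        have e1 : star (l i) (a ((x.1 : K →L[ℂ] K) (pr l L Ω))) =
            sp (cf i) (T Ω l (a * x.1)) (fun M => pr l M Ω) L := by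
          have := (ih L.length hL' L le_rfl (a * x.1) (A.mul_mem ha x.1.2)).1 i
          simpa using this
        have e2 : ∀ j, star (l i) (a (x.2 j • (l j (pr l L Ω) + star (l j) (pr l L Ω)))) =
            (if i = j then (x.2 j * tau Ω a) • pr l L Ω else 0) +
            x.2 j • sp (cf i) (sp (cf j) (T Ω l 1) (T Ω l a)) (fun M => pr l M Ω) L := by
          intro j
          rw [map_smul, map_smul, map_add, map_add, smul_add, F.r1 a ha i j]
          congr 1
          · split_ifs
            · rw [smul_smul]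
            · simp
          · congr 1
            have h1 := (ih L.length hL' L le_rfl 1 A.one_mem).1 j
            rw [ContinuousLinearMap.one_apply] at h1
            rw [h1]
            have h2 := map_sp ((star (l i) * a : K →L[ℂ] K) : K →ₗ[ℂ] K) (cf j) (T Ω l 1)
              (fun M => pr l M Ω) L
            simp only [ContinuousLinearMap.coe_coe, ContinuousLinearMap.mul_apply] at h2
            rw [h2, sp_assoc]
            apply sp_congr
            · intro M _ _; rfl
            · intro M _ hM
              exact (ih M.length (by omega) M le_rfl a ha).1 i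
        rw [e1, Finset.sum_congr rfl fun j _ => e2 j, Finset.sum_add_distrib]
        simp only [Finset.sum_ite_eq, Finset.mem_univ, if_true]
        have e3 : sp (cf i) (fun M => T Ω l a (x :: M)) (fun M => pr l M Ω) L =
            sp (cf i) (fun M => T Ω l (a * x.1) M + ∑ j, x.2 j * sp (cf j) (T Ω l 1) (T Ω l a) M)
              (fun M => pr l M Ω) L := by
          apply sp_congr
          · intro M _ hM
            exact (ih M.length (by omega) M le_rfl a ha).2 x
          · intro M _ _; rfl
        rw [e3, sp_add_left, sp_sum_left]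
        simp only [sp_smul_left]
        rw [T_nil]
        show _ = (cf i x * tau Ω a) • pr l L Ω + _
        simp only [cf]
        abel
    intro L hL a ha
    refine ⟨key L hL a ha, fun x => ?_⟩
    have e0 : T Ω l a (x :: L) = ⟪Ω, a ((x.1 : K →L[ℂ] K) (pr l L Ω))⟫_ℂ +
        ∑ j, x.2 j * (⟪Ω, a (l j (pr l L Ω))⟫_ℂ + ⟪Ω, a (star (l j) (pr l L Ω))⟫_ℂ) := by
      rw [T, pr_cons, ContinuousLinearMap.mul_apply, op_apply, map_add, map_sum, inner_add_right,
        inner_sum]
      congr 1
      apply Finset.sum_congr rfl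
      intro j _
      rw [map_smul, map_add, inner_smul_right, inner_add_right]
    rw [e0]
    congr 1
    apply Finset.sum_congr rfl
    intro j _
    congr 1
    have h1 : ⟪Ω, a (l j (pr l L Ω))⟫_ℂ = 0 := by
      have : ⟪Ω, a (l j (pr l L Ω))⟫_ℂ = ⟪star (l j) ((star a) Ω), pr l L Ω⟫_ℂ := by
        rw [ContinuousLinearMap.star_eq_adjoint, ContinuousLinearMap.star_eq_adjoint,
          ContinuousLinearMap.adjoint_inner_left, ContinuousLinearMap.adjoint_inner_left]
      rw [this, F.r2 _ (F.st a ha) j, inner_zero_left]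
    rw [h1, zero_add]
    have h2 := key L hL 1 A.one_mem j
    rw [ContinuousLinearMap.one_apply] at h2
    rw [h2]
    have h3 := map_sp (((innerSL ℂ Ω) ∘L a : K →L[ℂ] ℂ) : K →ₗ[ℂ] ℂ) (cf j) (T Ω l 1)
      (fun M => pr l M Ω) L
    simp only [ContinuousLinearMap.coe_coe, ContinuousLinearMap.comp_apply, innerSL_apply_apply]
      at h3
    rw [h3]
    rfl

theorem annih (L : List (A × (I → ℂ))) (a : K →L[ℂ] K) (ha : a ∈ A) (i : I) :
    star (l i) (a (pr l L Ω)) = sp (cf i) (T Ω l a) (fun M => pr l M Ω) L :=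
  (annih_aux F L.length L le_rfl a ha).1 i

theorem T_cons (a : K →L[ℂ] K) (ha : a ∈ A) (x : A × (I → ℂ)) (L : List (A × (I → ℂ))) :
    T Ω l a (x :: L) = T Ω l (a * x.1) L + ∑ j, x.2 j * sp (cf j) (T Ω l 1) (T Ω l a) L :=
  (annih_aux F L.length L le_rfl a ha).2 x

end Pool.Agent.TH254.FC
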