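import Mathlib
import Pool.Agent.TH254.FC.Calc

set_option autoImplicit false
set_option linter.unusedSectionVars false
set_option linter.deprecated false

open scoped InnerProductSpace

namespace Pool.Agent.TH254.FC

variable {K : Type*} [NormedAddCommGroup K] [InnerProductSpace ℂ K] [CompleteSpace K]
variable {I : Type*} [Fintype I] [DecidableEq I]
variable {A : Subalgebra ℂ (K →L[ℂ] K)} {Ω : K} {l : I → K →L[ℂ] K}
variable (F : Fock A Ω l)
include F

/-- the annihilation formula on a vector which behaves like a vacuum -/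
theorem annih_vec (ζ : K) (Z : I → K)
    (hζ : ∀ a ∈ A, ∀ i, star (l i) (a ζ) = tau Ω a • Z i) (n : ℕ) :
    ∀ L : List (A × (I → ℂ)), L.length ≤ n → (∀ x ∈ L, ∀ j, x.2 j ≠ 0 → Z j = 0) →
    ∀ a ∈ A, ∀ i, star (l i) (a (pr l L ζ)) =
      T Ω l a L • Z i + sp (cf i) (T Ω l a) (fun M => pr l M ζ) L := by
  induction n using Nat.strong_induction_on with
  | _ n ih =>
    intro L hL hZ a ha i
    rcases L with _ | ⟨x, L⟩
    · simp [hζ a ha i, T_nil]
    · have hL' : L.length < n := by simpa using hL
      have hZ' : ∀ x ∈ L, ∀ j, x.2 j ≠ 0 → Z j = 0 := fun y hy => hZ y (List.mem_cons_of_mem _ hy)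
      rw [pr_cons, ContinuousLinearMap.mul_apply, op_apply, map_add, map_add, map_sum, map_sum,
        sp_cons]
      have e1 : star (l i) (a ((x.1 : K →L[ℂ] K) (pr l L ζ))) =
          T Ω l (a * x.1) L • Z i + sp (cf i) (T Ω l (a * x.1)) (fun M => pr l M ζ) L := by
        have := ih L.length hL' L le_rfl hZ' (a * x.1) (A.mul_mem ha x.1.2) i
        simpa using this
      have e2 : ∀ j, star (l i) (a (x.2 j • (l j (pr l L ζ) + star (l j) (pr l L ζ)))) =
          (if i = j then (x.2 j * tau Ω a) • pr l L ζ else 0) +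
          ((x.2 j * sp (cf j) (T Ω l 1) (T Ω l a) L) • Z i +
          x.2 j • sp (cf i) (sp (cf j) (T Ω l 1) (T Ω l a)) (fun M => pr l M ζ) L) := by
        intro j
        rw [map_smul, map_smul, map_add, map_add, smul_add, F.r1 a ha i j]
        congr 1
        · split_ifs
          · rw [smul_smul]
          · simp
        · by_cases hj : x.2 j = 0
          · simp [hj]
          · have hZj : Z j = 0 := hZ x List.mem_cons_self j hj
            have h1 := ih L.length hL' L le_rfl hZ' 1 A.one_mem j
            rw [ContinuousLinearMap.one_apply, hZj, smul_zero, zero_add] at h1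
            rw [h1]
            have h2 := map_sp ((star (l i) * a : K →L[ℂ] K) : K →ₗ[ℂ] K) (cf j) (T Ω l 1)
              (fun M => pr l M ζ) L
            simp only [ContinuousLinearMap.coe_coe, ContinuousLinearMap.mul_apply] at h2
            rw [h2, sp_assoc]
            have h3 : sp (cf j) (T Ω l 1) (fun M => star (l i) (a (pr l M ζ))) L =
                sp (cf j) (T Ω l 1) (fun M => T Ω l a M • Z i +
                  sp (cf i) (T Ω l a) (fun M => pr l M ζ) M) L := by
              apply sp_congr
              · intro M _ _; rfl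
              · intro M hMm hM
                exact ih M.length (by omega) M le_rfl (fun y hy => hZ' y (hMm y hy)) a ha i
            rw [h3, sp_add_right, sp_smul_vec, smul_add, smul_smul]
      rw [e1, Finset.sum_congr rfl fun j _ => e2 j, Finset.sum_add_distrib,
        Finset.sum_add_distrib]
      simp only [Finset.sum_ite_eq, Finset.mem_univ, if_true]
      have e3 : sp (cf i) (fun M => T Ω l a (x :: M)) (fun M => pr l M ζ) L =
          sp (cf i) (fun M => T Ω l (a * x.1) M + ∑ j, x.2 j * sp (cf j) (T Ω l 1) (T Ω l a) M)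
            (fun M => pr l M ζ) L := by
        apply sp_congr
        · intro M _ hM
          exact T_cons F a ha x M
        · intro M _ _; rfl
      rw [e3, sp_add_left, sp_sum_left, T_cons F a ha x L]
      simp only [sp_smul_left]
      rw [T_nil, ← Finset.sum_smul]
      show _ = _ + ((cf i x * tau Ω a) • pr l L ζ + _)
      simp only [cf, add_smul]
      abel

/-- compression of words not containing the letter `j` -/
theorem compress (L : List (A × (I → ℂ))) (j : I) (hL : ∀ x ∈ L, x.2 j = 0) (a : K →L[ℂ] K)
    (ha : a ∈ A) (v : K) : star (l j) (a (pr l L (l j v))) = T Ω l a L • v := by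
  have h := annih_vec F (l j v) (fun i => if i = j then v else 0) (by
    intro a ha i
    rw [F.r1 a ha i j]
    simp only [smul_ite, smul_zero]) L.length L le_rfl (by
    intro x hx i hi
    have : i ≠ j := by
      rintro rfl
      exact hi (hL x hx)
    simp [this]) a ha j
  rw [h, sp_coef_zero]
  · simp
  · intro x hx
    exact hL x hx

/-- two different letters `i ≠ j`, both absent from the word -/
theorem compress_ne (L : List (A × (I → ℂ))) (i j : I) (hij : i ≠ j) (hLi : ∀ x ∈ L, x.2 i = 0)
    (hL : ∀ x ∈ L, x.2 j = 0) (a : K →L[ℂ] K)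
    (ha : a ∈ A) (v : K) : star (l i) (a (pr l L (l j v))) = 0 := by
  have h := annih_vec F (l j v) (fun i => if i = j then v else 0) (by
    intro a ha i
    rw [F.r1 a ha i j]
    simp only [smul_ite, smul_zero]) L.length L le_rfl (by
    intro x hx i hi
    have : i ≠ j := by
      rintro rfl
      exact hi (hL x hx)
    simp [this]) a ha i
  rw [h, sp_coef_zero]
  · simp [hij]
  · intro x hx
    exact hLi x hx

/-- words not containing the letter `i`, on the vacuum -/
theorem annih_zero (L : List (A × (I → ℂ))) (i : I) (hLi : ∀ x ∈ L, x.2 i = 0) (a : K →L[ℂ] K)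
    (ha : a ∈ A) : star (l i) (a (pr l L Ω)) = 0 := by
  rw [annih F L a ha i, sp_coef_zero]
  exact hLi

/-- moments of words with a last letter -/
theorem T_snoc (x : A × (I → ℂ)) (n : ℕ) : ∀ L : List (A × (I → ℂ)), L.length ≤ n →
    ∀ a ∈ A, T Ω l a (L ++ [x]) = T Ω l (x.1 * a) L +
      ∑ j, x.2 j * sp (cf j) (T Ω l a) (T Ω l 1) L := by
  induction n using Nat.strong_induction_on with
  | _ n ih =>
    intro L hL a ha
    rcases L with _ | ⟨y, L⟩
    · rw [List.nil_append, T_cons F a ha]
      simp [F.comm a ha x.1 x.1.2]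
    · have hL' : L.length < n := by simpa using hL
      rw [List.cons_append, T_cons F a ha, T_cons F (x.1 * a) (A.mul_mem x.1.2 ha),
        ih L.length hL' L le_rfl (a * y.1) (A.mul_mem ha y.1.2)]
      have e1 : ∀ j, sp (cf j) (T Ω l 1) (T Ω l a) (L ++ [x]) =
          sp (cf j) (T Ω l 1) (T Ω l (x.1 * a)) L +
          (∑ k, x.2 k * sp (cf k) (sp (cf j) (T Ω l 1) (T Ω l a)) (T Ω l 1) L) +
          x.2 j * T Ω l 1 L * tau Ω a := by
        intro j
        rw [sp_snoc, T_nil]
        have h3 : sp (cf j) (T Ω l 1) (fun M => T Ω l a (M ++ [x])) L =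
            sp (cf j) (T Ω l 1) (fun M => T Ω l (x.1 * a) M +
              ∑ k, x.2 k * sp (cf k) (T Ω l a) (T Ω l 1) M) L := by
          apply sp_congr
          · intro M _ _; rfl
          · intro M _ hM
            exact ih M.length (by omega) M le_rfl a ha
        rw [h3, sp_add_right, sp_sum_right]
        congr 2
        apply Finset.sum_congr rfl
        intro k _
        have := sp_smul_right (x.2 k) (cf j) (T Ω l 1) (sp (cf k) (T Ω l a) (T Ω l 1)) L
        simp only [smul_eq_mul] at this
        rw [this, sp_assoc]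
      have e2 : ∀ k, sp (cf k) (T Ω l a) (T Ω l 1) (y :: L) =
          y.2 k * tau Ω a * T Ω l 1 L + (sp (cf k) (T Ω l (a * y.1)) (T Ω l 1) L +
            ∑ j, y.2 j * sp (cf k) (sp (cf j) (T Ω l 1) (T Ω l a)) (T Ω l 1) L) := by
        intro k
        rw [sp_cons, T_nil]
        have h3 : sp (cf k) (fun M => T Ω l a (y :: M)) (T Ω l 1) L =
            sp (cf k) (fun M => T Ω l (a * y.1) M +
              ∑ j, y.2 j * sp (cf j) (T Ω l 1) (T Ω l a) M) (T Ω l 1) L := by
          apply sp_congr
          · intro M _ _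
            exact T_cons F a ha y M
          · intro M _ _; rfl
        rw [h3, sp_add_left, sp_sum_left]
        simp only [sp_smul_left, smul_eq_mul]
        rfl
      simp only [e1, e2, mul_add, Finset.sum_add_distrib, Finset.mul_sum]
      have e4 : (x.1 : K →L[ℂ] K) * (a * (y.1 : K →L[ℂ] K)) =
          (x.1 : K →L[ℂ] K) * a * (y.1 : K →L[ℂ] K) := by rw [mul_assoc]
      rw [e4]
      have e5 : ∑ j, ∑ k, y.2 j * (x.2 k * sp (cf k) (sp (cf j) (T Ω l 1) (T Ω l a)) (T Ω l 1) L) =
          ∑ k, ∑ j, x.2 k * (y.2 j * sp (cf k) (sp (cf j) (T Ω l 1) (T Ω l a)) (T Ω l 1) L) := by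
        rw [Finset.sum_comm]
        apply Finset.sum_congr rfl
        intro k _
        apply Finset.sum_congr rfl
        intro j _
        ring
      rw [e5]
      have e6 : ∑ j, y.2 j * (x.2 j * T Ω l 1 L * tau Ω a) =
          ∑ j, x.2 j * (y.2 j * tau Ω a * T Ω l 1 L) := by
        apply Finset.sum_congr rfl
        intro k _
        ring
      rw [e6]
      ring

theorem T_rot (x : A × (I → ℂ)) (L : List (A × (I → ℂ))) :
    T Ω l 1 (L ++ [x]) = T Ω l 1 (x :: L) := by
  rw [T_snoc F x L.length L le_rfl 1 A.one_mem, T_cons F 1 A.one_mem]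
  simp

theorem T_comm (L L' : List (A × (I → ℂ))) :
    T Ω l 1 (L ++ L') = T Ω l 1 (L' ++ L) := by
  induction L generalizing L' with
  | nil => simp
  | cons x L ih =>
    have h1 := T_rot F x (L ++ L')
    rw [List.cons_append, ← h1, List.append_assoc, ih]
    simp

end Pool.Agent.TH254.FC
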