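import Mathlib
import Pool.Agent.TH254.FC.Calc2

set_option autoImplicit false
set_option linter.unusedSectionVars false
set_option linter.deprecated false

open scoped InnerProductSpace

namespace Pool.Agent.TH254.FC

variable {K : Type*} [NormedAddCommGroup K] [InnerProductSpace ℂ K] [CompleteSpace K]
variable {I : Type*} [Fintype I] [DecidableEq I]
variable {A : Subalgebra ℂ (K →L[ℂ] K)} {Ω : K} {l : I → K →L[ℂ] K}
variable (F : Fock A Ω l)
include F

/-- the conjugate variable relation for an element of the commutative algebra, relative to the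
semicircular elements -/
theorem dagger (y q g : K →L[ℂ] K) (hy : y ∈ A) (hq : q ∈ A) (hg : g ∈ A)
    (hb : ∀ m : ℕ, tau Ω (g * y ^ m) = ∑ k ∈ Finset.range m,
      (tau Ω (y ^ k) * tau Ω (y ^ (m - 1 - k)) -
        tau Ω (q * y ^ k) * tau Ω (q * y ^ (m - 1 - k))))
    (β : A × (I → ℂ) → ℂ) (n : ℕ) :
    ∀ L : List (A × (I → ℂ)), L.length ≤ n → (∀ x ∈ L, (x.1 : K →L[ℂ] K) = β x • y) → ∀ m : ℕ,
    T Ω l (g * y ^ m) L = ∑ k ∈ Finset.range m,
      (tau Ω (y ^ k) * T Ω l (y ^ (m - 1 - k)) L -
        tau Ω (q * y ^ k) * T Ω l (q * y ^ (m - 1 - k)) L) +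
      (sp β (T Ω l (y ^ m)) (T Ω l 1) L - sp β (T Ω l (q * y ^ m)) (T Ω l q) L) := by
  have hym : ∀ m : ℕ, y ^ m ∈ A := fun m => A.pow_mem hy m
  have hgm : ∀ m : ℕ, g * y ^ m ∈ A := fun m => A.mul_mem hg (hym m)
  have hqm : ∀ m : ℕ, q * y ^ m ∈ A := fun m => A.mul_mem hq (hym m)
  induction n using Nat.strong_induction_on with
  | _ n ih =>
    intro L hL hx m
    rcases L with _ | ⟨x, L⟩
    · simp only [T_nil, sp_nil, sub_zero, add_zero]
      exact hb m
    · have hL' : L.length < n := by simpa using hL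
      have hx1 : (x.1 : K →L[ℂ] K) = β x • y := hx x List.mem_cons_self
      have hx' : ∀ x ∈ L, (x.1 : K →L[ℂ] K) = β x • y :=
        fun z hz => hx z (List.mem_cons_of_mem _ hz)
      have smulT : ∀ (c : ℂ) (a : K →L[ℂ] K) (M : List (A × (I → ℂ))),
          T Ω l (c • a) M = c * T Ω l a M := by
        intro c a M
        simp [T]
      -- the recursion for words in `y` times a fixed element
      have hrec : ∀ a ∈ A, ∀ m : ℕ, ∀ M, T Ω l (a * y ^ m) (x :: M) =
          β x * T Ω l (a * y ^ (m + 1)) M +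
          ∑ j, x.2 j * sp (cf j) (T Ω l 1) (T Ω l (a * y ^ m)) M := by
        intro a ha m M
        rw [T_cons F _ (A.mul_mem ha (hym m)), hx1, mul_smul_comm, smulT, mul_assoc, ← pow_succ]
      have rec1 : ∀ m : ℕ, ∀ M, T Ω l (y ^ m) (x :: M) =
          β x * T Ω l (y ^ (m + 1)) M +
          ∑ j, x.2 j * sp (cf j) (T Ω l 1) (T Ω l (y ^ m)) M := by
        intro m M
        have := hrec 1 A.one_mem m M
        simpa using this
      have recq : ∀ M, T Ω l q (x :: M) = β x * T Ω l (q * y) M +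
          ∑ j, x.2 j * sp (cf j) (T Ω l 1) (T Ω l q) M := by
        intro M
        have := hrec q hq 0 M
        simpa using this
      rw [hrec g hg m L, ih L.length hL' L le_rfl hx' (m + 1)]
      -- expand the inner splits by the induction hypothesis
      have e1 : ∀ j, sp (cf j) (T Ω l 1) (T Ω l (g * y ^ m)) L =
          ∑ k ∈ Finset.range m,
            (tau Ω (y ^ k) * sp (cf j) (T Ω l 1) (T Ω l (y ^ (m - 1 - k))) L -
            tau Ω (q * y ^ k) * sp (cf j) (T Ω l 1) (T Ω l (q * y ^ (m - 1 - k))) L) +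
          (sp β (sp (cf j) (T Ω l 1) (T Ω l (y ^ m))) (T Ω l 1) L -
            sp β (sp (cf j) (T Ω l 1) (T Ω l (q * y ^ m))) (T Ω l q) L) := by
        intro j
        have h3 : sp (cf j) (T Ω l 1) (T Ω l (g * y ^ m)) L =
            sp (cf j) (T Ω l 1) (fun M => ∑ k ∈ Finset.range m,
              (tau Ω (y ^ k) * T Ω l (y ^ (m - 1 - k)) M +
                (-(tau Ω (q * y ^ k))) * T Ω l (q * y ^ (m - 1 - k)) M) +
              (sp β (T Ω l (y ^ m)) (T Ω l 1) M +
                (-1) * sp β (T Ω l (q * y ^ m)) (T Ω l q) M)) L := by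
          apply sp_congr
          · intro M _ _; rfl
          · intro M hMm hM
            rw [ih M.length (by omega) M le_rfl (fun z hz => hx' z (hMm z hz)) m]
            congr 1
            · apply Finset.sum_congr rfl
              intro k _
              ring
            · ring
        rw [h3, sp_add_right, sp_sum_right, sp_add_right]
        congr 1
        · apply Finset.sum_congr rfl
          intro k _
          rw [sp_add_right]
          have h4 := sp_smul_right (tau Ω (y ^ k)) (cf j) (T Ω l 1) (T Ω l (y ^ (m - 1 - k))) L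
          have h5 := sp_smul_right (-(tau Ω (q * y ^ k))) (cf j) (T Ω l 1)
            (T Ω l (q * y ^ (m - 1 - k))) L
          simp only [smul_eq_mul] at h4 h5
          rw [h4, h5]
          ring
        · have h5 := sp_smul_right (-1) (cf j) (T Ω l 1)
            (sp β (T Ω l (q * y ^ m)) (T Ω l q)) L
          simp only [smul_eq_mul] at h5
          rw [h5, sp_assoc, sp_assoc]
          ring
      simp only [e1]
      -- expand the right hand side
      rw [sp_cons, sp_cons, T_nil, T_nil]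
      have e2 : sp β (fun M => T Ω l (y ^ m) (x :: M)) (T Ω l 1) L =
          β x * sp β (T Ω l (y ^ (m + 1))) (T Ω l 1) L +
          ∑ j, x.2 j * sp β (sp (cf j) (T Ω l 1) (T Ω l (y ^ m))) (T Ω l 1) L := by
        have : (fun M => T Ω l (y ^ m) (x :: M)) = fun M => β x * T Ω l (y ^ (m + 1)) M +
          ∑ j, x.2 j * sp (cf j) (T Ω l 1) (T Ω l (y ^ m)) M := by
          funext M; exact rec1 m M
        rw [this, sp_add_left, sp_sum_left, sp_smul_left]
        simp only [sp_smul_left, smul_eq_mul]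
      have e3 : sp β (fun M => T Ω l (q * y ^ m) (x :: M)) (T Ω l q) L =
          β x * sp β (T Ω l (q * y ^ (m + 1))) (T Ω l q) L +
          ∑ j, x.2 j * sp β (sp (cf j) (T Ω l 1) (T Ω l (q * y ^ m))) (T Ω l q) L := by
        have : (fun M => T Ω l (q * y ^ m) (x :: M)) = fun M => β x * T Ω l (q * y ^ (m + 1)) M +
          ∑ j, x.2 j * sp (cf j) (T Ω l 1) (T Ω l (q * y ^ m)) M := by
          funext M; exact hrec q hq m M
        rw [this, sp_add_left, sp_sum_left, sp_smul_left]
        simp only [sp_smul_left, smul_eq_mul]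
      rw [e2, e3, Finset.sum_range_succ]
      have e4 : ∀ k ∈ Finset.range m,
          (tau Ω (y ^ k) * T Ω l (y ^ (m - 1 - k)) (x :: L) -
            tau Ω (q * y ^ k) * T Ω l (q * y ^ (m - 1 - k)) (x :: L)) =
          β x * (tau Ω (y ^ k) * T Ω l (y ^ (m + 1 - 1 - k)) L -
            tau Ω (q * y ^ k) * T Ω l (q * y ^ (m + 1 - 1 - k)) L) +
          ∑ j, x.2 j * (tau Ω (y ^ k) * sp (cf j) (T Ω l 1) (T Ω l (y ^ (m - 1 - k))) L -
            tau Ω (q * y ^ k) * sp (cf j) (T Ω l 1) (T Ω l (q * y ^ (m - 1 - k))) L) := by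
        intro k hk
        have hk' : m - 1 - k + 1 = m + 1 - 1 - k := by
          have := Finset.mem_range.1 hk
          omega
        rw [rec1, hrec q hq, hk', mul_add, mul_add, Finset.mul_sum, Finset.mul_sum]
        have : ∑ j, x.2 j * (tau Ω (y ^ k) * sp (cf j) (T Ω l 1) (T Ω l (y ^ (m - 1 - k))) L -
            tau Ω (q * y ^ k) * sp (cf j) (T Ω l 1) (T Ω l (q * y ^ (m - 1 - k))) L) =
            ∑ j, tau Ω (y ^ k) * (x.2 j * sp (cf j) (T Ω l 1) (T Ω l (y ^ (m - 1 - k))) L) -
            ∑ j, tau Ω (q * y ^ k) *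
              (x.2 j * sp (cf j) (T Ω l 1) (T Ω l (q * y ^ (m - 1 - k))) L) := by
          rw [← Finset.sum_sub_distrib]
          apply Finset.sum_congr rfl
          intro j _
          ring
        rw [this]
        ring
      rw [Finset.sum_congr rfl e4, Finset.sum_add_distrib, ← Finset.mul_sum]
      have e5 : ∑ k ∈ Finset.range m, ∑ j, x.2 j *
            (tau Ω (y ^ k) * sp (cf j) (T Ω l 1) (T Ω l (y ^ (m - 1 - k))) L -
            tau Ω (q * y ^ k) * sp (cf j) (T Ω l 1) (T Ω l (q * y ^ (m - 1 - k))) L) =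
          ∑ j, x.2 j * ∑ k ∈ Finset.range m,
            (tau Ω (y ^ k) * sp (cf j) (T Ω l 1) (T Ω l (y ^ (m - 1 - k))) L -
            tau Ω (q * y ^ k) * sp (cf j) (T Ω l 1) (T Ω l (q * y ^ (m - 1 - k))) L) := by
        rw [Finset.sum_comm]
        apply Finset.sum_congr rfl
        intro j _
        rw [Finset.mul_sum]
      rw [e5]
      simp only [mul_add, mul_sub, Finset.sum_add_distrib, Finset.sum_sub_distrib, smul_eq_mul]
      have e6 : m + 1 - 1 - m = 0 := by omega
      rw [e6]
      simp only [pow_zero, mul_one]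
      ring

/-- the simple case without powers in front -/
theorem dagger' (y q g : K →L[ℂ] K) (hy : y ∈ A) (hq : q ∈ A) (hg : g ∈ A)
    (hb : ∀ m : ℕ, tau Ω (g * y ^ m) = ∑ k ∈ Finset.range m,
      (tau Ω (y ^ k) * tau Ω (y ^ (m - 1 - k)) -
        tau Ω (q * y ^ k) * tau Ω (q * y ^ (m - 1 - k))))
    (β : A × (I → ℂ) → ℂ) (L : List (A × (I → ℂ)))
    (hL : ∀ x ∈ L, (x.1 : K →L[ℂ] K) = β x • y) :
    T Ω l g L = sp β (T Ω l 1) (T Ω l 1) L - sp β (T Ω l q) (T Ω l q) L := by
  have := dagger F y q g hy hq hg hb β L.length L le_rfl hL 0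
  simpa using this

/-- the letter of an element of the algebra -/
def lt (a : A) : A × (I → ℂ) := (a, 0)

/-- the letter of a semicircular element -/
def ls (i : I) : A × (I → ℂ) := (0, Pi.single i 1)

theorem op_lt (a : A) : op l (lt a : A × (I → ℂ)) = a := by
  simp [op, lt]

theorem op_ls (i : I) : op l (ls i : A × (I → ℂ)) = l i + star (l i) := by
  have h1 : ∀ j, (Pi.single (M := fun _ : I => ℂ) i 1) j • (l j + star (l j)) =
      if j = i then l i + star (l i) else 0 := by
    intro j
    by_cases h : j = i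
    · subst h; simp
    · rw [Pi.single_apply, if_neg h, if_neg h, zero_smul]
  rw [op]
  simp only [ls, ZeroMemClass.coe_zero, zero_add, h1]
  rw [Finset.sum_ite_eq' Finset.univ i (fun _ => l i + star (l i)), if_pos (Finset.mem_univ _)]

theorem cf_lt (j : I) (a : A) : cf j (lt a : A × (I → ℂ)) = 0 := rfl

theorem T_lt (a : A) (L : List (A × (I → ℂ))) : T Ω l 1 (lt a :: L) = T Ω l a L := by
  simp [T, pr_cons, op_lt F]

/-- Schwinger-Dyson equation -/
theorem T_ls (i : I) (L : List (A × (I → ℂ))) :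
    T Ω l 1 (ls i :: L) = sp (cf i) (T Ω l 1) (T Ω l 1) L := by
  rw [T_cons F 1 A.one_mem]
  have h0 : T Ω l (1 * ((ls i : A × (I → ℂ)).1 : K →L[ℂ] K)) L = 0 := by
    simp [T, ls]
  rw [h0, zero_add]
  have h1 : ∀ j, (ls i : A × (I → ℂ)).2 j * sp (cf j) (T Ω l 1) (T Ω l 1) L =
      if j = i then sp (cf i) (T Ω l 1) (T Ω l 1) L else 0 := by
    intro j
    by_cases h : j = i
    · subst h; simp [ls]
    · simp [ls, h]
  simp only [h1]
  rw [Finset.sum_ite_eq' Finset.univ i, if_pos (Finset.mem_univ _)]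

/-- the element `q s q` -/
theorem T_qsq (i : I) (q : A) (L : List (A × (I → ℂ))) :
    T Ω l 1 (lt q :: ls i :: lt q :: L) = sp (cf i) (T Ω l q) (T Ω l q) L := by
  rw [T_lt F, T_cons F (q : K →L[ℂ] K) q.2]
  have h0 : T Ω l ((q : K →L[ℂ] K) * ((ls i : A × (I → ℂ)).1 : K →L[ℂ] K)) (lt q :: L) = 0 := by
    simp [T, ls]
  rw [h0, zero_add]
  have h1 : ∀ j, (ls i : A × (I → ℂ)).2 j * sp (cf j) (T Ω l 1) (T Ω l q) (lt q :: L) =
      if j = i then sp (cf i) (T Ω l 1) (T Ω l q) (lt q :: L) else 0 := by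
    intro j
    by_cases h : j = i
    · subst h; simp [ls]
    · simp [ls, h]
  simp only [h1]
  rw [Finset.sum_ite_eq' Finset.univ i, if_pos (Finset.mem_univ _), sp_cons, cf_lt F]
  simp only [T_lt F, zero_mul, zero_smul, zero_add]

end Pool.Agent.TH254.FC
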