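import Mathlib
import Pool.Agent.TH254.FC.Calc3
import Pool.Agent.TH254.FC.Defs

set_option autoImplicit false
set_option linter.unusedSectionVars false
set_option linter.deprecated false

open scoped InnerProductSpace

namespace Pool.Agent.TH254.FC

section Rep
variable {V N : Type*} [AddCommGroup N] [Module ℂ N]

theorem sp_replicate (c : V → ℂ) (Φ : List V → ℂ) (Ψ : List V → N) (x : V) (m : ℕ) :
    sp c Φ Ψ (List.replicate m x) = ∑ k ∈ Finset.range m,
      (c x * Φ (List.replicate k x)) • Ψ (List.replicate (m - 1 - k) x) := by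
  induction m generalizing Φ with
  | zero => simp
  | succ m ih =>
    rw [List.replicate_succ, sp_cons, ih, Finset.sum_range_succ']
    rw [add_comm]
    congr 1
    apply Finset.sum_congr rfl
    intro k _
    rw [← List.replicate_succ]
    congr 3
    omega

end Rep

variable {K : Type*} [NormedAddCommGroup K] [InnerProductSpace ℂ K] [CompleteSpace K]
variable {I : Type*} [Fintype I] [DecidableEq I]
variable {A : Subalgebra ℂ (K →L[ℂ] K)} {Ω : K} {l : I → K →L[ℂ] K}
variable (F : Fock A Ω l)
include F

/-- the semicircular elements -/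
theorem pr_replicate_ls (i : I) (m : ℕ) :
    pr l (List.replicate m (ls i : A × (I → ℂ))) = (l i + star (l i)) ^ m := by
  simp [pr, op_ls F]

theorem mom_rec (i : I) (m : ℕ) : tau Ω ((l i + star (l i)) ^ (m + 1)) =
    ∑ k ∈ Finset.range m, tau Ω ((l i + star (l i)) ^ k) * tau Ω ((l i + star (l i)) ^ (m - 1 - k)) := by
  have h : ∀ m, tau Ω ((l i + star (l i)) ^ m) =
      T Ω l 1 (List.replicate m (ls i : A × (I → ℂ))) := by
    intro m
    rw [T, pr_replicate_ls F]; simp [tau]
  rw [h, List.replicate_succ, T_ls F, sp_replicate]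
  apply Finset.sum_congr rfl
  intro k _
  rw [h, h]
  simp [cf, ls]

theorem sum_even (f : ℕ → ℂ) (hf : ∀ k, f (2 * k + 1) = 0) (n : ℕ) :
    ∑ k ∈ Finset.range (2 * n + 1), f k = ∑ i ∈ Finset.range (n + 1), f (2 * i) := by
  induction n with
  | zero => simp
  | succ n ih =>
    rw [show 2 * (n + 1) + 1 = (2 * n + 1) + 1 + 1 by ring, Finset.sum_range_succ,
      Finset.sum_range_succ, ih, hf n, Finset.sum_range_succ _ (n + 1)]
    rw [show 2 * n + 1 + 1 = 2 * (n + 1) by ring]
    ring

theorem moments (i : I) (n : ℕ) : tau Ω ((l i + star (l i)) ^ (2 * n)) = (catalan n : ℂ) ∧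
    tau Ω ((l i + star (l i)) ^ (2 * n + 1)) = 0 := by
  induction n using Nat.strong_induction_on with
  | _ n ih =>
    have h1 : tau Ω ((l i + star (l i)) ^ (2 * n)) = (catalan n : ℂ) := by
      rcases n with _ | n
      · simp [tau, F.norm]
      · rw [show 2 * (n + 1) = (2 * n + 1) + 1 by ring, mom_rec F i]
        have h2 : ∀ k ∈ Finset.range (2 * n + 1), tau Ω ((l i + star (l i)) ^ k) *
            tau Ω ((l i + star (l i)) ^ (2 * n + 1 - 1 - k)) =
            (fun k => if k % 2 = 0 then (catalan (k / 2) : ℂ) * (catalan (n - k / 2) : ℂ) else 0) k := by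
          intro k hk
          have hk' := Finset.mem_range.1 hk
          rcases Nat.even_or_odd' k with ⟨j, rfl | rfl⟩
          · have e1 : 2 * n + 1 - 1 - 2 * j = 2 * (n - j) := by omega
            rw [e1, (ih j (by omega)).1, (ih (n - j) (by omega)).1]
            simp
          · rw [(ih j (by omega)).2]
            simp only [zero_mul]
            rw [if_neg (by omega)]
        rw [Finset.sum_congr rfl h2, sum_even F _ (by intro k; rw [if_neg (by omega)]),
          catalan_succ]
        push_cast
        rw [← Fin.sum_univ_eq_sum_range (fun i => (fun k => if k % 2 = 0 then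
          (catalan (k / 2) : ℂ) * (catalan (n - k / 2) : ℂ) else 0) (2 * i)) (n + 1)]
        apply Finset.sum_congr rfl
        intro k _
        simp
    refine ⟨h1, ?_⟩
    rw [mom_rec F i]
    apply Finset.sum_eq_zero
    intro k hk
    have hk' := Finset.mem_range.1 hk
    rcases Nat.even_or_odd' k with ⟨j, rfl | rfl⟩
    · have e1 : 2 * n - 1 - 2 * j = 2 * (n - 1 - j) + 1 := by omega
      rw [e1, (ih (n - 1 - j) (by omega)).2, mul_zero]
    · rw [(ih j (by omega)).2, zero_mul]

/-! ### freeness -/

/-- adjoint letters -/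
noncomputable def bar (hA : ∀ a ∈ A, star a ∈ A) (x : A × (I → ℂ)) : A × (I → ℂ) :=
  (⟨star (x.1 : K →L[ℂ] K), hA _ x.1.2⟩, fun j => starRingEnd ℂ (x.2 j))

theorem op_bar (x : A × (I → ℂ)) : op l (bar F.st x) = star (op l x) := by
  simp only [op, bar, star_add, star_sum, star_smul, star_star]
  congr 1
  apply Finset.sum_congr rfl
  intro j _
  rw [add_comm (star (l j))]
  rfl

theorem star_pr (L : List (A × (I → ℂ))) :
    star (pr l L) = pr l ((L.map (bar F.st)).reverse) := by
  induction L with
  | nil => simp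
  | cons x L ih =>
    rw [pr_cons, star_mul, List.map_cons, List.reverse_cons, pr_append, ih, pr_cons, op_bar F]
    simp

/-- the span of the words in letters satisfying a condition -/
noncomputable def Wd (l : I → K →L[ℂ] K) (P : A × (I → ℂ) → Prop) : Submodule ℂ (K →L[ℂ] K) :=
  Submodule.span ℂ {b | ∃ L : List (A × (I → ℂ)), (∀ x ∈ L, P x) ∧ b = pr l L}

theorem Wd_star (J : Set I) (b : K →L[ℂ] K)
    (hb : b ∈ Wd l (fun x : A × (I → ℂ) => ∀ j ∈ J, x.2 j = 0)) :
    star b ∈ Wd l (fun x : A × (I → ℂ) => ∀ j ∈ J, x.2 j = 0) := by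
  induction hb using Submodule.span_induction with
  | mem b hb =>
    obtain ⟨L, hL, rfl⟩ := hb
    refine Submodule.subset_span ⟨(L.map (bar F.st)).reverse, ?_, star_pr F L⟩
    intro x hx j hj
    simp only [List.mem_reverse, List.mem_map] at hx
    obtain ⟨z, hz, rfl⟩ := hx
    simp [bar, hL z hz j hj]
  | zero => simp
  | add x y _ _ hx hy => rw [star_add]; exact Submodule.add_mem _ hx hy
  | smul c x _ hx => rw [star_smul]; exact Submodule.smul_mem _ _ hx

theorem Wd_compress (J : Set I) (b : K →L[ℂ] K)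
    (hb : b ∈ Wd l (fun x : A × (I → ℂ) => ∀ j ∈ J, x.2 j = 0)) (i j : I) (hi : i ∈ J)
    (hj : j ∈ J) (v : K) : star (l i) (b (l j v)) = if i = j then tau Ω b • v else 0 := by
  induction hb using Submodule.span_induction with
  | mem b hb =>
    obtain ⟨L, hL, rfl⟩ := hb
    split_ifs with hij
    · subst hij
      have := compress F L i (fun x hx => hL x hx i hi) 1 A.one_mem v
      simpa [T, tau] using this
    · have := compress_ne F L i j hij (fun x hx => hL x hx i hi) (fun x hx => hL x hx j hj) 1
        A.one_mem v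
      simpa using this
  | zero => simp [tau]
  | add x y _ _ hx hy =>
    rw [ContinuousLinearMap.add_apply, map_add, hx, hy]
    split_ifs
    · simp [tau, add_smul]
    · simp
  | smul c x _ hx =>
    rw [ContinuousLinearMap.smul_apply, map_smul, hx]
    split_ifs
    · simp [tau, smul_smul]
    · simp

theorem Wd_annih (J : Set I) (b : K →L[ℂ] K)
    (hb : b ∈ Wd l (fun x : A × (I → ℂ) => ∀ j ∈ J, x.2 j = 0)) (i : I) (hi : i ∈ J) :
    star (l i) (b Ω) = 0 := by
  induction hb using Submodule.span_induction with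
  | mem b hb =>
    obtain ⟨L, hL, rfl⟩ := hb
    have := annih_zero F L i (fun x hx => hL x hx i hi) 1 A.one_mem
    simpa using this
  | zero => simp
  | add x y _ _ hx hy => rw [ContinuousLinearMap.add_apply, map_add, hx, hy, add_zero]
  | smul c x _ hx => rw [ContinuousLinearMap.smul_apply, map_smul, hx, smul_zero]

theorem isom (i : I) (v : K) : star (l i) (l i v) = v := by
  have := F.r1 1 A.one_mem i i v
  simpa [tau, F.norm] using this

theorem orth (i j : I) (hij : i ≠ j) (v : K) : star (l i) (l j v) = 0 := by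
  have := F.r1 1 A.one_mem i j v
  simpa [hij] using this

theorem ann_vac (i : I) : star (l i) Ω = 0 := by
  have := F.r2 1 A.one_mem i
  simpa using this

theorem inner_vac (i : I) (v : K) : ⟪Ω, l i v⟫_ℂ = 0 := by
  rw [← ContinuousLinearMap.adjoint_inner_left, ← ContinuousLinearMap.star_eq_adjoint,
    ann_vac F, inner_zero_left]

open Polynomial in
/-- the action of polynomials in a semicircular element on vectors killed by the annihilation
operator -/
theorem cheb (i : I) (a : K →L[ℂ] K) (ha : a ∈ Algebra.adjoin ℂ {l i + star (l i)}) :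
    ∃ Q : ℂ[X], ∀ v : K, star (l i) v = 0 → a v = aeval (l i) Q v := by
  rw [Algebra.adjoin_singleton_eq_range_aeval] at ha
  obtain ⟨p, rfl⟩ := ha
  induction p using Polynomial.induction_on' with
  | add p q hp hq =>
    obtain ⟨Q1, h1⟩ := hp
    obtain ⟨Q2, h2⟩ := hq
    refine ⟨Q1 + Q2, fun v hv => ?_⟩
    simp only [AlgHom.toRingHom_eq_coe, RingHom.coe_coe, map_add,
      ContinuousLinearMap.add_apply] at h1 h2 ⊢
    rw [h1 v hv, h2 v hv]
  | monomial n c =>
    have key : ∃ Q : ℂ[X], ∀ v : K, star (l i) v = 0 →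
        ((l i + star (l i)) ^ n) v = aeval (l i) Q v := by
      induction n with
      | zero => exact ⟨1, fun v _ => by simp⟩
      | succ n ih =>
        obtain ⟨Q, hQ⟩ := ih
        refine ⟨X * Q + Q.divX, fun v hv => ?_⟩
        rw [pow_succ', ContinuousLinearMap.mul_apply, hQ v hv, ContinuousLinearMap.add_apply]
        have h3 : aeval (l i) Q v = l i (aeval (l i) Q.divX v) + Q.coeff 0 • v := by
          conv_lhs => rw [← Q.divX_mul_X_add, map_add, mul_comm, map_mul, aeval_X, aeval_C]
          simp [Algebra.algebraMap_eq_smul_one]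
        rw [map_add (aeval (l i)), map_mul, aeval_X, ContinuousLinearMap.add_apply,
          ContinuousLinearMap.mul_apply]
        congr 1
        rw [h3, map_add, isom F, map_smul, hv, smul_zero, add_zero]
    obtain ⟨Q, hQ⟩ := key
    refine ⟨C c * Q, fun v hv => ?_⟩
    simp only [AlgHom.toRingHom_eq_coe, RingHom.coe_coe]
    rw [← C_mul_X_pow_eq_monomial, map_mul, aeval_C, map_pow, aeval_X, map_mul, aeval_C,
      ContinuousLinearMap.mul_apply, ContinuousLinearMap.mul_apply, hQ v hv]

open Polynomial in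
theorem cheb_range (i : I) (a : K →L[ℂ] K) (ha : a ∈ Algebra.adjoin ℂ {l i + star (l i)})
    (h0 : ⟪Ω, a Ω⟫_ℂ = 0) (v : K) (hv : star (l i) v = 0) : ∃ w, a v = l i w := by
  obtain ⟨Q, hQ⟩ := cheb F i a ha
  have h3 : ∀ v, aeval (l i) Q v = l i (aeval (l i) Q.divX v) + Q.coeff 0 • v := by
    intro v
    conv_lhs => rw [← Q.divX_mul_X_add, map_add, mul_comm, map_mul, aeval_X, aeval_C]
    simp [Algebra.algebraMap_eq_smul_one]
  rw [hQ Ω (ann_vac F i), h3, inner_add_right, inner_vac F, inner_smul_right,
    inner_self_eq_norm_sq_to_K, F.norm, zero_add] at h0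
  have h4 : Q.coeff 0 = 0 := by simpa using h0
  exact ⟨aeval (l i) Q.divX v, by rw [hQ v hv, h3, h4, zero_smul, add_zero]⟩

/-- freeness of an algebra of words in the other letters from the semicircular elements -/
theorem freeness {n : ℕ} (e : Fin n → I) (he : Function.Injective e)
    (B : Subalgebra ℂ (K →L[ℂ] K))
    (hB : ∀ b ∈ B, b ∈ Wd l (fun x : A × (I → ℂ) => ∀ j ∈ Set.range e, x.2 j = 0))
    (L : List (Option (Fin n) × (K →L[ℂ] K))) (hc : (L.map Prod.fst).IsChain (· ≠ ·))
    (hL : ∀ p ∈ L, p.2 ∈ (p.1.elim B (fun i => Algebra.adjoin ℂ {l (e i) + star (l (e i))})) ∧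
      ⟪Ω, p.2 Ω⟫_ℂ = 0) :
    (∀ j : Fin n, (L.map Prod.fst).head? ≠ some (some j) →
      star (l (e j)) ((L.map Prod.snd).prod Ω) = 0) ∧
    ((L.map Prod.fst).head? ≠ some none →
      ((L.map Prod.snd).prod Ω = Ω ∨ ∃ j w, (L.map Prod.snd).prod Ω = l (e j) w)) ∧
    (L ≠ [] → ⟪Ω, (L.map Prod.snd).prod Ω⟫_ℂ = 0) := by
  induction L with
  | nil =>
    refine ⟨fun j _ => by simp [ann_vac F], fun _ => Or.inl (by simp), fun h => absurd rfl h⟩
  | cons p L ih =>
    have hc' : (L.map Prod.fst).IsChain (· ≠ ·) := by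
      rw [List.map_cons] at hc
      exact hc.tail
    have hL' := fun p hp => hL p (List.mem_cons_of_mem _ hp)
    obtain ⟨h1, h2, _⟩ := ih hc' hL'
    obtain ⟨hp, hp0⟩ := hL p List.mem_cons_self
    have hne : (L.map Prod.fst).head? ≠ some p.1 := by
      rw [List.map_cons] at hc
      rcases hL2 : L.map Prod.fst with _ | ⟨q, M⟩
      · simp
      · rw [hL2] at hc
        have := (List.isChain_cons_cons.1 hc).1
        simp only [List.head?_cons, ne_eq, Option.some.injEq]
        exact fun h => this h.symm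
    rw [List.map_cons, List.map_cons, List.prod_cons, ContinuousLinearMap.mul_apply]
    simp only [List.head?_cons, ne_eq, Option.some.injEq]
    rcases hp1 : p.1 with _ | i
    · rw [hp1] at hp hne
      have hbB : p.2 ∈ B := hp
      have hW := hB _ hbB
      have hr := h2 hne
      refine ⟨fun j _ => ?_, fun h => absurd rfl h, fun _ => ?_⟩
      · rcases hr with hr | ⟨k, w, hr⟩
        · rw [hr]
          exact Wd_annih F _ _ hW _ ⟨j, rfl⟩
        · rw [hr, Wd_compress F _ _ hW _ _ ⟨j, rfl⟩ ⟨k, rfl⟩]
          have : tau Ω p.2 = 0 := hp0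
          simp [this]
      · rcases hr with hr | ⟨k, w, hr⟩
        · rw [hr]; exact hp0
        · rw [hr, ← ContinuousLinearMap.adjoint_inner_left, ← ContinuousLinearMap.star_eq_adjoint,
            ← ContinuousLinearMap.adjoint_inner_left, ← ContinuousLinearMap.star_eq_adjoint,
            Wd_annih F _ _ (Wd_star F _ _ hW) _ ⟨k, rfl⟩, inner_zero_left]
    · rw [hp1] at hp hne
      have hv := h1 i hne
      obtain ⟨w, hw⟩ := cheb_range F (e i) p.2 hp hp0 _ hv
      rw [hw]
      refine ⟨fun j hj => ?_, fun _ => Or.inr ⟨i, w, rfl⟩, fun _ => inner_vac F _ _⟩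
      exact orth F _ _ (fun h => hj (by rw [he h])) w

end Pool.Agent.TH254.FC
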