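import Mathlib
import Pool.Agent.TH254.FC.Calc

set_option autoImplicit false
set_option linter.unusedSectionVars false
set_option linter.deprecated false

/-! The Fock space model over an algebra of operators on a Hilbert space `E` with unit vector
`e0`: functions on the set of lists over `I × κ` with values in `E`, where `κ` indexes a Hilbert
basis of `E`. -/

open scoped InnerProductSpace ENNReal

namespace Pool.Agent.TH254.FM

open Pool.Agent.TH254.FC

variable {E : Type} [NormedAddCommGroup E] [InnerProductSpace ℂ E] [CompleteSpace E]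
variable {κ I : Type}

/-- the space of the model -/
abbrev KK (E κ I : Type) [NormedAddCommGroup E] : Type :=
  lp (fun _ : List (I × κ) => E) 2

theorem memlp_iff {N : Type} (f : N → E) : Memℓp f 2 ↔ Summable fun w => ‖f w‖ ^ 2 := by
  rw [memℓp_gen_iff (by norm_num)]
  simp

theorem summable_sq {N : Type} (f : lp (fun _ : N => E) 2) : Summable fun w => ‖f w‖ ^ 2 :=
  (memlp_iff _).1 (lp.memℓp f)

theorem norm_sq_eq {N : Type} (f : lp (fun _ : N => E) 2) : ‖f‖ ^ 2 = ∑' w, ‖f w‖ ^ 2 := by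
  have := lp.norm_rpow_eq_tsum (p := 2) (by norm_num) f
  simpa using this

/-- the amplification of an operator on `E` -/
noncomputable def lam (κ I : Type) (T : E →L[ℂ] E) : KK E κ I →L[ℂ] KK E κ I :=
  LinearMap.mkContinuous
    { toFun := fun f => ⟨fun w => T (f w), (memlp_iff _).2 (by
        refine Summable.of_nonneg_of_le (fun w => by positivity) (fun w => ?_)
          ((summable_sq f).mul_left (‖T‖ ^ 2))
        have := T.le_opNorm (f w)
        calc ‖T (f w)‖ ^ 2 ≤ (‖T‖ * ‖f w‖) ^ 2 := by gcongr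
          _ = ‖T‖ ^ 2 * ‖f w‖ ^ 2 := by ring)⟩
      map_add' := by
        intro f g
        ext w
        exact map_add T (f w) (g w)
      map_smul' := by
        intro c f
        ext w
        exact map_smul T c (f w) } ‖T‖ (by
      intro f
      apply (sq_le_sq₀ (norm_nonneg _) (by positivity)).1
      rw [norm_sq_eq, mul_pow, norm_sq_eq f, ← tsum_mul_left]
      refine Summable.tsum_le_tsum (fun w => ?_) ?_ ((summable_sq f).mul_left _)
      · have := T.le_opNorm (f w)
        calc ‖T (f w)‖ ^ 2 ≤ (‖T‖ * ‖f w‖) ^ 2 := by gcongr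
          _ = ‖T‖ ^ 2 * ‖f w‖ ^ 2 := by ring
      · exact summable_sq _)

theorem lam_apply (T : E →L[ℂ] E) (f : KK E κ I) (w : List (I × κ)) :
    lam κ I T f w = T (f w) := rfl

theorem lam_inner (T : E →L[ℂ] E) (f g : KK E κ I) :
    ⟪f, lam κ I T g⟫_ℂ = ⟪lam κ I (star T) f, g⟫_ℂ := by
  rw [lp.inner_eq_tsum, lp.inner_eq_tsum]
  apply tsum_congr
  intro w
  rw [lam_apply, lam_apply, ContinuousLinearMap.star_eq_adjoint,
    ContinuousLinearMap.adjoint_inner_left]

/-- the amplification as a homomorphism -/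
noncomputable def lamHom (κ I : Type) : (E →L[ℂ] E) →⋆ₐ[ℂ] (KK E κ I →L[ℂ] KK E κ I) where
  toFun := lam κ I
  map_one' := by ext f w; simp [lam_apply]
  map_mul' := by intro S T; ext f w; simp [lam_apply]
  map_zero' := by ext f w; simp [lam_apply]
  map_add' := by intro S T; ext f w; simp [lam_apply]
  commutes' := by intro r; ext f w; simp [lam_apply, Algebra.algebraMap_eq_smul_one]
  map_star' := by
    intro T
    rw [ContinuousLinearMap.star_eq_adjoint (lam κ I T), ContinuousLinearMap.eq_adjoint_iff]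
    intro f g
    exact (lam_inner T f g).symm

theorem parseval (b : HilbertBasis κ ℂ E) (x : E) :
    HasSum (fun k => ‖⟪b k, x⟫_ℂ‖ ^ 2) (‖x‖ ^ 2) := by
  have h := b.hasSum_inner_mul_inner x x
  have h2 := ((Complex.hasSum_iff _ _).1 h).1
  have e1 : ∀ k, (⟪x, b k⟫_ℂ * ⟪b k, x⟫_ℂ).re = ‖⟪b k, x⟫_ℂ‖ ^ 2 := by
    intro k
    rw [← inner_conj_symm x (b k), ← Complex.normSq_eq_conj_mul_self, Complex.ofReal_re,
      Complex.normSq_eq_norm_sq]
  have e2 : (⟪x, x⟫_ℂ).re = ‖x‖ ^ 2 := by
    rw [inner_self_eq_norm_sq_to_K]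
    norm_cast
  rw [e2] at h2
  simpa only [e1] using h2

theorem summable_coef (b : HilbertBasis κ ℂ E) (f : KK E κ I) :
    Summable fun p : List (I × κ) × κ => ‖⟪b p.2, f p.1⟫_ℂ‖ ^ 2 := by
  rw [summable_prod_of_nonneg (fun p => by positivity)]
  refine ⟨fun w => (parseval b (f w)).summable, ?_⟩
  simp only [(parseval b (f _)).tsum_eq]
  exact summable_sq f

/-- the injection of the index set given by prepending a letter -/
def inj (i : I) (p : List (I × κ) × κ) : List (I × κ) := (i, p.2) :: p.1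

theorem inj_injective (i : I) : Function.Injective (inj i : List (I × κ) × κ → List (I × κ)) := by
  rintro ⟨w, k⟩ ⟨w', k'⟩ h
  simp only [inj, List.cons.injEq, Prod.mk.injEq, true_and] at h
  simp [h.1, h.2]

variable [DecidableEq I]

/-- values of the creation operators -/
noncomputable def ellFun (b : HilbertBasis κ ℂ E) (e0 : E) (i : I) (f : KK E κ I) :
    List (I × κ) → E
  | [] => 0
  | p :: w => if p.1 = i then ⟪b p.2, f w⟫_ℂ • e0 else 0

theorem ellFun_inj (b : HilbertBasis κ ℂ E) (e0 : E) (i : I) (f : KK E κ I)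
    (p : List (I × κ) × κ) : ellFun b e0 i f (inj i p) = ⟪b p.2, f p.1⟫_ℂ • e0 := by
  simp [ellFun, inj]

theorem ellFun_not (b : HilbertBasis κ ℂ E) (e0 : E) (i : I) (f : KK E κ I)
    (w : List (I × κ)) (hw : w ∉ Set.range (inj i : List (I × κ) × κ → List (I × κ))) :
    ellFun b e0 i f w = 0 := by
  rcases w with _ | ⟨⟨j, k⟩, w⟩
  · rfl
  · simp only [ellFun]
    rw [if_neg]
    rintro rfl
    exact hw ⟨(w, k), rfl⟩

theorem ell_mem (b : HilbertBasis κ ℂ E) (e0 : E) (i : I) (f : KK E κ I) :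
    Memℓp (ellFun b e0 i f) 2 := by
  rw [memlp_iff, ← (inj_injective i).summable_iff]
  · have := (summable_coef b f).mul_right (‖e0‖ ^ 2)
    refine this.congr fun p => ?_
    simp only [Function.comp_apply, ellFun_inj, norm_smul, mul_pow]
  · intro w hw
    rw [ellFun_not b e0 i f w hw]
    simp

theorem ell_hasSum (b : HilbertBasis κ ℂ E) (e0 : E) (i : I) (f g : KK E κ I) (T : E →L[ℂ] E) :
    HasSum (fun w => ⟪ellFun b e0 i f w, T (ellFun b e0 i g w)⟫_ℂ)
      (⟪e0, T e0⟫_ℂ * ⟪f, g⟫_ℂ) := by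
  rw [← (inj_injective i).hasSum_iff]
  · have e1 : ((fun w => ⟪ellFun b e0 i f w, T (ellFun b e0 i g w)⟫_ℂ) ∘ inj i) =
        fun p : List (I × κ) × κ => ⟪e0, T e0⟫_ℂ * (⟪f p.1, b p.2⟫_ℂ * ⟪b p.2, g p.1⟫_ℂ) := by
      funext p
      simp only [Function.comp_apply, ellFun_inj, map_smul, inner_smul_left, inner_smul_right,
        inner_conj_symm]
      ring
    rw [e1]
    apply HasSum.mul_left
    have hs : Summable fun p : List (I × κ) × κ => ⟪f p.1, b p.2⟫_ℂ * ⟪b p.2, g p.1⟫_ℂ := by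
      apply Summable.of_norm
      refine Summable.of_nonneg_of_le (fun _ => norm_nonneg _) (fun p => ?_)
        ((summable_coef b f).add (summable_coef b g))
      rw [norm_mul, ← inner_conj_symm, RCLike.norm_conj]
      nlinarith [sq_nonneg (‖⟪b p.2, f p.1⟫_ℂ‖ - ‖⟪b p.2, g p.1⟫_ℂ‖),
        norm_nonneg ⟪b p.2, f p.1⟫_ℂ, norm_nonneg ⟪b p.2, g p.1⟫_ℂ]
    have h1 := hs.hasSum.prod_fiberwise (fun w => b.hasSum_inner_mul_inner (f w) (g w))
    have h2 := lp.hasSum_inner (𝕜 := ℂ) f g
    rw [← h1.unique h2]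
    exact hs.hasSum
  · intro w hw
    rw [ellFun_not b e0 i f w hw, inner_zero_left]

/-- the creation operators -/
noncomputable def ell (b : HilbertBasis κ ℂ E) (e0 : E) (i : I) :
    KK E κ I →L[ℂ] KK E κ I :=
  LinearMap.mkContinuous
    { toFun := fun f => ⟨ellFun b e0 i f, ell_mem b e0 i f⟩
      map_add' := by
        intro f g
        ext w
        show ellFun b e0 i (f + g) w = ellFun b e0 i f w + ellFun b e0 i g w
        rcases w with _ | ⟨p, w⟩
        · simp [ellFun]
        · simp only [ellFun, lp.coeFn_add, Pi.add_apply, inner_add_right]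
          split_ifs
          · rw [add_smul]
          · simp
      map_smul' := by
        intro c f
        ext w
        show ellFun b e0 i (c • f) w = c • ellFun b e0 i f w
        rcases w with _ | ⟨p, w⟩
        · simp [ellFun]
        · simp only [ellFun, lp.coeFn_smul, Pi.smul_apply, inner_smul_right]
          split_ifs
          · exact mul_smul _ _ _
          · simp } ‖e0‖ (by
      intro f
      apply (sq_le_sq₀ (norm_nonneg _) (by positivity)).1
      have h1 := ell_hasSum b e0 i f f 1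
      have h2 := ((Complex.hasSum_iff _ _).1 h1).1
      have e1 : ∀ w, (⟪ellFun b e0 i f w, (1 : E →L[ℂ] E) (ellFun b e0 i f w)⟫_ℂ).re =
          ‖ellFun b e0 i f w‖ ^ 2 := by
        intro w
        rw [ContinuousLinearMap.one_apply, inner_self_eq_norm_sq_to_K]
        norm_cast
      simp only [e1] at h2
      rw [norm_sq_eq]
      refine le_of_eq ?_
      refine (h2.tsum_eq).trans ?_
      rw [ContinuousLinearMap.one_apply, inner_self_eq_norm_sq_to_K, inner_self_eq_norm_sq_to_K]
      norm_cast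
      rw [← mul_pow]
      exact Complex.ofReal_re _)

theorem ell_apply (b : HilbertBasis κ ℂ E) (e0 : E) (i : I) (f : KK E κ I)
    (w : List (I × κ)) : ell b e0 i f w = ellFun b e0 i f w := rfl

/-- values of the vacuum vector -/
def vacFun (e0 : E) : List (I × κ) → E
  | [] => e0
  | _ :: _ => 0

omit [DecidableEq I] in
theorem vac_mem (e0 : E) : Memℓp (vacFun e0 : List (I × κ) → E) 2 := by
  rw [memlp_iff]
  refine (hasSum_single ([] : List (I × κ)) ?_).summable
  intro w hw
  rcases w with _ | ⟨p, w⟩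
  · exact absurd rfl hw
  · simp [vacFun]

/-- the vacuum vector -/
def vac (κ I : Type) (e0 : E) : KK E κ I := ⟨vacFun e0, vac_mem e0⟩

theorem vac_nil (e0 : E) : vac κ I e0 [] = e0 := rfl

theorem vac_cons (e0 : E) (p : I × κ) (w : List (I × κ)) : vac κ I e0 (p :: w) = 0 := rfl

theorem vac_inner (e0 : E) (f : KK E κ I) : ⟪f, vac κ I e0⟫_ℂ = ⟪f [], e0⟫_ℂ := by
  rw [lp.inner_eq_tsum, tsum_eq_single ([] : List (I × κ))]
  · rfl
  · intro w hw
    rcases w with _ | ⟨p, w⟩
    · exact absurd rfl hw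
    · rw [vac_cons, inner_zero_right]

theorem lam_vac (e0 : E) (T : E →L[ℂ] E) : lam κ I T (vac κ I e0) = vac κ I (T e0) := by
  ext w
  rcases w with _ | ⟨p, w⟩
  · rfl
  · show T 0 = 0
    exact map_zero T

theorem tau_lam (e0 : E) (T : E →L[ℂ] E) : tau (vac κ I e0) (lam κ I T) = ⟪e0, T e0⟫_ℂ := by
  rw [tau, lam_vac, vac_inner]
  rfl

theorem ell_r1 (b : HilbertBasis κ ℂ E) (e0 : E) (T : E →L[ℂ] E) (i j : I) (v : KK E κ I) :
    star (ell b e0 i) (lam κ I T (ell b e0 j v)) =
      if i = j then tau (vac κ I e0) (lam κ I T) • v else 0 := by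
  apply ext_inner_left ℂ
  intro u
  rw [ContinuousLinearMap.star_eq_adjoint, ContinuousLinearMap.adjoint_inner_right,
    lp.inner_eq_tsum]
  split_ifs with h
  · subst h
    rw [inner_smul_right, tau_lam]
    exact (ell_hasSum b e0 i u v T).tsum_eq
  · rw [inner_zero_right]
    refine (tsum_congr fun w => ?_).trans tsum_zero
    rw [lam_apply, ell_apply, ell_apply]
    rcases w with _ | ⟨p, w⟩
    · simp [ellFun]
    · simp only [ellFun]
      by_cases h1 : p.1 = i
      · have h2 : p.1 ≠ j := fun h3 => h (h1.symm.trans h3)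
        simp [h2]
      · simp [h1]

theorem ell_r2 (b : HilbertBasis κ ℂ E) (e0 : E) (T : E →L[ℂ] E) (i : I) :
    star (ell b e0 i) (lam κ I T (vac κ I e0)) = 0 := by
  apply ext_inner_left ℂ
  intro u
  rw [ContinuousLinearMap.star_eq_adjoint, ContinuousLinearMap.adjoint_inner_right, lam_vac,
    vac_inner, inner_zero_right]
  rw [ell_apply]
  simp [ellFun]

theorem norm_vac (e0 : E) : ‖vac κ I e0‖ = ‖e0‖ := by
  have h : ‖vac κ I e0‖ ^ 2 = ‖e0‖ ^ 2 := by
    rw [norm_sq_eq, tsum_eq_single ([] : List (I × κ))]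
    · rfl
    · intro w hw
      rcases w with _ | ⟨p, w⟩
      · exact absurd rfl hw
      · rw [vac_cons]; simp
  exact (sq_eq_sq₀ (norm_nonneg _) (norm_nonneg _)).1 h

/-- the Fock relations hold in the model -/
theorem fock (b : HilbertBasis κ ℂ E) (e0 : E) (he : ‖e0‖ = 1) (B : Subalgebra ℂ (E →L[ℂ] E))
    (hc : ∀ S ∈ B, ∀ T ∈ B, S * T = T * S) (hs : ∀ S ∈ B, star S ∈ B) :
    Fock (B.map ((lamHom κ I : (E →L[ℂ] E) →⋆ₐ[ℂ] (KK E κ I →L[ℂ] KK E κ I)) :
      (E →L[ℂ] E) →ₐ[ℂ] (KK E κ I →L[ℂ] KK E κ I))) (vac κ I e0) (ell b e0) where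
  norm := by rw [norm_vac, he]
  comm := by
    rintro _ ⟨S, hS, rfl⟩ _ ⟨T, hT, rfl⟩
    have := congrArg (lamHom κ I : (E →L[ℂ] E) →⋆ₐ[ℂ] (KK E κ I →L[ℂ] KK E κ I)) (hc S hS T hT)
    rw [map_mul, map_mul] at this
    exact this
  st := by
    rintro _ ⟨S, hS, rfl⟩
    refine ⟨star S, hs S hS, ?_⟩
    exact map_star (lamHom κ I : (E →L[ℂ] E) →⋆ₐ[ℂ] (KK E κ I →L[ℂ] KK E κ I)) S
  r1 := by
    rintro _ ⟨S, hS, rfl⟩ i j v
    exact ell_r1 b e0 S i j v
  r2 := by
    rintro _ ⟨S, hS, rfl⟩ i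
    exact ell_r2 b e0 S i

end Pool.Agent.TH254.FM
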