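import Mathlib
import Pool.Agent.TH254.FC.Calc4
import Pool.Agent.TH254.FC.Model

set_option autoImplicit false
set_option linter.unusedSectionVars false
set_option linter.deprecated false

/-! The semicircle law, as the law of `2 cos θ` under `(2/π) sin² θ dθ` on `(0, π]`. -/

open scoped InnerProductSpace ENNReal
open MeasureTheory Real

namespace Pool.Agent.TH254.FS

open Pool.Agent.TH254.FC

/-- the measure `(2/π) sin² θ dθ` on `(0, π]` -/
noncomputable def sig : Measure ℝ :=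
  (volume.restrict (Set.Ioc 0 π)).withDensity (fun θ => ENNReal.ofReal (2 / π * sin θ ^ 2))

theorem integral_sig {F : Type*} [NormedAddCommGroup F] [NormedSpace ℝ F] (f : ℝ → F) :
    ∫ θ, f θ ∂sig = ∫ θ in (0 : ℝ)..π, (2 / π * sin θ ^ 2) • f θ := by
  unfold sig
  rw [integral_withDensity_eq_integral_toReal_smul (by fun_prop)
    (Filter.Eventually.of_forall fun _ => ENNReal.ofReal_lt_top),
    intervalIntegral.integral_of_le pi_pos.le]
  apply integral_congr_ae
  filter_upwards with θ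
  rw [ENNReal.toReal_ofReal (by have := pi_pos; positivity)]

theorem Jz : ∫ θ in (0 : ℝ)..π, cos θ ^ (2 * 0) = π := by simp

theorem Js (n : ℕ) : ∫ θ in (0 : ℝ)..π, cos θ ^ (2 * (n + 1)) =
    (2 * n + 1) / (2 * n + 2) * ∫ θ in (0 : ℝ)..π, cos θ ^ (2 * n) := by
  have := @integral_cos_pow 0 π (2 * n)
  rw [show 2 * (n + 1) = 2 * n + 2 by ring, this]
  simp

theorem J (n : ℕ) : ∫ θ in (0 : ℝ)..π, cos θ ^ (2 * n) = π * n.centralBinom / 4 ^ n := by
  induction n with
  | zero => simp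
  | succ n ih =>
    rw [Js, ih]
    have h := Nat.succ_mul_centralBinom_succ n
    have h' : ((n : ℝ) + 1) * (n + 1).centralBinom = 2 * (2 * n + 1) * n.centralBinom := by
      exact_mod_cast h
    have hn : (0 : ℝ) < n + 1 := by positivity
    field_simp
    rw [pow_succ]
    linear_combination (-(4 : ℝ) ^ n * 2) * h'

theorem Jodd (n : ℕ) : ∫ θ in (0 : ℝ)..π, cos θ ^ (2 * n + 1) = 0 := by
  induction n with
  | zero => simp
  | succ n ih =>
    have := @integral_cos_pow 0 π (2 * n + 1)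
    rw [show 2 * (n + 1) + 1 = 2 * n + 1 + 2 by ring, this, ih]
    simp

theorem mom_gen (m : ℕ) : ∫ θ, (2 * cos θ) ^ m ∂sig =
    2 / π * 2 ^ m * ((∫ θ in (0 : ℝ)..π, cos θ ^ m) - ∫ θ in (0 : ℝ)..π, cos θ ^ (m + 2)) := by
  rw [integral_sig, ← intervalIntegral.integral_sub, ← intervalIntegral.integral_const_mul]
  · apply intervalIntegral.integral_congr
    intro θ _
    simp only [smul_eq_mul]
    have := sin_sq_add_cos_sq θ
    have h2 : sin θ ^ 2 = 1 - cos θ ^ 2 := by linarith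
    rw [h2, mul_pow, pow_add]
    ring
  · apply Continuous.intervalIntegrable; fun_prop
  · apply Continuous.intervalIntegrable; fun_prop

theorem mom_even (n : ℕ) : ∫ θ, (2 * cos θ) ^ (2 * n) ∂sig = catalan n := by
  rw [mom_gen, show 2 * n + 2 = 2 * (n + 1) by ring, Js, J]
  have h : ((n : ℝ) + 1) * catalan n = n.centralBinom := by
    exact_mod_cast succ_mul_catalan_eq_centralBinom n
  rw [← h]
  have hp := pi_pos
  have hn : (0 : ℝ) < n + 1 := by positivity
  have h4 : (2 : ℝ) ^ (2 * n) = 4 ^ n := by rw [pow_mul]; norm_num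
  rw [h4]
  field_simp
  ring

theorem mom_odd (n : ℕ) : ∫ θ, (2 * cos θ) ^ (2 * n + 1) ∂sig = 0 := by
  rw [mom_gen, show 2 * n + 1 + 2 = 2 * (n + 1) + 1 by ring, Jodd, Jodd]
  simp

instance : IsProbabilityMeasure sig := by
  refine ⟨?_⟩
  have h := mom_even 0
  simp only [Nat.mul_zero, pow_zero, integral_const, smul_eq_mul, mul_one, catalan_zero,
    Nat.cast_one] at h
  have h1 : (sig Set.univ).toReal = 1 := h
  rw [ENNReal.toReal_eq_one_iff] at h1
  exact h1

theorem sig_ac : sig ≪ volume :=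
  (withDensity_absolutelyContinuous _ _).trans Measure.restrict_le_self.absolutelyContinuous

theorem sig_mem : ∀ᵐ θ ∂sig, θ ∈ Set.Ioc 0 π :=
  (withDensity_absolutelyContinuous _ _).ae_le (ae_restrict_mem measurableSet_Ioc)

/-- the level sets of the cosine are null sets -/
theorem sig_level (c : ℝ) : ∀ᵐ θ ∂sig, 2 * cos θ ≠ c := by
  have h1 : ∀ᵐ θ ∂sig, θ ∈ Set.Ioc 0 π := sig_mem
  have h2 : sig {θ | θ ∈ Set.Ioc 0 π ∧ 2 * cos θ = c} = 0 := by
    have hs : Set.Subsingleton {θ | θ ∈ Set.Ioc 0 π ∧ 2 * cos θ = c} := by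
      intro a ha b hb
      apply injOn_cos ⟨ha.1.1.le, ha.1.2⟩ ⟨hb.1.1.le, hb.1.2⟩
      linarith [ha.2, hb.2]
    exact sig_ac (hs.measure_zero _)
  have h3 : ∀ᵐ θ ∂sig, ¬ (θ ∈ Set.Ioc 0 π ∧ 2 * cos θ = c) := by
    rw [ae_iff]
    simpa [and_assoc] using h2
  filter_upwards [h1, h3] with θ ha hb hc
  exact hb ⟨ha, hc⟩

theorem integrable_cos {f : ℝ → ℂ} (hf : Continuous f) : Integrable (fun θ => f (2 * cos θ)) sig := by
  obtain ⟨C, hC⟩ := (isCompact_Icc (a := (-2 : ℝ)) (b := 2)).exists_bound_of_continuousOn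
    hf.continuousOn
  refine Integrable.of_bound (by fun_prop) C (Filter.Eventually.of_forall fun θ => hC _ ?_)
  constructor <;> linarith [neg_one_le_cos θ, cos_le_one θ]

section Fk

variable {K : Type*} [NormedAddCommGroup K] [InnerProductSpace ℂ K] [CompleteSpace K]
variable {I : Type*} [Fintype I] [DecidableEq I]
variable {A : Subalgebra ℂ (K →L[ℂ] K)} {Ω : K} {l : I → K →L[ℂ] K}

open Polynomial in
theorem semi_poly (F : Fock A Ω l) (i : I) (p : ℂ[X]) :
    ∫ θ, p.eval ((2 * cos θ : ℝ) : ℂ) ∂sig = tau Ω (aeval (l i + star (l i)) p) := by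
  induction p using Polynomial.induction_on' with
  | add p q hp hq =>
    simp only [eval_add]
    rw [integral_add, hp, hq, map_add]
    · simp [tau]
    · exact integrable_cos (f := fun x => p.eval (x : ℂ)) (by fun_prop)
    · exact integrable_cos (f := fun x => q.eval (x : ℂ)) (by fun_prop)
  | monomial n c =>
    simp only [eval_monomial]
    rw [integral_const_mul]
    have h1 : ∫ θ, ((2 * cos θ : ℝ) : ℂ) ^ n ∂sig = ((∫ θ, (2 * cos θ) ^ n ∂sig : ℝ) : ℂ) := by
      rw [← integral_complex_ofReal]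
      apply integral_congr_ae
      filter_upwards with θ
      push_cast
      ring
    rw [h1, aeval_monomial]
    have h2 : tau Ω (algebraMap ℂ (K →L[ℂ] K) c * (l i + star (l i)) ^ n) =
        c * tau Ω ((l i + star (l i)) ^ n) := by
      simp [tau, Algebra.algebraMap_eq_smul_one]
    rw [h2]
    congr 1
    rcases Nat.even_or_odd' n with ⟨m, rfl | rfl⟩
    · rw [mom_even, (moments F i m).1]; simp
    · rw [mom_odd, (moments F i m).2]; simp

end Fk

open Polynomial in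
/-- the conjugate variable relation of the semicircle law, for affine powers -/
theorem semi_affine (c r : ℝ) (m : ℕ) :
    ∫ θ, ((c + r * (2 * cos θ)) ^ m) * (2 * cos θ) ∂sig =
      r * ∑ k ∈ Finset.range m, (∫ θ, (c + r * (2 * cos θ)) ^ k ∂sig) *
        ∫ θ, (c + r * (2 * cos θ)) ^ (m - 1 - k) ∂sig := by
  -- a Fock space over the scalars
  obtain ⟨w, b, -⟩ := exists_hilbertBasis ℂ ℂ
  have F := FM.fock (I := Unit) b (1 : ℂ) (by simp) (⊥ : Subalgebra ℂ (ℂ →L[ℂ] ℂ))
    (by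
      rintro _ ⟨S, rfl⟩ _ ⟨T, rfl⟩
      exact (Algebra.commutes _ _))
    (by
      rintro _ ⟨S, rfl⟩
      refine ⟨star S, ?_⟩
      exact algebraMap_star_comm (A := ℂ →L[ℂ] ℂ) S)
  set l := FM.ell b (1 : ℂ) (I := Unit) with hl
  set Ω := FM.vac w Unit (1 : ℂ) with hΩ
  set S := l () + star (l ()) with hS
  set A := ((⊥ : Subalgebra ℂ (ℂ →L[ℂ] ℂ)).map ((FM.lamHom w Unit :
    (ℂ →L[ℂ] ℂ) →⋆ₐ[ℂ] (FM.KK ℂ w Unit →L[ℂ] FM.KK ℂ w Unit)) :
      (ℂ →L[ℂ] ℂ) →ₐ[ℂ] (FM.KK ℂ w Unit →L[ℂ] FM.KK ℂ w Unit))) with hA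
  let x : A × (Unit → ℂ) := (algebraMap ℂ A c, fun _ => (r : ℂ))
  have hx : op l x = aeval S (C (c : ℂ) + C (r : ℂ) * X) := by
    simp only [op, x, map_add, map_mul, aeval_C, aeval_X]
    rw [Finset.univ_unique, Finset.sum_singleton, Algebra.smul_def]
    rfl
  have hpr : ∀ k, pr l (List.replicate k x) = aeval S ((C (c : ℂ) + C (r : ℂ) * X) ^ k) := by
    intro k
    rw [map_pow, ← hx]
    simp [pr]
  have hint : ∀ k, T Ω l 1 (List.replicate k x) =
      ((∫ θ, (c + r * (2 * cos θ)) ^ k ∂sig : ℝ) : ℂ) := by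
    intro k
    have h1 := semi_poly F () ((C (c : ℂ) + C (r : ℂ) * X) ^ k)
    have h2 : T Ω l 1 (List.replicate k x) = tau Ω (aeval S ((C (c : ℂ) + C (r : ℂ) * X) ^ k)) := by
      rw [T, hpr]; rfl
    rw [h2]
    refine h1.symm.trans ?_
    rw [← integral_complex_ofReal]
    apply integral_congr_ae
    filter_upwards with θ
    simp
  have hSD := T_ls F () (List.replicate m x)
  rw [sp_replicate] at hSD
  have h3 := semi_poly F () (X * (C (c : ℂ) + C (r : ℂ) * X) ^ m)
  have h4 : T Ω l 1 (ls () :: List.replicate m x) =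
      tau Ω (aeval S (X * (C (c : ℂ) + C (r : ℂ) * X) ^ m)) := by
    rw [T, pr_cons, op_ls F, hpr, map_mul, aeval_X]
    rfl
  rw [h4, ← h3] at hSD
  have h5 : ∫ θ, (X * (C (c : ℂ) + C (r : ℂ) * X) ^ m : ℂ[X]).eval ((2 * cos θ : ℝ) : ℂ) ∂sig =
      ((∫ θ, ((c + r * (2 * cos θ)) ^ m) * (2 * cos θ) ∂sig : ℝ) : ℂ) := by
    rw [← integral_complex_ofReal]
    apply integral_congr_ae
    filter_upwards with θ
    simp
    ring
  rw [h5] at hSD
  simp only [hint] at hSD
  have h6 : cf () x = (r : ℂ) := rfl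
  rw [h6] at hSD
  have h7 : ((∫ θ, ((c + r * (2 * cos θ)) ^ m) * (2 * cos θ) ∂sig : ℝ) : ℂ) =
      ((r * ∑ k ∈ Finset.range m, (∫ θ, (c + r * (2 * cos θ)) ^ k ∂sig) *
        ∫ θ, (c + r * (2 * cos θ)) ^ (m - 1 - k) ∂sig : ℝ) : ℂ) := by
    rw [hSD]
    push_cast
    rw [Finset.mul_sum]
    apply Finset.sum_congr rfl
    intro k _
    rw [smul_eq_mul]
    ring
  exact_mod_cast h7

end Pool.Agent.TH254.FS
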