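import Mathlib
import Pool.Agent.TH254.FC.Semi
import Pool.Agent.TH254.FC.Mul

set_option autoImplicit false
set_option linter.unusedSectionVars false
set_option linter.deprecated false

/-! The spectral measure of the first generator: a mixture of semicircle laws of radius
`2^{-k}/8` around `2^{-k}` with weights `1/((k+1)(k+2))`. -/

open scoped InnerProductSpace ENNReal
open MeasureTheory Real

namespace Pool.Agent.TH254.BS

open Pool.Agent.TH254.FS (sig)

/-- the weights -/
noncomputable def pk (k : ℕ) : ℝ := 1 / ((k + 1) * (k + 2))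

theorem pk_pos (k : ℕ) : 0 < pk k := by unfold pk; positivity

theorem pk_sum (T n : ℕ) : ∑ k ∈ Finset.range n, pk (k + T) = 1 / (T + 1) - 1 / (n + T + 1) := by
  induction n with
  | zero => simp
  | succ n ih =>
    rw [Finset.sum_range_succ, ih]
    unfold pk
    push_cast
    have h1 : (0 : ℝ) < n + T + 1 := by positivity
    have h2 : (0 : ℝ) < n + 1 + T + 1 := by positivity
    have h3 : (0 : ℝ) < (T : ℝ) + 1 := by positivity
    field_simp
    ring

theorem pk_hasSum (T : ℕ) : HasSum (fun k => pk (k + T)) (1 / (T + 1)) := by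
  rw [hasSum_iff_tendsto_nat_of_nonneg (fun k => (pk_pos _).le)]
  simp only [pk_sum]
  have h1 : Filter.Tendsto (fun n : ℕ => (1 : ℝ) / (n + T + 1)) Filter.atTop (nhds 0) := by
    have := (tendsto_one_div_add_atTop_nhds_zero_nat (𝕜 := ℝ)).comp
      (Filter.tendsto_add_atTop_nat T)
    refine this.congr fun n => ?_
    simp only [Function.comp_apply]
    push_cast
    ring
  simpa using (tendsto_const_nhds (x := (1 : ℝ) / (T + 1))).sub h1

/-- the measure on the index set -/
noncomputable def P : Measure ℕ := Measure.sum fun k => ENNReal.ofReal (pk k) • Measure.dirac k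

theorem P_single (k : ℕ) : P {k} = ENNReal.ofReal (pk k) := by
  unfold P
  rw [Measure.sum_apply _ (MeasurableSet.singleton k), tsum_eq_single k]
  · simp
  · intro j hj
    simp [hj]

instance : IsProbabilityMeasure P := by
  refine ⟨?_⟩
  have h1 : P Set.univ = ∑' k, ENNReal.ofReal (pk k) := by
    unfold P
    rw [Measure.sum_apply _ MeasurableSet.univ]
    simp
  rw [h1, ← ENNReal.ofReal_tsum_of_nonneg (fun k => (pk_pos k).le)]
  · have := (pk_hasSum 0).tsum_eq
    simp only [add_zero] at this
    rw [this]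
    simp
  · have := (pk_hasSum 0).summable
    simpa using this

theorem P_real (k : ℕ) : P.real {k} = pk k := by
  rw [Measure.real, P_single, ENNReal.toReal_ofReal (pk_pos k).le]

/-- the measure space -/
noncomputable def nu : Measure (ℕ × ℝ) := P.prod sig

instance : IsProbabilityMeasure nu := by unfold nu; infer_instance

/-- the first generator, as a function -/
noncomputable def h (x : ℕ × ℝ) : ℝ := (1 / 2) ^ x.1 * (1 + cos x.2 / 8)

/-- the cutoffs -/
noncomputable def q (T : ℕ) (x : ℕ × ℝ) : ℝ := if T ≤ x.1 then 1 else 0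

/-- the kernel `1/(h(x) - h(x'))` between different blocks -/
noncomputable def w (x x' : ℕ × ℝ) : ℝ := if x.1 = x'.1 then 0 else 1 / (h x - h x')

noncomputable def kap (T : ℕ) (x x' : ℕ × ℝ) : ℝ := 1 - q T x * q T x'

/-- the truncated conjugate variable -/
noncomputable def g (T : ℕ) (x : ℕ × ℝ) : ℝ :=
  (if x.1 < T then pk x.1 * (16 * 2 ^ x.1) * (2 * cos x.2) else 0) +
    2 * ∫ x', kap T x x' * w x x' ∂nu

noncomputable def u (T : ℕ) (x x' : ℕ × ℝ) : ℝ := 2 ^ min (min x.1 x'.1) T

theorem h_meas : Measurable h := by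
  unfold h
  have h1 : Measurable fun x : ℕ × ℝ => ((1 : ℝ) / 2) ^ x.1 :=
    (measurable_of_countable (fun k : ℕ => ((1 : ℝ) / 2) ^ k)).comp measurable_fst
  exact h1.mul (by fun_prop)

theorem q_meas (T : ℕ) : Measurable (q T) := by
  unfold q
  exact (measurable_of_countable (fun k : ℕ => if T ≤ k then (1 : ℝ) else 0)).comp measurable_fst

theorem w_meas : Measurable (fun z : (ℕ × ℝ) × (ℕ × ℝ) => w z.1 z.2) := by
  unfold w
  refine Measurable.ite ?_ measurable_const ?_
  · exact measurableSet_eq_fun (measurable_fst.comp measurable_fst)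
      (measurable_fst.comp measurable_snd)
  · exact measurable_const.div ((h_meas.comp measurable_fst).sub (h_meas.comp measurable_snd))

theorem kap_meas (T : ℕ) : Measurable (fun z : (ℕ × ℝ) × (ℕ × ℝ) => kap T z.1 z.2) := by
  unfold kap
  exact measurable_const.sub (((q_meas T).comp measurable_fst).mul
    ((q_meas T).comp measurable_snd))

theorem u_meas (T : ℕ) : Measurable (fun z : (ℕ × ℝ) × (ℕ × ℝ) => u T z.1 z.2) := by
  unfold u
  exact (measurable_of_countable (fun p : ℕ × ℕ => (2 : ℝ) ^ min (min p.1 p.2) T)).comp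
    ((measurable_fst.comp measurable_fst).prodMk (measurable_fst.comp measurable_snd))

theorem h_pos (x : ℕ × ℝ) : 0 < h x := by
  unfold h
  have := neg_one_le_cos x.2
  have h2 : 0 < 1 + cos x.2 / 8 := by linarith
  positivity

theorem h_upper (x : ℕ × ℝ) : h x ≤ 9 / 8 * (1 / 2) ^ x.1 := by
  unfold h
  have := cos_le_one x.2
  have h1 : (0 : ℝ) < (1 / 2) ^ x.1 := by positivity
  nlinarith

theorem h_lower (x : ℕ × ℝ) : 7 / 8 * (1 / 2) ^ x.1 ≤ h x := by
  unfold h
  have := neg_one_le_cos x.2
  have h1 : (0 : ℝ) < (1 / 2) ^ x.1 := by positivity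
  nlinarith

theorem h_le (x : ℕ × ℝ) : |h x| ≤ 2 := by
  rw [abs_of_pos (h_pos x)]
  have h1 : ((1 : ℝ) / 2) ^ x.1 ≤ 1 := pow_le_one₀ (by norm_num) (by norm_num)
  linarith [h_upper x]

theorem h_gap (x x' : ℕ × ℝ) (hx : x.1 < x'.1) : 1 / 4 * (1 / 2) ^ x.1 ≤ h x - h x' := by
  have h1 := h_lower x
  have h2 := h_upper x'
  have h3 : ((1 : ℝ) / 2) ^ x'.1 ≤ (1 / 2) ^ (x.1 + 1) :=
    pow_le_pow_of_le_one (by norm_num) (by norm_num) hx
  have h4 : (0 : ℝ) < (1 / 2) ^ x.1 := by positivity
  rw [pow_succ] at h3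
  linarith

theorem w_bound (x x' : ℕ × ℝ) : |w x x'| ≤ 4 * 2 ^ min x.1 x'.1 := by
  unfold w
  split_ifs with hx
  · simp
  · rcases lt_or_gt_of_ne hx with hlt | hlt
    · have h1 := h_gap x x' hlt
      have h4 : (0 : ℝ) < 1 / 4 * (1 / 2) ^ x.1 := by positivity
      have h5 : 0 < h x - h x' := h4.trans_le h1
      rw [abs_of_pos (by positivity), min_eq_left hlt.le]
      have h6 : (4 : ℝ) * 2 ^ x.1 = 1 / (1 / 4 * (1 / 2) ^ x.1) := by
        rw [one_div_pow]
        field_simp
      rw [h6]
      exact one_div_le_one_div_of_le h4 h1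
    · have h1 := h_gap x' x hlt
      have h4 : (0 : ℝ) < 1 / 4 * (1 / 2) ^ x'.1 := by positivity
      have h5 : 0 < h x' - h x := h4.trans_le h1
      have h7 : 1 / (h x - h x') = -(1 / (h x' - h x)) := by
        rw [← neg_sub (h x') (h x), one_div, inv_neg, one_div]
      rw [h7, abs_neg, abs_of_pos (by positivity), min_eq_right hlt.le]
      have h6 : (4 : ℝ) * 2 ^ x'.1 = 1 / (1 / 4 * (1 / 2) ^ x'.1) := by
        rw [one_div_pow]
        field_simp
      rw [h6]
      exact one_div_le_one_div_of_le h4 h1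

theorem kw_bound (T : ℕ) (x x' : ℕ × ℝ) : |kap T x x' * w x x'| ≤ 4 * u T x x' := by
  unfold u kap q
  by_cases h1 : T ≤ x.1
  · by_cases h2 : T ≤ x'.1
    · simp only [h1, h2, if_true, mul_one, sub_self, zero_mul, abs_zero]
      positivity
    · simp only [h1, h2, if_true, if_false, mul_zero, sub_zero, one_mul]
      have : min (min x.1 x'.1) T = min x.1 x'.1 := by omega
      rw [this]
      exact w_bound x x'
  · simp only [h1, if_false, zero_mul, sub_zero, one_mul]
    have : min (min x.1 x'.1) T = min x.1 x'.1 := by omega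
    rw [this]
    exact w_bound x x'

theorem u_le (T : ℕ) (x x' : ℕ × ℝ) : u T x x' ≤ 2 ^ T := by
  unfold u
  exact pow_le_pow_right₀ (by norm_num) (by omega)

theorem u_pos (T : ℕ) (x x' : ℕ × ℝ) : 0 < u T x x' := by
  unfold u; positivity

/-! ### integration of block functions -/

theorem integrable_bd {α : Type*} [MeasurableSpace α] {μ : Measure α} [IsFiniteMeasure μ]
    {f : α → ℝ} (hf : Measurable f) (C : ℝ) (hC : ∀ x, |f x| ≤ C) : Integrable f μ :=
  Integrable.of_bound hf.aestronglyMeasurable C (Filter.Eventually.of_forall hC)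

theorem int_P_single (k : ℕ) (c : ℝ) : ∫ j, (if j = k then c else 0) ∂P = pk k * c := by
  have hi : Integrable (fun j : ℕ => if j = k then c else 0) P := by
    apply integrable_bd (measurable_of_countable _) |c|
    intro j
    split_ifs
    · exact le_rfl
    · simp
  rw [integral_countable' hi, tsum_eq_single k]
  · rw [P_real]; simp
  · intro j hj
    simp [hj]

theorem int_block (k : ℕ) (f : ℝ → ℝ) (hf : Measurable f) (C : ℝ) (hC : ∀ x, |f x| ≤ C) :
    ∫ x : ℕ × ℝ, (if x.1 = k then f x.2 else 0) ∂nu = pk k * ∫ θ, f θ ∂sig := by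
  unfold nu
  rw [integral_prod]
  · rw [← int_P_single]
    apply integral_congr_ae
    filter_upwards with j
    split_ifs
    · rfl
    · simp
  · apply integrable_bd _ C
    · intro x
      split_ifs
      · exact hC _
      · simpa using (abs_nonneg _).trans (hC 0)
    · refine Measurable.ite ?_ (hf.comp measurable_snd) measurable_const
      exact measurable_fst (measurableSet_singleton k)

end Pool.Agent.TH254.BS
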