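import Mathlib
import Pool.Agent.TH254.FC.Base

set_option autoImplicit false
set_option linter.unusedSectionVars false
set_option linter.deprecated false

open scoped InnerProductSpace ENNReal
open MeasureTheory Real

namespace Pool.Agent.TH254.BS

open Pool.Agent.TH254.FS (sig)

/-- the polynomial difference quotient -/
noncomputable def D (m : ℕ) (x x' : ℕ × ℝ) : ℝ :=
  ∑ k ∈ Finset.range m, h x ^ k * h x' ^ (m - 1 - k)

theorem D_meas (m : ℕ) : Measurable (fun z : (ℕ × ℝ) × (ℕ × ℝ) => D m z.1 z.2) := by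
  unfold D
  refine Finset.measurable_sum _ fun k _ => ?_
  exact ((h_meas.comp measurable_fst).pow_const _).mul ((h_meas.comp measurable_snd).pow_const _)

theorem hpow_le (x : ℕ × ℝ) (k : ℕ) : |h x ^ k| ≤ 2 ^ k := by
  rw [abs_pow]
  exact pow_le_pow_left₀ (abs_nonneg _) (h_le x) k

theorem D_le (m : ℕ) (x x' : ℕ × ℝ) : |D m x x'| ≤ m * (2 ^ m * 2 ^ m) := by
  unfold D
  refine (Finset.abs_sum_le_sum_abs _ _).trans ?_
  have : ∀ k ∈ Finset.range m, |h x ^ k * h x' ^ (m - 1 - k)| ≤ 2 ^ m * 2 ^ m := by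
    intro k hk
    have hk' := Finset.mem_range.1 hk
    rw [abs_mul]
    refine mul_le_mul ((hpow_le x k).trans ?_) ((hpow_le x' _).trans ?_) (abs_nonneg _)
      (by positivity)
    · exact pow_le_pow_right₀ (by norm_num) hk'.le
    · exact pow_le_pow_right₀ (by norm_num) (by omega)
  refine (Finset.sum_le_sum this).trans ?_
  simp

theorem D_off (m : ℕ) (x x' : ℕ × ℝ) (hne : x.1 ≠ x'.1) :
    D m x x' = (h x ^ m - h x' ^ m) * w x x' := by
  have hd : h x - h x' ≠ 0 := by
    rcases lt_or_gt_of_ne hne with hlt | hlt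
    · have h1 := h_gap x x' hlt
      have h4 : (0 : ℝ) < 1 / 4 * (1 / 2) ^ x.1 := by positivity
      linarith
    · have h1 := h_gap x' x hlt
      have h4 : (0 : ℝ) < 1 / 4 * (1 / 2) ^ x'.1 := by positivity
      intro h0
      linarith
  have := geom_sum₂_mul (h x) (h x') m
  unfold w
  rw [if_neg hne, ← this]
  unfold D
  field_simp

theorem q_le (T : ℕ) (x : ℕ × ℝ) : |q T x| ≤ 1 := by
  unfold q
  split_ifs <;> simp

theorem kap_le (T : ℕ) (x x' : ℕ × ℝ) : |kap T x x'| ≤ 1 := by
  unfold kap q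
  split_ifs <;> simp

theorem kw_le (T : ℕ) (x x' : ℕ × ℝ) : |kap T x x' * w x x'| ≤ 4 * 2 ^ T :=
  (kw_bound T x x').trans (by linarith [u_le T x x'])

theorem kw_meas (T : ℕ) :
    Measurable (fun z : (ℕ × ℝ) × (ℕ × ℝ) => kap T z.1 z.2 * w z.1 z.2) :=
  (kap_meas T).mul w_meas

/-- the diagonal kernel -/
noncomputable def dg (T m : ℕ) (x x' : ℕ × ℝ) : ℝ :=
  if x'.1 = x.1 then (if x.1 < T then D m x x' else 0) else 0

theorem dg_meas (T m : ℕ) : Measurable (fun z : (ℕ × ℝ) × (ℕ × ℝ) => dg T m z.1 z.2) := by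
  unfold dg
  refine Measurable.ite ?_ (Measurable.ite ?_ (D_meas m) measurable_const) measurable_const
  · exact measurableSet_eq_fun (measurable_fst.comp measurable_snd)
      (measurable_fst.comp measurable_fst)
  · exact (measurable_fst.comp measurable_fst) (measurableSet_Iio (a := T))

theorem dg_le (T m : ℕ) (x x' : ℕ × ℝ) : |dg T m x x'| ≤ m * (2 ^ m * 2 ^ m) := by
  unfold dg
  split_ifs
  · exact D_le m x x'
  · rw [abs_zero]; positivity
  · rw [abs_zero]; positivity

theorem kD (T m : ℕ) (x x' : ℕ × ℝ) : kap T x x' * D m x x' =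
    kap T x x' * w x x' * h x ^ m - kap T x x' * w x x' * h x' ^ m + dg T m x x' := by
  by_cases hx : x'.1 = x.1
  · have hw : w x x' = 0 := by unfold w; rw [if_pos hx.symm]
    rw [hw]
    unfold dg kap q
    rw [if_pos hx]
    by_cases h1 : T ≤ x.1
    · have h2 : T ≤ x'.1 := by omega
      have h3 : ¬ x.1 < T := by omega
      simp [h1, h2, h3]
    · have h2 : ¬ T ≤ x'.1 := by omega
      have h3 : x.1 < T := by omega
      simp [h1, h2, h3]
  · rw [D_off m x x' (fun h => hx h.symm)]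
    unfold dg
    rw [if_neg hx]
    ring

theorem step1 (T m : ℕ) : ∑ k ∈ Finset.range m,
    ((∫ x, h x ^ k ∂nu) * (∫ x, h x ^ (m - 1 - k) ∂nu) -
      (∫ x, q T x * h x ^ k ∂nu) * ∫ x, q T x * h x ^ (m - 1 - k) ∂nu) =
    ∫ z : (ℕ × ℝ) × (ℕ × ℝ), kap T z.1 z.2 * D m z.1 z.2 ∂(nu.prod nu) := by
  have e1 : ∀ z : (ℕ × ℝ) × (ℕ × ℝ), kap T z.1 z.2 * D m z.1 z.2 =
      ∑ k ∈ Finset.range m, (h z.1 ^ k * h z.2 ^ (m - 1 - k) -
        (q T z.1 * h z.1 ^ k) * (q T z.2 * h z.2 ^ (m - 1 - k))) := by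
    intro z
    unfold kap D
    rw [Finset.mul_sum]
    apply Finset.sum_congr rfl
    intro k _
    ring
  simp only [e1]
  have i1 : ∀ k l : ℕ, Integrable (fun z : (ℕ × ℝ) × (ℕ × ℝ) => h z.1 ^ k * h z.2 ^ l)
      (nu.prod nu) := by
    intro k l
    apply integrable_bd _ (2 ^ k * 2 ^ l)
    · intro z
      rw [abs_mul]
      exact mul_le_mul (hpow_le _ _) (hpow_le _ _) (abs_nonneg _) (by positivity)
    · exact ((h_meas.comp measurable_fst).pow_const _).mul
        ((h_meas.comp measurable_snd).pow_const _)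
  have i2 : ∀ k l : ℕ, Integrable (fun z : (ℕ × ℝ) × (ℕ × ℝ) =>
      (q T z.1 * h z.1 ^ k) * (q T z.2 * h z.2 ^ l)) (nu.prod nu) := by
    intro k l
    apply integrable_bd _ ((1 * 2 ^ k) * (1 * 2 ^ l))
    · intro z
      rw [abs_mul, abs_mul, abs_mul]
      gcongr
      · exact q_le T _
      · exact hpow_le _ _
      · exact q_le T _
      · exact hpow_le _ _
    · exact (((q_meas T).comp measurable_fst).mul ((h_meas.comp measurable_fst).pow_const _)).mul
        (((q_meas T).comp measurable_snd).mul ((h_meas.comp measurable_snd).pow_const _))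
  refine Eq.symm ((integral_finset_sum (Finset.range m)
    (f := fun k (z : (ℕ × ℝ) × (ℕ × ℝ)) => (h z.1 ^ k * h z.2 ^ (m - 1 - k) -
        (q T z.1 * h z.1 ^ k) * (q T z.2 * h z.2 ^ (m - 1 - k))))
    (fun k _ => (i1 k _).sub (i2 k _))).trans ?_)
  apply Finset.sum_congr rfl
  intro k _
  refine (integral_sub (i1 k _) (i2 k _)).trans ?_
  congr 1
  · exact (integral_prod_mul (fun x => h x ^ k) (fun x => h x ^ (m - 1 - k)))
  · exact (integral_prod_mul (fun x => q T x * h x ^ k)
      (fun x => q T x * h x ^ (m - 1 - k)))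

theorem off_int (T m : ℕ) : Integrable (fun z : (ℕ × ℝ) × (ℕ × ℝ) =>
    kap T z.1 z.2 * w z.1 z.2 * h z.1 ^ m) (nu.prod nu) := by
  apply integrable_bd _ (4 * 2 ^ T * 2 ^ m)
  · intro z
    rw [abs_mul]
    exact mul_le_mul (kw_le T _ _) (hpow_le _ _) (abs_nonneg _) (by positivity)
  · exact (kw_meas T).mul ((h_meas.comp measurable_fst).pow_const _)

theorem off_int' (T m : ℕ) : Integrable (fun z : (ℕ × ℝ) × (ℕ × ℝ) =>
    kap T z.1 z.2 * w z.1 z.2 * h z.2 ^ m) (nu.prod nu) := by
  apply integrable_bd _ (4 * 2 ^ T * 2 ^ m)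
  · intro z
    rw [abs_mul]
    exact mul_le_mul (kw_le T _ _) (hpow_le _ _) (abs_nonneg _) (by positivity)
  · exact (kw_meas T).mul ((h_meas.comp measurable_snd).pow_const _)

theorem dg_int (T m : ℕ) : Integrable (fun z : (ℕ × ℝ) × (ℕ × ℝ) => dg T m z.1 z.2)
    (nu.prod nu) :=
  integrable_bd (dg_meas T m) _ (fun _ => dg_le T m _ _)

theorem kap_symm (T : ℕ) (x x' : ℕ × ℝ) : kap T x x' = kap T x' x := by
  unfold kap; ring

theorem w_anti (x x' : ℕ × ℝ) : w x x' = -w x' x := by
  unfold w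
  by_cases hx : x.1 = x'.1
  · rw [if_pos hx, if_pos hx.symm]; simp
  · rw [if_neg hx, if_neg (fun h => hx h.symm), ← neg_sub (h x') (h x), one_div, inv_neg, one_div]

theorem step2 (T m : ℕ) : ∫ z : (ℕ × ℝ) × (ℕ × ℝ), kap T z.1 z.2 * D m z.1 z.2 ∂(nu.prod nu) =
    2 * (∫ x, (∫ x', kap T x x' * w x x' ∂nu) * h x ^ m ∂nu) +
      ∫ z : (ℕ × ℝ) × (ℕ × ℝ), dg T m z.1 z.2 ∂(nu.prod nu) := by
  simp only [kD]
  refine (integral_add (f := fun z : (ℕ × ℝ) × (ℕ × ℝ) => kap T z.1 z.2 * w z.1 z.2 * h z.1 ^ m -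
    kap T z.1 z.2 * w z.1 z.2 * h z.2 ^ m) ((off_int T m).sub (off_int' T m))
    (dg_int T m)).trans ?_
  congr 1
  refine (integral_sub (off_int T m) (off_int' T m)).trans ?_
  have hsw : ∫ z : (ℕ × ℝ) × (ℕ × ℝ), kap T z.1 z.2 * w z.1 z.2 * h z.2 ^ m ∂(nu.prod nu) =
      - ∫ z : (ℕ × ℝ) × (ℕ × ℝ), kap T z.1 z.2 * w z.1 z.2 * h z.1 ^ m ∂(nu.prod nu) := by
    rw [← integral_prod_swap, ← integral_neg]
    apply integral_congr_ae
    filter_upwards with z
    simp only [Prod.fst_swap, Prod.snd_swap]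
    rw [kap_symm T z.2 z.1, w_anti z.2 z.1]
    ring
  rw [hsw, integral_prod _ (off_int T m)]
  have : ∀ x, ∫ x', kap T x x' * w x x' * h x ^ m ∂nu =
      (∫ x', kap T x x' * w x x' ∂nu) * h x ^ m := by
    intro x
    rw [integral_mul_const]
  simp only [this]
  ring

attribute [local irreducible] D

theorem h_eq (k : ℕ) (θ : ℝ) : h (k, θ) = (1 / 2) ^ k + (1 / 2) ^ k / 16 * (2 * cos θ) := by
  unfold h
  ring

theorem step3 (T m : ℕ) :
    ∫ z : (ℕ × ℝ) × (ℕ × ℝ), dg T m z.1 z.2 ∂(nu.prod nu) =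
      ∫ x : ℕ × ℝ, (if x.1 < T then pk x.1 * (16 * 2 ^ x.1) * (2 * cos x.2) else 0) *
        h x ^ m ∂nu := by
  rw [integral_prod _ (dg_int T m)]
  -- the inner integral
  have e1 : ∀ x : ℕ × ℝ, ∫ x', dg T m x x' ∂nu =
      if x.1 < T then pk x.1 * ∫ θ, D m x (x.1, θ) ∂sig else 0 := by
    intro x
    by_cases hx : x.1 < T
    · rw [if_pos hx]
      have : ∀ x' : ℕ × ℝ, dg T m x x' = if x'.1 = x.1 then D m x (x.1, x'.2) else 0 := by
        intro x'
        unfold dg
        by_cases h1 : x'.1 = x.1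
        · rw [if_pos h1, if_pos hx, if_pos h1, ← h1]
        · rw [if_neg h1, if_neg h1]
      simp only [this]
      refine int_block x.1 (fun θ => D m x (x.1, θ)) ?_ _ (fun θ => D_le m _ _)
      have hf : Measurable (fun θ : ℝ => ((x, (x.1, θ)) : (ℕ × ℝ) × (ℕ × ℝ))) :=
        measurable_const.prodMk (measurable_const.prodMk measurable_id)
      exact (D_meas m).comp hf
    · rw [if_neg hx]
      have : ∀ x' : ℕ × ℝ, dg T m x x' = 0 := by
        intro x'
        unfold dg
        split_ifs <;> rfl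
      simp [this]
  simp only [e1]
  -- reduce both sides to the index set
  unfold nu
  have hm1 : Measurable fun x : ℕ × ℝ => ∫ θ, D m x (x.1, θ) ∂sig := by
    have : StronglyMeasurable fun z : (ℕ × ℝ) × ℝ => D m z.1 (z.1.1, z.2) := by
      apply Measurable.stronglyMeasurable
      have hf : Measurable (fun z : (ℕ × ℝ) × ℝ => ((z.1, (z.1.1, z.2)) : (ℕ × ℝ) × (ℕ × ℝ))) :=
        measurable_fst.prodMk ((measurable_fst.comp measurable_fst).prodMk measurable_snd)
      exact (D_meas m).comp hf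
    exact this.integral_prod_right.measurable
  have hb1 : ∀ x : ℕ × ℝ, |∫ θ, D m x (x.1, θ) ∂sig| ≤ m * (2 ^ m * 2 ^ m) := by
    intro x
    have := norm_integral_le_of_norm_le_const (μ := sig) (f := fun θ => D m x (x.1, θ))
      (C := m * (2 ^ m * 2 ^ m)) (Filter.Eventually.of_forall fun θ => D_le m _ _)
    simpa using this
  have hpk : ∀ k, |pk k| ≤ 1 := by
    intro k
    rw [abs_of_pos (pk_pos k)]
    unfold pk
    rw [div_le_one (by positivity)]
    nlinarith [Nat.cast_nonneg (α := ℝ) k]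
  have hset : MeasurableSet {x : ℕ × ℝ | x.1 < T} := measurable_fst (measurableSet_Iio (a := T))
  have hpkm : Measurable fun x : ℕ × ℝ => pk x.1 := (measurable_of_countable pk).comp measurable_fst
  have h2m : Measurable fun x : ℕ × ℝ => (2 : ℝ) ^ x.1 :=
    (measurable_of_countable (fun k : ℕ => (2 : ℝ) ^ k)).comp measurable_fst
  rw [integral_prod, integral_prod]
  · apply integral_congr_ae
    filter_upwards with k
    by_cases hk : k < T
    · simp only [hk, if_true]
      rw [integral_const_mul]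
      have e2 : ∫ θ, (∫ θ', D m (k, θ) (k, θ') ∂sig) ∂sig =
          ∑ l ∈ Finset.range m, (∫ θ, h (k, θ) ^ l ∂sig) * ∫ θ, h (k, θ) ^ (m - 1 - l) ∂sig := by
        have hi : ∀ l, Integrable (fun θ => h (k, θ) ^ l) sig := by
          intro l
          apply integrable_bd _ (2 ^ l) (fun θ => hpow_le _ _)
          exact (h_meas.comp (measurable_const.prodMk measurable_id)).pow_const _
        have e3 : ∀ θ, ∫ θ', D m (k, θ) (k, θ') ∂sig =
            ∑ l ∈ Finset.range m, h (k, θ) ^ l * ∫ θ', h (k, θ') ^ (m - 1 - l) ∂sig := by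
          intro θ
          unfold D
          refine (integral_finset_sum (Finset.range m)
            (f := fun l (θ' : ℝ) => h (k, θ) ^ l * h (k, θ') ^ (m - 1 - l))
            (fun l _ => (hi _).const_mul _)).trans ?_
          apply Finset.sum_congr rfl
          intro l _
          exact integral_const_mul _ _
        simp only [e3]
        refine (integral_finset_sum (Finset.range m)
          (f := fun l (θ : ℝ) => h (k, θ) ^ l * ∫ θ', h (k, θ') ^ (m - 1 - l) ∂sig)
          (fun l _ => (hi _).mul_const _)).trans ?_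
        apply Finset.sum_congr rfl
        intro l _
        exact integral_mul_const _ _
      rw [e2]
      have e4 := FS.semi_affine ((1 / 2) ^ k) ((1 / 2) ^ k / 16) m
      simp only [← h_eq] at e4
      have e5 : ∑ l ∈ Finset.range m, (∫ θ, h (k, θ) ^ l ∂sig) * ∫ θ, h (k, θ) ^ (m - 1 - l) ∂sig
          = 16 * 2 ^ k * ∫ θ, h (k, θ) ^ m * (2 * cos θ) ∂sig := by
        rw [e4, ← mul_assoc]
        have : (16 : ℝ) * 2 ^ k * ((1 / 2) ^ k / 16) = 1 := by
          rw [one_div_pow]
          field_simp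
        rw [this, one_mul]
      rw [e5, ← mul_assoc, ← integral_const_mul]
      apply integral_congr_ae
      filter_upwards with θ
      ring
    · simp [hk]
  · apply integrable_bd _ (2 * (16 * 2 ^ T) * 2 * 2 ^ m)
    · intro x
      split_ifs with hx
      · have h1 := hpk x.1
        have h2 : |(2 : ℝ) * cos x.2| ≤ 2 := by
          rw [abs_mul, abs_two]
          linarith [abs_cos_le_one x.2]
        have h3 : (2 : ℝ) ^ x.1 ≤ 2 ^ T := pow_le_pow_right₀ (by norm_num) hx.le
        have h4 : |(16 : ℝ) * 2 ^ x.1| ≤ 16 * 2 ^ T := by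
          rw [abs_of_pos (by positivity)]
          linarith
        rw [abs_mul, abs_mul, abs_mul]
        gcongr
        · exact h1.trans (by norm_num)
        · exact hpow_le _ _
      · simp only [zero_mul, abs_zero]; positivity
    · refine Measurable.mul (Measurable.ite hset ?_ measurable_const) (h_meas.pow_const _)
      exact (hpkm.mul (measurable_const.mul h2m)).mul (by fun_prop)
  · apply integrable_bd _ (1 * (m * (2 ^ m * 2 ^ m)))
    · intro x
      split_ifs with hx
      · rw [abs_mul]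
        exact mul_le_mul (hpk _) (hb1 x) (abs_nonneg _) (by norm_num)
      · simp only [abs_zero]; positivity
    · exact Measurable.ite hset (hpkm.mul hm1) measurable_const

theorem kw_int_meas (T : ℕ) : Measurable fun x => ∫ x', kap T x x' * w x x' ∂nu :=
  ((kw_meas T).stronglyMeasurable.integral_prod_right).measurable

theorem kw_int_le (T : ℕ) (x : ℕ × ℝ) : |∫ x', kap T x x' * w x x' ∂nu| ≤ 4 * 2 ^ T := by
  have := norm_integral_le_of_norm_le_const (μ := nu) (f := fun x' => kap T x x' * w x x')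
    (C := 4 * 2 ^ T) (Filter.Eventually.of_forall fun x' => kw_le T _ _)
  simpa using this

theorem g1_meas (T : ℕ) : Measurable fun x : ℕ × ℝ =>
    (if x.1 < T then pk x.1 * (16 * 2 ^ x.1) * (2 * cos x.2) else 0) := by
  have hset : MeasurableSet {x : ℕ × ℝ | x.1 < T} := measurable_fst (measurableSet_Iio (a := T))
  have hpkm : Measurable fun x : ℕ × ℝ => pk x.1 := (measurable_of_countable pk).comp measurable_fst
  have h2m : Measurable fun x : ℕ × ℝ => (2 : ℝ) ^ x.1 :=
    (measurable_of_countable (fun k : ℕ => (2 : ℝ) ^ k)).comp measurable_fst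
  exact Measurable.ite hset ((hpkm.mul (measurable_const.mul h2m)).mul (by fun_prop))
    measurable_const

theorem g_meas (T : ℕ) : Measurable (g T) := by
  unfold g
  exact (g1_meas T).add (measurable_const.mul (kw_int_meas T))

theorem g1_le (T : ℕ) (x : ℕ × ℝ) :
    |(if x.1 < T then pk x.1 * (16 * 2 ^ x.1) * (2 * cos x.2) else 0)| ≤
      if x.1 < T then 32 * (pk x.1 * 2 ^ x.1) else 0 := by
  split_ifs with hx
  · have h2 : |(2 : ℝ) * cos x.2| ≤ 2 := by
      rw [abs_mul, abs_two]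
      linarith [abs_cos_le_one x.2]
    have h0 := pk_pos x.1
    rw [abs_mul, abs_of_pos (by positivity)]
    have h3 : (0 : ℝ) ≤ pk x.1 * (16 * 2 ^ x.1) := by positivity
    nlinarith
  · simp

theorem g1_le' (T : ℕ) (x : ℕ × ℝ) :
    |(if x.1 < T then pk x.1 * (16 * 2 ^ x.1) * (2 * cos x.2) else 0)| ≤ 32 * 2 ^ T := by
  refine (g1_le T x).trans ?_
  split_ifs with hx
  · have h0 := pk_pos x.1
    have h1 : pk x.1 ≤ 1 := by
      unfold pk
      rw [div_le_one (by positivity)]
      nlinarith [Nat.cast_nonneg (α := ℝ) x.1]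
    have h3 : (2 : ℝ) ^ x.1 ≤ 2 ^ T := pow_le_pow_right₀ (by norm_num) hx.le
    have h4 : pk x.1 * 2 ^ x.1 ≤ 1 * 2 ^ T := mul_le_mul h1 h3 (by positivity) (by norm_num)
    linarith
  · positivity

theorem g_le (T : ℕ) (x : ℕ × ℝ) : |g T x| ≤ 40 * 2 ^ T := by
  unfold g
  refine (abs_add_le _ _).trans ?_
  rw [abs_mul, abs_two]
  linarith [g1_le' T x, kw_int_le T x]

/-- the conjugate variable relation for the truncated kernel -/
theorem base (T m : ℕ) : ∫ x, g T x * h x ^ m ∂nu = ∑ k ∈ Finset.range m,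
    ((∫ x, h x ^ k ∂nu) * (∫ x, h x ^ (m - 1 - k) ∂nu) -
      (∫ x, q T x * h x ^ k ∂nu) * ∫ x, q T x * h x ^ (m - 1 - k) ∂nu) := by
  rw [step1, step2, step3, ← integral_const_mul, ← integral_add]
  · apply integral_congr_ae
    filter_upwards with x
    unfold g
    ring
  · apply integrable_bd _ (2 * (4 * 2 ^ T * 2 ^ m))
    · intro x
      rw [abs_mul, abs_mul, abs_two]
      exact mul_le_mul_of_nonneg_left
        (mul_le_mul (kw_int_le T x) (hpow_le _ _) (abs_nonneg _) (by positivity)) (by norm_num)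
    · exact measurable_const.mul ((kw_int_meas T).mul (h_meas.pow_const _))
  · apply integrable_bd _ (32 * 2 ^ T * 2 ^ m)
    · intro x
      rw [abs_mul]
      exact mul_le_mul (g1_le' T x) (hpow_le _ _) (abs_nonneg _) (by positivity)
    · exact (g1_meas T).mul (h_meas.pow_const _)

end Pool.Agent.TH254.BS
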