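import Mathlib
import Pool.Agent.TH254.FC.Base2

set_option autoImplicit false
set_option linter.unusedSectionVars false
set_option linter.deprecated false

open scoped InnerProductSpace ENNReal
open MeasureTheory Real

namespace Pool.Agent.TH254.BS

open Pool.Agent.TH254.FS (sig)

theorem u_int (T : ℕ) (x : ℕ × ℝ) : Integrable (fun x' => u T x x') nu := by
  apply integrable_bd _ (2 ^ T)
  · intro x'
    rw [abs_of_pos (u_pos T x x')]
    exact u_le T x x'
  · exact (u_meas T).comp (measurable_const.prodMk measurable_id)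

theorem pk_u (T : ℕ) (x : ℕ × ℝ) (hx : x.1 < T) : pk x.1 * 2 ^ x.1 ≤ ∫ x', u T x x' ∂nu := by
  have h1 := int_block x.1 (fun _ => (2 : ℝ) ^ x.1) measurable_const (2 ^ x.1)
    (fun _ => by rw [abs_of_pos (by positivity)])
  have h2 : ∫ _θ : ℝ, (2 : ℝ) ^ x.1 ∂sig = 2 ^ x.1 := by simp
  rw [h2] at h1
  rw [← h1]
  apply integral_mono
  · apply integrable_bd _ (2 ^ x.1)
    · intro x'
      split_ifs
      · rw [abs_of_pos (by positivity)]
      · rw [abs_zero]; positivity
    · refine Measurable.ite ?_ measurable_const measurable_const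
      exact measurable_fst (measurableSet_singleton x.1)
  · exact u_int T x
  · intro x'
    simp only
    split_ifs with h3
    · unfold u
      have : min (min x.1 x'.1) T = x.1 := by omega
      rw [this]
    · exact (u_pos T x x').le

theorem g_bound (T : ℕ) (x : ℕ × ℝ) : |g T x| ≤ 40 * ∫ x', u T x x' ∂nu := by
  unfold g
  refine (abs_add_le _ _).trans ?_
  rw [abs_mul, abs_two]
  have h0 : 0 ≤ ∫ x', u T x x' ∂nu := integral_nonneg fun x' => (u_pos T x x').le
  have h1 : |(if x.1 < T then pk x.1 * (16 * 2 ^ x.1) * (2 * cos x.2) else 0)| ≤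
      32 * ∫ x', u T x x' ∂nu := by
    refine (g1_le T x).trans ?_
    split_ifs with hx
    · linarith [pk_u T x hx]
    · linarith
  have h2 : |∫ x', kap T x x' * w x x' ∂nu| ≤ 4 * ∫ x', u T x x' ∂nu := by
    have := norm_integral_le_of_norm_le (μ := nu) (f := fun x' => kap T x x' * w x x')
      (g := fun x' => 4 * u T x x') ((u_int T x).const_mul 4)
      (Filter.Eventually.of_forall fun x' => kw_bound T x x')
    rw [integral_const_mul] at this
    exact this
  linarith

theorem jensen {α : Type*} [MeasurableSpace α] {μ : Measure α} [IsProbabilityMeasure μ]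
    {f : α → ℝ} (hf : Integrable f μ) (hf2 : Integrable (fun x => f x ^ 2) μ) :
    (∫ x, f x ∂μ) ^ 2 ≤ ∫ x, f x ^ 2 ∂μ := by
  set c := ∫ x, f x ∂μ with hc
  have h1 : 0 ≤ ∫ x, (f x - c) ^ 2 ∂μ := integral_nonneg fun x => sq_nonneg _
  have h2 : ∫ x, (f x - c) ^ 2 ∂μ = (∫ x, f x ^ 2 ∂μ) - 2 * c * c + c ^ 2 := by
    have e1 : ∀ x, (f x - c) ^ 2 = f x ^ 2 - 2 * c * f x + c ^ 2 := fun x => by ring
    simp only [e1]
    have i1 : Integrable (fun x => f x ^ 2 - 2 * c * f x) μ := hf2.sub (hf.const_mul _)
    rw [integral_add i1 (integrable_const _), integral_sub hf2 (hf.const_mul _),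
      integral_const_mul, ← hc]
    simp
  rw [h2] at h1
  nlinarith

/-- the squared norm of the truncated conjugate variable -/
theorem g_norm (T : ℕ) : ∫ x, g T x ^ 2 ∂nu ≤ 1600 * ∫ x, ∫ x', u T x x' ^ 2 ∂nu ∂nu := by
  have hu2 : ∀ x, Integrable (fun x' => u T x x' ^ 2) nu := by
    intro x
    apply integrable_bd _ ((2 ^ T) ^ 2)
    · intro x'
      rw [abs_of_pos (pow_pos (u_pos T x x') 2)]
      exact pow_le_pow_left₀ (u_pos T x x').le (u_le T x x') 2
    · exact ((u_meas T).comp (measurable_const.prodMk measurable_id)).pow_const 2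
  rw [← integral_const_mul]
  apply integral_mono
  · apply integrable_bd ((g_meas T).pow_const 2) ((40 * 2 ^ T) ^ 2)
    intro x
    rw [abs_pow]
    exact pow_le_pow_left₀ (abs_nonneg _) (g_le T x) 2
  · apply Integrable.const_mul
    apply integrable_bd _ ((2 ^ T) ^ 2)
    · intro x
      have := norm_integral_le_of_norm_le_const (μ := nu) (f := fun x' => u T x x' ^ 2)
        (C := (2 ^ T) ^ 2) (Filter.Eventually.of_forall fun x' => by
          rw [Real.norm_eq_abs, abs_of_pos (pow_pos (u_pos T x x') 2)]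
          exact pow_le_pow_left₀ (u_pos T x x').le (u_le T x x') 2)
      simpa using this
    · exact (((u_meas T).pow_const 2).stronglyMeasurable.integral_prod_right).measurable
  · intro x
    simp only
    have h1 := g_bound T x
    have h2 := jensen (u_int T x) (hu2 x)
    have h3 : g T x ^ 2 ≤ (40 * ∫ x', u T x x' ∂nu) ^ 2 := by
      rw [← sq_abs]
      exact pow_le_pow_left₀ (abs_nonneg _) h1 2
    nlinarith

theorem q_int (T : ℕ) : ∫ x, q T x ∂nu = 1 / (T + 1) := by
  unfold nu
  rw [integral_prod]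
  · have e1 : ∀ k : ℕ, ∫ θ, q T (k, θ) ∂sig = if T ≤ k then (1 : ℝ) else 0 := by
      intro k
      unfold q
      by_cases hk : T ≤ k
      · simp [hk]
      · simp [hk]
    simp only [e1]
    have hi : Integrable (fun k : ℕ => if T ≤ k then (1 : ℝ) else 0) P := by
      apply integrable_bd (measurable_of_countable _) 1
      intro k
      split_ifs <;> simp
    rw [integral_countable' hi]
    simp only [P_real, smul_eq_mul, mul_ite, mul_one, mul_zero]
    have h1 := (pk_hasSum T)
    have h2 : HasSum (fun k => if T ≤ k then pk k else 0) (1 / (T + 1)) := by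
      have h3 : ∀ k ∉ Set.range (fun k : ℕ => k + T), (if T ≤ k then pk k else 0) = 0 := by
        intro k hk
        rw [if_neg]
        intro h
        exact hk ⟨k - T, by simp only; omega⟩
      have hinj : Function.Injective (fun k : ℕ => k + T) := fun a b hab => by
        simp only at hab; omega
      rw [← hinj.hasSum_iff h3]
      have e2 : ((fun k => if T ≤ k then pk k else 0) ∘ fun k => k + T) = fun k => pk (k + T) := by
        funext k
        simp
      rw [e2]
      exact h1
    exact h2.tsum_eq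
  · apply integrable_bd (q_meas T) 1 (q_le T)

theorem h_noatom (c : ℝ) : ∀ᵐ x ∂nu, h x ≠ c := by
  unfold nu
  have hm : MeasurableSet {x : ℕ × ℝ | h x ≠ c} :=
    (h_meas (measurableSet_singleton c)).compl
  rw [Measure.ae_prod_iff_ae_ae hm]
  filter_upwards with k
  have h1 := FS.sig_level ((c - (1 / 2) ^ k) / ((1 / 2) ^ k / 16))
  filter_upwards [h1] with θ hθ
  intro h2
  apply hθ
  rw [h_eq] at h2
  have h3 : (0 : ℝ) < (1 / 2) ^ k / 16 := by positivity
  field_simp
  linarith

theorem qh_bound (T : ℕ) (x : ℕ × ℝ) : |q T x * h x| ≤ 9 / 8 * (1 / 2) ^ T := by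
  unfold q
  split_ifs with hT
  · rw [one_mul, abs_of_pos (h_pos x)]
    have h1 := h_upper x
    have h2 : ((1 : ℝ) / 2) ^ x.1 ≤ (1 / 2) ^ T :=
      pow_le_pow_of_le_one (by norm_num) (by norm_num) hT
    linarith
  · rw [zero_mul, abs_zero]; positivity

theorem q_sq (T : ℕ) (x : ℕ × ℝ) : q T x * q T x = q T x := by
  unfold q
  split_ifs <;> simp

end Pool.Agent.TH254.BS
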