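import Mathlib
import Pool.Agent.TH254.FC.Base3

set_option autoImplicit false
set_option linter.unusedSectionVars false
set_option linter.deprecated false

open scoped ENNReal
open MeasureTheory Real

namespace Pool.Agent.TH254.BS

theorem u_sq (T : ℕ) (x x' : ℕ × ℝ) : u T x x' ^ 2 =
    1 + ∑ m ∈ Finset.range T, 3 * 4 ^ m * (q (m + 1) x * q (m + 1) x') := by
  induction T with
  | zero => simp [u]
  | succ T ih =>
    rw [Finset.sum_range_succ, ← add_assoc, ← ih]
    unfold u q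
    by_cases h1 : T + 1 ≤ x.1
    · by_cases h2 : T + 1 ≤ x'.1
      · have e1 : min (min x.1 x'.1) (T + 1) = T + 1 := by omega
        have e2 : min (min x.1 x'.1) T = T := by omega
        rw [e1, e2, if_pos h1, if_pos h2, ← pow_mul, ← pow_mul]
        have : (2 : ℝ) ^ ((T + 1) * 2) = 4 ^ (T + 1) := by
          rw [mul_comm, pow_mul]; norm_num
        rw [this]
        have : (2 : ℝ) ^ (T * 2) = 4 ^ T := by
          rw [mul_comm, pow_mul]; norm_num
        rw [this]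
        ring
      · have e1 : min (min x.1 x'.1) (T + 1) = min (min x.1 x'.1) T := by omega
        rw [e1, if_neg h2]
        ring
    · have e1 : min (min x.1 x'.1) (T + 1) = min (min x.1 x'.1) T := by omega
      rw [e1, if_neg h1]
      ring

/-- the squared norm bound, computed -/
noncomputable def AT (T : ℕ) : ℝ := 1 + ∑ m ∈ Finset.range T, 3 * 4 ^ m * (1 / ((m : ℝ) + 2)) ^ 2

theorem int_u_sq (T : ℕ) : ∫ x, ∫ x', u T x x' ^ 2 ∂nu ∂nu = AT T := by
  simp only [u_sq]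
  have hq : ∀ m, Integrable (fun x => q m x) nu := fun m => integrable_bd (q_meas m) 1 (q_le m)
  have e1 : ∀ x, ∫ x', (1 + ∑ m ∈ Finset.range T, 3 * 4 ^ m * (q (m + 1) x * q (m + 1) x')) ∂nu =
      1 + ∑ m ∈ Finset.range T, 3 * 4 ^ m * (q (m + 1) x * (1 / ((m : ℝ) + 2))) := by
    intro x
    have hi : ∀ m ∈ Finset.range T, Integrable (fun x' => (3 : ℝ) * 4 ^ m *
        (q (m + 1) x * q (m + 1) x')) nu := fun m _ =>
      (((hq (m + 1)).const_mul _).const_mul _)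
    refine (integral_add (integrable_const 1) (integrable_finset_sum _ hi)).trans ?_
    rw [integral_finset_sum _ hi]
    congr 1
    · simp
    · apply Finset.sum_congr rfl
      intro m _
      rw [integral_const_mul, integral_const_mul, q_int]
      push_cast
      ring
  simp only [e1]
  have hi : ∀ m ∈ Finset.range T, Integrable (fun x => (3 : ℝ) * 4 ^ m *
      (q (m + 1) x * (1 / ((m : ℝ) + 2)))) nu := fun m _ =>
    (((hq (m + 1)).mul_const _).const_mul _)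
  refine (integral_add (integrable_const 1) (integrable_finset_sum _ hi)).trans ?_
  rw [integral_finset_sum _ hi]
  unfold AT
  congr 1
  · simp
  · apply Finset.sum_congr rfl
    intro m _
    rw [integral_const_mul, integral_mul_const, q_int]
    push_cast
    ring

theorem summable_inv_sq (c : ℕ) : Summable fun m : ℕ => (1 / ((m : ℝ) + (c + 1))) ^ 2 := by
  have h1 : Summable fun n : ℕ => 1 / (n : ℝ) ^ 2 := Real.summable_one_div_nat_pow.2 (by norm_num)
  have h2 := (summable_nat_add_iff (c + 1)).2 h1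
  refine h2.congr fun m => ?_
  push_cast
  rw [div_pow, one_pow]

theorem summable_AT : Summable fun T : ℕ => AT T * (1 / 4) ^ T := by
  have h1 : Summable fun T : ℕ => ((1 : ℝ) / 4) ^ T :=
    summable_geometric_of_lt_one (by norm_num) (by norm_num)
  have h2 : Summable fun m : ℕ => (1 / ((m : ℝ) + 2)) ^ 2 := by
    have := summable_inv_sq 1
    norm_num at this ⊢
    exact this
  have h3 := summable_norm_sum_mul_range_of_summable_norm (f := fun m : ℕ => (1 / ((m : ℝ) + 2)) ^ 2)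
    (g := fun T : ℕ => ((1 : ℝ) / 4) ^ T) h2.norm h1.norm
  have h4 : Summable fun T : ℕ => ((1 : ℝ) / 4) ^ T * 1 +
      3 * ‖∑ k ∈ Finset.range (T + 1), (1 / ((k : ℝ) + 2)) ^ 2 * ((1 : ℝ) / 4) ^ (T - k)‖ :=
    (h1.mul_right 1).add (h3.mul_left 3)
  refine Summable.of_nonneg_of_le (fun T => ?_) (fun T => ?_) h4
  · unfold AT
    positivity
  · rw [Real.norm_eq_abs, abs_of_nonneg (Finset.sum_nonneg fun k _ => by positivity)]
    unfold AT
    rw [Finset.sum_range_succ, add_mul, one_mul, mul_one, Finset.sum_mul, mul_add, Finset.mul_sum]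
    have e1 : ∀ k ∈ Finset.range T, 3 * 4 ^ k * (1 / ((k : ℝ) + 2)) ^ 2 * (1 / 4) ^ T =
        3 * ((1 / ((k : ℝ) + 2)) ^ 2 * (1 / 4) ^ (T - k)) := by
      intro k hk
      have hk' := Finset.mem_range.1 hk
      have : (1 / 4 : ℝ) ^ T = (1 / 4) ^ (T - k) * (1 / 4) ^ k := by
        rw [← pow_add]
        congr 1
        omega
      rw [this]
      have h4k : (4 : ℝ) ^ k * (1 / 4) ^ k = 1 := by
        rw [← mul_pow]; norm_num
      calc 3 * 4 ^ k * (1 / ((k : ℝ) + 2)) ^ 2 * ((1 / 4) ^ (T - k) * (1 / 4) ^ k) =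
          3 * ((1 / ((k : ℝ) + 2)) ^ 2 * (1 / 4) ^ (T - k)) * (4 ^ k * (1 / 4) ^ k) := by ring
        _ = _ := by rw [h4k, mul_one]
    rw [Finset.sum_congr rfl e1]
    have : 0 ≤ 3 * ((1 / ((T : ℝ) + 2)) ^ 2 * (1 / 4) ^ (T - T)) := by positivity
    linarith

/-- the dyadic intervals -/
theorem exists_T (t : ℝ) (h0 : 0 < t) (h1 : t ≤ 1) :
    ∃ T : ℕ, t ∈ Set.Ioc ((1 / 4 : ℝ) ^ (T + 1)) ((1 / 4) ^ T) := by
  obtain ⟨n, hn1, hn2⟩ := exists_nat_pow_near_of_lt_one h0 h1 (by norm_num : (0 : ℝ) < 1 / 4)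
    (by norm_num)
  exact ⟨n, hn1, hn2⟩

theorem small_part (α : ℝ → ℝ≥0∞) (G : ℕ → ℝ) (hG : ∀ T, G T ≤ 1600 * AT T)
    (hα : ∀ t : ℝ, 0 < t → ∀ T : ℕ, α t ≤ ENNReal.ofReal (2 * G T + 2 / (t * (T + 1) ^ 2))) :
    ∫⁻ t in Set.Ioc (0 : ℝ) 1, α t < ⊤ := by
  have hsub : Set.Ioc (0 : ℝ) 1 ⊆ ⋃ T : ℕ, Set.Ioc ((1 / 4 : ℝ) ^ (T + 1)) ((1 / 4) ^ T) := by
    intro t ht
    obtain ⟨T, hT⟩ := exists_T t ht.1 ht.2
    exact Set.mem_iUnion.2 ⟨T, hT⟩
  refine (lintegral_mono_set hsub).trans_lt ?_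
  refine (lintegral_iUnion_le _ _).trans_lt ?_
  have hc : ∀ T : ℕ, ∫⁻ t in Set.Ioc ((1 / 4 : ℝ) ^ (T + 1)) ((1 / 4) ^ T), α t ≤
      ENNReal.ofReal (3200 * (AT T * (1 / 4) ^ T) + 8 * (1 / ((T : ℝ) + 1)) ^ 2) := by
    intro T
    have h1 : ∀ t ∈ Set.Ioc ((1 / 4 : ℝ) ^ (T + 1)) ((1 / 4) ^ T), α t ≤
        ENNReal.ofReal (3200 * AT T + 8 * 4 ^ T * (1 / ((T : ℝ) + 1)) ^ 2) := by
      intro t ht
      have ht0 : 0 < t := lt_trans (by positivity) ht.1
      refine (hα t ht0 T).trans (ENNReal.ofReal_le_ofReal ?_)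
      have h2 : 2 / (t * ((T : ℝ) + 1) ^ 2) ≤ 8 * 4 ^ T * (1 / ((T : ℝ) + 1)) ^ 2 := by
        have h3 : 1 / t ≤ 4 * 4 ^ T := by
          rw [div_le_iff₀ ht0]
          have h4 : (4 : ℝ) * 4 ^ T * (1 / 4) ^ (T + 1) = 1 := by
            rw [pow_succ (1 / 4 : ℝ) T]
            have : (4 : ℝ) ^ T * (1 / 4) ^ T = 1 := by rw [← mul_pow]; norm_num
            linear_combination this
          have h5 : (4 : ℝ) * 4 ^ T * (1 / 4) ^ (T + 1) ≤ 4 * 4 ^ T * t :=
            mul_le_mul_of_nonneg_left ht.1.le (by positivity)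
          linarith
        have h6 : 2 / (t * ((T : ℝ) + 1) ^ 2) = 2 * (1 / t) * (1 / ((T : ℝ) + 1)) ^ 2 := by
          field_simp
        rw [h6]
        have h7 : 2 * (1 / t) ≤ 8 * 4 ^ T := by linarith
        exact mul_le_mul_of_nonneg_right h7 (by positivity)
      linarith [hG T]
    refine (setLIntegral_mono measurable_const h1).trans ?_
    rw [setLIntegral_const, Real.volume_Ioc, ← ENNReal.ofReal_mul (by unfold AT; positivity)]
    apply ENNReal.ofReal_le_ofReal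
    have h8 : (1 / 4 : ℝ) ^ T - (1 / 4) ^ (T + 1) ≤ (1 / 4) ^ T := by
      have : (0 : ℝ) < (1 / 4) ^ (T + 1) := by positivity
      linarith
    have h9 : 0 ≤ 3200 * AT T + 8 * 4 ^ T * (1 / ((T : ℝ) + 1)) ^ 2 := by unfold AT; positivity
    refine (mul_le_mul_of_nonneg_left h8 h9).trans (le_of_eq ?_)
    have : (4 : ℝ) ^ T * (1 / 4) ^ T = 1 := by rw [← mul_pow]; norm_num
    linear_combination (8 * (1 / ((T : ℝ) + 1)) ^ 2) * this
  refine (ENNReal.tsum_le_tsum hc).trans_lt ?_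
  have hs : Summable fun T : ℕ => 3200 * (AT T * (1 / 4) ^ T) + 8 * (1 / ((T : ℝ) + 1)) ^ 2 := by
    have h2 := summable_inv_sq 0
    norm_num at h2
    refine (summable_AT.mul_left 3200).add (Summable.mul_left 8 ?_)
    refine h2.congr fun m => ?_
    simp
  rw [← ENNReal.ofReal_tsum_of_nonneg _ hs]
  · exact ENNReal.ofReal_lt_top
  · intro T
    unfold AT
    positivity

theorem tail_int (c : ℝ) : ∫⁻ t in Set.Ioi (1 : ℝ), ENNReal.ofReal (c / t ^ 2) < ⊤ := by
  have h1 : IntegrableOn (fun t : ℝ => t ^ (-2 : ℝ)) (Set.Ioi 1) :=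
    integrableOn_Ioi_rpow_of_lt (by norm_num) (by norm_num)
  have h2 : IntegrableOn (fun t : ℝ => c / t ^ 2) (Set.Ioi 1) := by
    have h3 : IntegrableOn (fun t : ℝ => c * t ^ (-2 : ℝ)) (Set.Ioi 1) := h1.const_mul c
    refine h3.congr_fun ?_ measurableSet_Ioi
    intro t ht
    have ht' : (0 : ℝ) < t := lt_trans one_pos ht
    have h4 : t ^ (-2 : ℝ) = (t ^ 2)⁻¹ := by
      rw [Real.rpow_neg ht'.le]
      norm_num
    change c * t ^ (-2 : ℝ) = c / t ^ 2
    rw [h4, div_eq_mul_inv]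
  exact h2.lintegral_lt_top

theorem split_Ioi (f : ℝ → ℝ≥0∞) : ∫⁻ t in Set.Ioi (0 : ℝ), f t ≤
    (∫⁻ t in Set.Ioc (0 : ℝ) 1, f t) + ∫⁻ t in Set.Ioi (1 : ℝ), f t := by
  have : Set.Ioi (0 : ℝ) = Set.Ioc 0 1 ∪ Set.Ioi 1 := (Set.Ioc_union_Ioi_eq_Ioi zero_le_one).symm
  rw [this]
  exact lintegral_union_le _ _ _

/-- the negative part for the first tuple -/
theorem neg_fin (f α β : ℝ → ℝ≥0∞) (G : ℕ → ℝ) (hG : ∀ T, G T ≤ 1600 * AT T)
    (hf : ∀ t : ℝ, 0 < t → f t = α t + β t)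
    (hβ : ∀ t : ℝ, 0 < t → β t ≤ ENNReal.ofReal (1 / (1 + t)))
    (hα : ∀ t : ℝ, 0 < t → ∀ T : ℕ, α t ≤ ENNReal.ofReal (2 * G T + 2 / (t * (T + 1) ^ 2)))
    (hα' : ∀ t : ℝ, 0 < t → α t ≤ ENNReal.ofReal (1 / t)) :
    ∫⁻ t in Set.Ioi (0 : ℝ), (f t - ENNReal.ofReal (2 / (1 + t))) < ⊤ := by
  refine (split_Ioi _).trans_lt (ENNReal.add_lt_top.2 ⟨?_, ?_⟩)
  · refine lt_of_le_of_lt ?_ (small_part α G hG hα)
    refine setLIntegral_mono' measurableSet_Ioc fun t ht => ?_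
    rw [hf t ht.1, tsub_le_iff_right]
    gcongr
    refine (hβ t ht.1).trans (ENNReal.ofReal_le_ofReal ?_)
    have : 0 < 1 + t := by linarith [ht.1]
    gcongr
    norm_num
  · refine lt_of_le_of_lt ?_ (tail_int 1)
    refine setLIntegral_mono' measurableSet_Ioi fun t ht => ?_
    have ht' : (0 : ℝ) < t := lt_trans one_pos ht
    have h1t : 0 < 1 + t := by linarith
    rw [hf t ht', tsub_le_iff_right, ← ENNReal.ofReal_add (by positivity) (by positivity)]
    refine (add_le_add (hα' t ht') (hβ t ht')).trans ?_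
    rw [← ENNReal.ofReal_add (by positivity) (by positivity)]
    apply ENNReal.ofReal_le_ofReal
    have h3 : 1 / t - 1 / (1 + t) ≤ 1 / t ^ 2 := by
      rw [div_sub_div _ _ ht'.ne' h1t.ne', div_le_div_iff₀ (by positivity) (by positivity)]
      nlinarith
    have h4 : 2 / (1 + t) = 1 / (1 + t) + 1 / (1 + t) := by ring
    rw [h4]
    linarith

/-- the positive part -/
theorem pos_fin (f α β : ℝ → ℝ≥0∞) (a : ℝ) (ha : 1 ≤ a)
    (hf : ∀ t : ℝ, 0 < t → f t = α t + β t)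
    (hα : ∀ t : ℝ, 0 < t → ENNReal.ofReal (1 / (a + t)) ≤ α t)
    (hβ : ∀ t : ℝ, 0 < t → ENNReal.ofReal (1 / (a + t)) ≤ β t) :
    ∫⁻ t in Set.Ioi (0 : ℝ), (ENNReal.ofReal (2 / (1 + t)) - f t) < ⊤ := by
  refine (split_Ioi _).trans_lt (ENNReal.add_lt_top.2 ⟨?_, ?_⟩)
  · have h1 : ∀ t ∈ Set.Ioc (0 : ℝ) 1, ENNReal.ofReal (2 / (1 + t)) - f t ≤ ENNReal.ofReal 2 := by
      intro t ht
      refine tsub_le_self.trans (ENNReal.ofReal_le_ofReal ?_)
      rw [div_le_iff₀ (by linarith [ht.1])]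
      linarith [ht.1]
    refine (setLIntegral_mono measurable_const h1).trans_lt ?_
    rw [setLIntegral_const, Real.volume_Ioc]
    exact ENNReal.mul_lt_top ENNReal.ofReal_lt_top ENNReal.ofReal_lt_top
  · refine lt_of_le_of_lt ?_ (tail_int (2 * a))
    refine setLIntegral_mono' measurableSet_Ioi fun t ht => ?_
    have ht' : (0 : ℝ) < t := lt_trans one_pos ht
    have h1t : 0 < 1 + t := by linarith
    have hat : 0 < a + t := by linarith
    rw [tsub_le_iff_right, hf t ht']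
    refine le_trans ?_ (add_le_add_right (add_le_add (hα t ht') (hβ t ht')) _)
    rw [← ENNReal.ofReal_add (by positivity) (by positivity),
      ← ENNReal.ofReal_add (by positivity) (by positivity)]
    apply ENNReal.ofReal_le_ofReal
    have h3 : 1 / (1 + t) - 1 / (a + t) ≤ a / t ^ 2 := by
      rw [div_sub_div _ _ h1t.ne' hat.ne', div_le_div_iff₀ (by positivity) (by positivity)]
      have h5 : (1 : ℝ) * (a + t) - (1 + t) * 1 = a - 1 := by ring
      rw [h5]
      have h6 : t ^ 2 ≤ (1 + t) * (a + t) := by nlinarith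
      have h7 : (a - 1) * t ^ 2 ≤ (a - 1) * ((1 + t) * (a + t)) :=
        mul_le_mul_of_nonneg_left h6 (by linarith)
      have h8 : 0 ≤ (1 + t) * (a + t) := by positivity
      nlinarith
    have h4 : 2 / (1 + t) = 1 / (1 + t) + 1 / (1 + t) := by ring
    have h9 : 2 * a / t ^ 2 = 2 * (a / t ^ 2) := by ring
    rw [h4, h9]
    linarith

/-- divergence of the negative part for the second tuple -/
theorem neg_inf (f : ℝ → ℝ≥0∞)
    (hf : ∀ t : ℝ, 0 < t → ∀ T : ℕ, (1 / 4 : ℝ) ^ T ≤ t →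
      ENNReal.ofReal (1 / (588 * t * (T + 1))) ≤ f t) :
    ∫⁻ t in Set.Ioi (0 : ℝ), (f t - ENNReal.ofReal (2 / (1 + t))) = ⊤ := by
  -- the integral of `f` over `(0,1]` is infinite
  have h1 : ∫⁻ t in Set.Ioc (0 : ℝ) 1, f t = ⊤ := by
    rw [eq_top_iff]
    have hdis : Pairwise (Function.onFun Disjoint fun n : ℕ =>
        Set.Ioc ((1 / 4 : ℝ) ^ (n + 1)) ((1 / 4) ^ n)) := by
      intro m n hmn
      rw [Function.onFun, Set.disjoint_left]
      intro t htm htn
      rcases lt_or_gt_of_ne hmn with h | h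
      · have : ((1 : ℝ) / 4) ^ n ≤ (1 / 4) ^ (m + 1) :=
          pow_le_pow_of_le_one (by norm_num) (by norm_num) h
        linarith [htm.1, htn.2]
      · have : ((1 : ℝ) / 4) ^ m ≤ (1 / 4) ^ (n + 1) :=
          pow_le_pow_of_le_one (by norm_num) (by norm_num) h
        linarith [htn.1, htm.2]
    have hsub : (⋃ n : ℕ, Set.Ioc ((1 / 4 : ℝ) ^ (n + 1)) ((1 / 4) ^ n)) ⊆ Set.Ioc (0 : ℝ) 1 := by
      intro t ht
      obtain ⟨n, hn⟩ := Set.mem_iUnion.1 ht
      refine ⟨lt_trans (by positivity) hn.1, hn.2.trans ?_⟩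
      exact pow_le_one₀ (by norm_num) (by norm_num)
    refine le_trans ?_ (lintegral_mono_set hsub)
    rw [lintegral_iUnion (fun n => measurableSet_Ioc) hdis]
    have hc : ∀ n : ℕ, ENNReal.ofReal (1 / 784 * (1 / ((n : ℝ) + 2))) ≤
        ∫⁻ t in Set.Ioc ((1 / 4 : ℝ) ^ (n + 1)) ((1 / 4) ^ n), f t := by
      intro n
      have h2 : ∀ t ∈ Set.Ioc ((1 / 4 : ℝ) ^ (n + 1)) ((1 / 4) ^ n),
          ENNReal.ofReal (4 ^ n / (588 * ((n : ℝ) + 2))) ≤ f t := by
        intro t ht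
        have ht0 : 0 < t := lt_trans (by positivity) ht.1
        refine le_trans (ENNReal.ofReal_le_ofReal ?_) (hf t ht0 (n + 1) ht.1.le)
        rw [div_le_div_iff₀ (by positivity) (by positivity)]
        have h3 : (4 : ℝ) ^ n * t ≤ 1 := by
          have h4 : (4 : ℝ) ^ n * t ≤ 4 ^ n * (1 / 4) ^ n :=
            mul_le_mul_of_nonneg_left ht.2 (by positivity)
          have h5 : (4 : ℝ) ^ n * (1 / 4) ^ n = 1 := by rw [← mul_pow]; norm_num
          linarith
        push_cast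
        have h6 : (4 : ℝ) ^ n * (588 * t * ((n : ℝ) + 1 + 1)) =
            (4 ^ n * t) * (588 * ((n : ℝ) + 2)) := by ring
        rw [h6]
        exact mul_le_mul_of_nonneg_right h3 (by positivity)
      refine le_trans ?_ (setLIntegral_mono' measurableSet_Ioc h2)
      rw [setLIntegral_const, Real.volume_Ioc, ← ENNReal.ofReal_mul (by positivity)]
      apply ENNReal.ofReal_le_ofReal
      apply le_of_eq
      have h5 : (4 : ℝ) ^ n * (1 / 4) ^ n = 1 := by rw [← mul_pow]; norm_num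
      have h6 : (4 : ℝ) ^ n / (588 * ((n : ℝ) + 2)) * ((1 / 4) ^ n - (1 / 4) ^ (n + 1)) =
          (4 ^ n * (1 / 4) ^ n) * (3 / 4) / (588 * ((n : ℝ) + 2)) := by
        rw [pow_succ]; ring
      rw [h6, h5]
      field_simp
      norm_num
    refine le_trans ?_ (ENNReal.tsum_le_tsum hc)
    rw [top_le_iff]
    by_contra hne
    have hs : Summable fun n : ℕ => 1 / 784 * (1 / ((n : ℝ) + 2)) := by
      have h2 := ENNReal.summable_toReal hne
      refine h2.congr fun n => ?_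
      rw [ENNReal.toReal_ofReal (by positivity)]
    have hs2 : Summable fun n : ℕ => 1 / ((n : ℝ) + 2) := by
      have := hs.mul_left 784
      refine this.congr fun n => ?_
      ring
    have hs3 : Summable fun n : ℕ => 1 / (n : ℝ) := by
      rw [← summable_nat_add_iff 2]
      refine hs2.congr fun n => ?_
      push_cast
      rfl
    exact Real.not_summable_one_div_natCast hs3
  have hg : Measurable fun t : ℝ => ENNReal.ofReal (2 / (1 + t)) := by fun_prop
  have h2 : ∫⁻ t in Set.Ioc (0 : ℝ) 1, ENNReal.ofReal (2 / (1 + t)) < ⊤ := by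
    have h1 : ∀ t ∈ Set.Ioc (0 : ℝ) 1, ENNReal.ofReal (2 / (1 + t)) ≤ ENNReal.ofReal 2 := by
      intro t ht
      refine (ENNReal.ofReal_le_ofReal ?_)
      rw [div_le_iff₀ (by linarith [ht.1])]
      linarith [ht.1]
    refine (setLIntegral_mono measurable_const h1).trans_lt ?_
    rw [setLIntegral_const, Real.volume_Ioc]
    exact ENNReal.mul_lt_top ENNReal.ofReal_lt_top ENNReal.ofReal_lt_top
  have h3 : (⊤ : ℝ≥0∞) ≤ (∫⁻ t in Set.Ioc (0 : ℝ) 1, (f t - ENNReal.ofReal (2 / (1 + t)))) +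
      ∫⁻ t in Set.Ioc (0 : ℝ) 1, ENNReal.ofReal (2 / (1 + t)) := by
    rw [← lintegral_add_right _ hg, ← h1]
    exact lintegral_mono fun t => le_tsub_add
  have h4 : ∫⁻ t in Set.Ioc (0 : ℝ) 1, (f t - ENNReal.ofReal (2 / (1 + t))) = ⊤ := by
    by_contra hne
    exact absurd h3 (not_le.2 (ENNReal.add_lt_top.2 ⟨lt_top_iff_ne_top.2 hne, h2⟩))
  rw [eq_top_iff, ← h4]
  exact lintegral_mono_set Set.Ioc_subset_Ioi_self

end Pool.Agent.TH254.BS
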