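import Mathlib
import Pool.Agent.TH254.FC.Base3

set_option autoImplicit false
set_option linter.unusedSectionVars false
set_option linter.deprecated false

/-! The concrete operators. -/

open scoped InnerProductSpace ENNReal
open MeasureTheory Real

namespace Pool.Agent.TH254.CO

open Pool.Agent.TH254.FC Pool.Agent.TH254.FM Pool.Agent.TH254.MU Pool.Agent.TH254.BS

/-- the properties of the operators which are used -/
structure Core {K : Type} [NormedAddCommGroup K] [InnerProductSpace ℂ K] [CompleteSpace K]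
    (A : Subalgebra ℂ (K →L[ℂ] K)) (Ω : K) (y : K →L[ℂ] K) (q g : ℕ → K →L[ℂ] K) : Prop where
  yA : y ∈ A
  qA : ∀ T, q T ∈ A
  gA : ∀ T, g T ∈ A
  ys : IsSelfAdjoint y
  qs : ∀ T, IsSelfAdjoint (q T)
  gs : ∀ T, IsSelfAdjoint (g T)
  qq : ∀ T, q T * q T = q T
  eig : ∀ (c : ℂ) (v : K), y v = c • v → v = 0
  base : ∀ T m : ℕ, tau Ω (g T * y ^ m) = ∑ k ∈ Finset.range m,
      (tau Ω (y ^ k) * tau Ω (y ^ (m - 1 - k)) -
        tau Ω (q T * y ^ k) * tau Ω (q T * y ^ (m - 1 - k)))
  yq : ∀ (T : ℕ) (v : K), ‖(q T * y) v‖ ≤ 9 / 8 * (1 / 2) ^ T * ‖v‖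
  yn : ∀ v : K, ‖y v‖ ≤ 2 * ‖v‖
  qn : ∀ T : ℕ, tau Ω (q T) = ((1 / (T + 1) : ℝ) : ℂ)
  gn : ∀ T : ℕ, ‖g T Ω‖ ^ 2 ≤ 1600 * ∫ x, ∫ x', u T x x' ^ 2 ∂nu ∂nu

theorem exists_core (I : Type) [Fintype I] [DecidableEq I] : ∃ (K : Type) (_ : NormedAddCommGroup K)
    (_ : InnerProductSpace ℂ K) (_ : CompleteSpace K) (A : Subalgebra ℂ (K →L[ℂ] K)) (Ω : K)
    (l : I → K →L[ℂ] K) (y : K →L[ℂ] K) (q g : ℕ → K →L[ℂ] K),
    Fock A Ω l ∧ Core A Ω y q g := by
  obtain ⟨w, b, -⟩ := exists_hilbertBasis ℂ (Lp ℂ 2 nu)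
  have F := FM.fock (I := I) b (e0 nu) norm_e0 (mulAlg nu) mulAlg_comm mulAlg_star
  -- the functions
  have bh : BM (fun x : ℕ × ℝ => ((BS.h x : ℝ) : ℂ)) :=
    ⟨Complex.measurable_ofReal.comp h_meas, 2, fun x => by
      rw [Complex.norm_real]; exact h_le x⟩
  have bq : ∀ T, BM (fun x : ℕ × ℝ => ((BS.q T x : ℝ) : ℂ)) := fun T =>
    ⟨Complex.measurable_ofReal.comp (q_meas T), 1, fun x => by
      rw [Complex.norm_real]; exact q_le T x⟩
  have bg : ∀ T, BM (fun x : ℕ × ℝ => ((BS.g T x : ℝ) : ℂ)) := fun T =>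
    ⟨Complex.measurable_ofReal.comp (g_meas T), 40 * 2 ^ T, fun x => by
      rw [Complex.norm_real]; exact g_le T x⟩
  obtain ⟨Y, hY⟩ := exists_mul (ν := nu) bh
  choose Q hQ using fun T => exists_mul (ν := nu) (bq T)
  choose G hG using fun T => exists_mul (ν := nu) (bg T)
  have sa : ∀ (S : Lp ℂ 2 nu →L[ℂ] Lp ℂ 2 nu) (φ : ℕ × ℝ → ℝ),
      BM (fun x : ℕ × ℝ => ((φ x : ℝ) : ℂ)) → IsMul nu S (fun x => ((φ x : ℝ) : ℂ)) →
      star S = S := by
    intro S φ h1 h2
    have h3 := h2.adj h1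
    simp only [Complex.conj_ofReal] at h3
    exact h3.unique h2
  set L := (lamHom w I : (Lp ℂ 2 nu →L[ℂ] Lp ℂ 2 nu) →⋆ₐ[ℂ]
    (KK (Lp ℂ 2 nu) w I →L[ℂ] KK (Lp ℂ 2 nu) w I)) with hL
  have Lap : ∀ S, L S = lam w I S := fun S => rfl
  have tauL : ∀ S φ, IsMul nu S φ → tau (vac w I (e0 nu)) (L S) = ∫ x, φ x ∂nu := by
    intro S φ hS
    rw [Lap, tau_lam, inner_e0 hS]
  have nrm : ∀ (S : Lp ℂ 2 nu →L[ℂ] Lp ℂ 2 nu) (C : ℝ), 0 ≤ C → (∀ f, ‖S f‖ ≤ C * ‖f‖) →
      ∀ v, ‖L S v‖ ≤ C * ‖v‖ := by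
    intro S C hC h v
    have h1 : ‖S‖ ≤ C := ContinuousLinearMap.opNorm_le_bound _ hC h
    have h2 : ‖lam w I S‖ ≤ ‖S‖ := LinearMap.mkContinuous_norm_le _ (norm_nonneg _) _
    rw [Lap]
    exact ((lam w I S).le_opNorm v).trans
      (mul_le_mul_of_nonneg_right (h2.trans h1) (norm_nonneg _))
  refine ⟨KK (Lp ℂ 2 nu) w I, inferInstance, inferInstance, inferInstance, _,
    vac w I (e0 nu), ell b (e0 nu), L Y, fun T => L (Q T), fun T => L (G T), F, ?_⟩
  refine
    { yA := ⟨Y, ⟨_, bh, hY⟩, rfl⟩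
      qA := fun T => ⟨Q T, ⟨_, bq T, hQ T⟩, rfl⟩
      gA := fun T => ⟨G T, ⟨_, bg T, hG T⟩, rfl⟩
      ys := by
        show star (L Y) = L Y
        rw [← map_star, sa Y _ bh hY]
      qs := by
        intro T
        show star (L (Q T)) = L (Q T)
        rw [← map_star, sa (Q T) _ (bq T) (hQ T)]
      gs := by
        intro T
        show star (L (G T)) = L (G T)
        rw [← map_star, sa (G T) _ (bg T) (hG T)]
      qq := by
        intro T
        rw [← map_mul]
        congr 1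
        apply IsMul.unique _ (hQ T)
        intro f
        filter_upwards [((hQ T).mul (hQ T)) f] with x hx
        rw [hx]
        have := q_sq T x
        norm_cast
        rw [this]
      eig := by
        intro c v hv
        apply lp.ext
        funext z
        have h1 : Y (v z) = c • v z := by
          have := congrArg (fun f : KK (Lp ℂ 2 nu) w I => f z) hv
          exact this
        have h2 : v z = 0 := by
          refine no_eigen hY c ?_ (v z) h1
          filter_upwards [h_noatom c.re] with x hx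
          intro h3
          apply hx
          rw [← h3, Complex.ofReal_re]
        exact h2
      base := ?_
      yq := by
        intro T v
        rw [← map_mul]
        apply nrm _ _ (by positivity)
        intro f
        apply norm_le ((hQ T).mul hY)
        intro x
        rw [← Complex.ofReal_mul, Complex.norm_real]
        exact qh_bound T x
      yn := by
        intro v
        apply nrm _ _ (by norm_num)
        intro f
        apply norm_le hY
        intro x
        rw [Complex.norm_real]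
        exact h_le x
      qn := by
        intro T
        rw [tauL _ _ (hQ T), ← q_int T, ← integral_complex_ofReal]
      gn := by
        intro T
        rw [Lap, lam_vac, norm_vac, norm_sq_e0 (hG T)]
        refine le_trans (le_of_eq ?_) (g_norm T)
        apply integral_congr_ae
        filter_upwards with x
        rw [Complex.norm_real, Real.norm_eq_abs, sq_abs] }
  intro T m
  have e1 : ∀ (k : ℕ), tau (vac w I (e0 nu)) (L Y ^ k) = ((∫ x, BS.h x ^ k ∂nu : ℝ) : ℂ) := by
    intro k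
    rw [← map_pow, tauL _ _ (hY.pow k), ← integral_complex_ofReal]
    apply integral_congr_ae
    filter_upwards with x
    push_cast
    rfl
  have e2 : ∀ (k : ℕ), tau (vac w I (e0 nu)) (L (Q T) * L Y ^ k) =
      ((∫ x, BS.q T x * BS.h x ^ k ∂nu : ℝ) : ℂ) := by
    intro k
    rw [← map_pow, ← map_mul, tauL _ _ ((hQ T).mul (hY.pow k)), ← integral_complex_ofReal]
    apply integral_congr_ae
    filter_upwards with x
    push_cast
    rfl
  have e3 : ∀ (k : ℕ), tau (vac w I (e0 nu)) (L (G T) * L Y ^ k) =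
      ((∫ x, BS.g T x * BS.h x ^ k ∂nu : ℝ) : ℂ) := by
    intro k
    rw [← map_pow, ← map_mul, tauL _ _ ((hG T).mul (hY.pow k)), ← integral_complex_ofReal]
    apply integral_congr_ae
    filter_upwards with x
    push_cast
    rfl
  simp only [e1, e2, e3]
  rw [BS.base T m]
  push_cast
  rfl

end Pool.Agent.TH254.CO
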