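import Mathlib
import Pool.Agent.TH254.FC.Calc4
import Pool.Agent.TH254.FC.Core

set_option autoImplicit false
set_option linter.unusedSectionVars false
set_option linter.deprecated false

open scoped InnerProductSpace

namespace Pool.Agent.TH254.AL

open Pool.Agent.TH254.FC

variable {K : Type} [NormedAddCommGroup K] [InnerProductSpace ℂ K] [CompleteSpace K]
variable {I : Type} [Fintype I] [DecidableEq I]
variable {A : Subalgebra ℂ (K →L[ℂ] K)} {Ω : K} {l : I → K →L[ℂ] K}

/-- the star algebra of words whose letters do not involve the indices in `J` -/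
noncomputable def WA (F : Fock A Ω l) (J : Set I) : StarSubalgebra ℂ (K →L[ℂ] K) where
  carrier := Wd l (fun x : A × (I → ℂ) => ∀ j ∈ J, x.2 j = 0)
  mul_mem' := by
    intro a b ha hb
    simp only [SetLike.mem_coe] at *
    induction ha using Submodule.span_induction with
    | mem a ha =>
      obtain ⟨L, hL, rfl⟩ := ha
      induction hb using Submodule.span_induction with
      | mem b hb =>
        obtain ⟨L', hL', rfl⟩ := hb
        refine Submodule.subset_span ⟨L ++ L', ?_, (pr_append L L').symm⟩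
        intro x hx
        rcases List.mem_append.1 hx with hx | hx
        · exact hL x hx
        · exact hL' x hx
      | zero => rw [mul_zero]; exact Submodule.zero_mem _
      | add x y _ _ hx hy => rw [mul_add]; exact Submodule.add_mem _ hx hy
      | smul c x _ hx => rw [mul_smul_comm]; exact Submodule.smul_mem _ _ hx
    | zero => rw [zero_mul]; exact Submodule.zero_mem _
    | add x y _ _ hx hy => rw [add_mul]; exact Submodule.add_mem _ hx hy
    | smul c x _ hx => rw [smul_mul_assoc]; exact Submodule.smul_mem _ _ hx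
  one_mem' := Submodule.subset_span ⟨[], by simp, by simp⟩
  add_mem' := fun ha hb => Submodule.add_mem _ ha hb
  zero_mem' := Submodule.zero_mem _
  algebraMap_mem' := by
    intro r
    rw [Algebra.algebraMap_eq_smul_one]
    exact Submodule.smul_mem _ _ (Submodule.subset_span ⟨[], by simp, by simp⟩)
  star_mem' := fun ha => Wd_star F J _ ha

variable (F : Fock A Ω l)

theorem mem_WA (J : Set I) (b : K →L[ℂ] K) :
    b ∈ WA F J ↔ b ∈ Wd l (fun x : A × (I → ℂ) => ∀ j ∈ J, x.2 j = 0) := Iff.rfl

theorem WA_mono {J J' : Set I} (h : J ⊆ J') : WA F J' ≤ WA F J := by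
  intro b hb
  rw [mem_WA] at *
  refine Submodule.span_mono ?_ hb
  rintro b ⟨L, hL, rfl⟩
  exact ⟨L, fun x hx j hj => hL x hx j (h hj), rfl⟩

theorem A_mem (J : Set I) (a : K →L[ℂ] K) (ha : a ∈ A) : a ∈ WA F J := by
  refine Submodule.subset_span ⟨[lt ⟨a, ha⟩], ?_, ?_⟩
  · intro x hx j _
    simp only [List.mem_singleton] at hx
    subst hx
    rfl
  · simp [pr_cons, op_lt F]

theorem s_mem (J : Set I) (i : I) (hi : i ∉ J) : l i + star (l i) ∈ WA F J := by
  refine Submodule.subset_span ⟨[ls i], ?_, ?_⟩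
  · intro x hx j hj
    simp only [List.mem_singleton] at hx
    subst hx
    simp only [ls]
    rw [Pi.single_apply, if_neg]
    rintro rfl
    exact hi hj
  · simp [pr_cons, op_ls F]

/-- the norm closure -/
noncomputable def CA (J : Set I) : StarSubalgebra ℂ (K →L[ℂ] K) := (WA F J).topologicalClosure

theorem CA_ind (J : Set I) {p : (K →L[ℂ] K) → Prop} (hc : IsClosed {b | p b})
    (hp : ∀ b ∈ WA F J, p b) (b : K →L[ℂ] K) (hb : b ∈ CA F J) : p b := by
  have h1 : (CA F J : Set (K →L[ℂ] K)) = closure (WA F J : Set (K →L[ℂ] K)) :=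
    StarSubalgebra.topologicalClosure_coe _
  have h2 : b ∈ closure (WA F J : Set (K →L[ℂ] K)) := by rw [← h1]; exact hb
  exact (closure_minimal (fun b hb => hp b hb) hc) h2

theorem WA_le_CA (J : Set I) : WA F J ≤ CA F J := StarSubalgebra.le_topologicalClosure _

theorem CA_mono {J J' : Set I} (h : J ⊆ J') : CA F J' ≤ CA F J :=
  StarSubalgebra.topologicalClosure_mono (WA_mono F h)

theorem CA_closed (J : Set I) : IsClosed (CA F J : Set (K →L[ℂ] K)) :=
  StarSubalgebra.isClosed_topologicalClosure _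

theorem tau_cont : Continuous fun b : K →L[ℂ] K => tau Ω b := by
  unfold tau
  exact continuous_const.inner (ContinuousLinearMap.apply ℂ K Ω).continuous

theorem CA_compress (J : Set I) (b : K →L[ℂ] K) (hb : b ∈ CA F J) (i : I) (hi : i ∈ J) (v : K) :
    star (l i) (b (l i v)) = tau Ω b • v := by
  refine CA_ind F J (p := fun b => star (l i) (b (l i v)) = tau Ω b • v) ?_ ?_ b hb
  · apply isClosed_eq
    · exact (star (l i)).continuous.comp (ContinuousLinearMap.apply ℂ K (l i v)).continuous
    · exact (tau_cont).smul continuous_const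
  · intro b hb
    have := Wd_compress F J b hb i i hi hi v
    rw [if_pos rfl] at this
    exact this

theorem CA_annih (J : Set I) (b : K →L[ℂ] K) (hb : b ∈ CA F J) (i : I) (hi : i ∈ J) :
    star (l i) (b Ω) = 0 := by
  refine CA_ind F J (p := fun b => star (l i) (b Ω) = 0) ?_ ?_ b hb
  · apply isClosed_eq
    · exact (star (l i)).continuous.comp (ContinuousLinearMap.apply ℂ K Ω).continuous
    · exact continuous_const
  · intro b hb
    exact Wd_annih F J b hb i hi

theorem WA_trace (a b : K →L[ℂ] K) (ha : a ∈ WA F ∅) (hb : b ∈ WA F ∅) :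
    tau Ω (a * b) = tau Ω (b * a) := by
  rw [mem_WA] at ha hb
  induction ha using Submodule.span_induction with
  | mem a ha =>
    obtain ⟨L, hL, rfl⟩ := ha
    induction hb using Submodule.span_induction with
    | mem b hb =>
      obtain ⟨L', hL', rfl⟩ := hb
      have := T_comm F L L'
      simpa [T, pr_append, tau] using this
    | zero => rw [mul_zero, zero_mul]
    | add x y _ _ hx hy =>
      rw [mul_add, add_mul]
      simp only [tau, ContinuousLinearMap.add_apply, inner_add_right] at hx hy ⊢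
      rw [hx, hy]
    | smul c x _ hx =>
      rw [mul_smul_comm, smul_mul_assoc]
      simp only [tau, ContinuousLinearMap.smul_apply, inner_smul_right] at hx ⊢
      rw [hx]
  | zero => rw [mul_zero, zero_mul]
  | add x y _ _ hx hy =>
    rw [mul_add, add_mul]
    simp only [tau, ContinuousLinearMap.add_apply, inner_add_right] at hx hy ⊢
    rw [hx, hy]
  | smul c x _ hx =>
    rw [mul_smul_comm, smul_mul_assoc]
    simp only [tau, ContinuousLinearMap.smul_apply, inner_smul_right] at hx ⊢
    rw [hx]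

theorem CA_trace (a b : K →L[ℂ] K) (ha : a ∈ CA F ∅) (hb : b ∈ CA F ∅) :
    tau Ω (a * b) = tau Ω (b * a) := by
  have h1 : ∀ a ∈ WA F ∅, ∀ b ∈ CA F ∅, tau Ω (a * b) = tau Ω (b * a) := by
    intro a ha b hb
    refine CA_ind F ∅ (p := fun b => tau Ω (a * b) = tau Ω (b * a)) ?_ ?_ b hb
    · apply isClosed_eq
      · exact tau_cont.comp (continuous_const.mul continuous_id)
      · exact tau_cont.comp (continuous_id.mul continuous_const)
    · intro b hb
      exact WA_trace F a b ha hb
  refine CA_ind F ∅ (p := fun a => tau Ω (a * b) = tau Ω (b * a)) ?_ ?_ a ha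
  · apply isClosed_eq
    · exact tau_cont.comp (continuous_id.mul continuous_const)
    · exact tau_cont.comp (continuous_const.mul continuous_id)
  · intro a ha
    exact h1 a ha b hb

include F in
theorem norm_l (i : I) (v : K) : ‖l i v‖ = ‖v‖ := by
  have h := isom F i v
  have h2 : ⟪l i v, l i v⟫_ℂ = ⟪v, v⟫_ℂ := by
    rw [← ContinuousLinearMap.adjoint_inner_right, ← ContinuousLinearMap.star_eq_adjoint, h]
  rw [inner_self_eq_norm_sq_to_K, inner_self_eq_norm_sq_to_K] at h2
  have h3 : ‖l i v‖ ^ 2 = ‖v‖ ^ 2 := by exact_mod_cast h2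
  exact (sq_eq_sq₀ (norm_nonneg _) (norm_nonneg _)).1 h3

include F in
theorem norm_lstar (i : I) (v : K) : ‖star (l i) v‖ ≤ ‖v‖ := by
  have h1 : ‖l i‖ ≤ 1 := ContinuousLinearMap.opNorm_le_bound _ zero_le_one fun v => by
    rw [norm_l F, one_mul]
  have h2 : ‖star (l i)‖ ≤ 1 := by rw [norm_star]; exact h1
  calc ‖star (l i) v‖ ≤ ‖star (l i)‖ * ‖v‖ := (star (l i)).le_opNorm v
    _ ≤ 1 * ‖v‖ := by gcongr
    _ = ‖v‖ := one_mul _

include F in
theorem norm_s (i : I) (v : K) : ‖(l i + star (l i)) v‖ ≤ 2 * ‖v‖ := by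
  rw [ContinuousLinearMap.add_apply]
  refine (norm_add_le _ _).trans ?_
  rw [norm_l F]
  linarith [norm_lstar F i v]

theorem nsq (x : K) : ((‖x‖ ^ 2 : ℝ) : ℂ) = ⟪x, x⟫_ℂ := by
  rw [inner_self_eq_norm_sq_to_K]
  push_cast
  rfl

/-- squares of norms as moments -/
theorem norm_sq_tau (b : K →L[ℂ] K) : ((‖b Ω‖ ^ 2 : ℝ) : ℂ) = tau Ω (star b * b) := by
  rw [tau, ContinuousLinearMap.mul_apply, ContinuousLinearMap.star_eq_adjoint,
    ContinuousLinearMap.adjoint_inner_right, inner_self_eq_norm_sq_to_K]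
  push_cast
  rfl

theorem norm_star_eq (b : K →L[ℂ] K) (hb : b ∈ CA F ∅) : ‖(star b) Ω‖ = ‖b Ω‖ := by
  have h1 := norm_sq_tau (Ω := Ω) (star b)
  have h2 := norm_sq_tau (Ω := Ω) b
  rw [star_star, CA_trace F b (star b) hb (star_mem hb), ← h2] at h1
  have h3 : ‖(star b) Ω‖ ^ 2 = ‖b Ω‖ ^ 2 := by exact_mod_cast h1
  exact (sq_eq_sq₀ (norm_nonneg _) (norm_nonneg _)).1 h3

/-- the norm of `b l_i c Ω` -/
theorem norm_blc (J : Set I) (b : K →L[ℂ] K) (hb : b ∈ CA F J) (i : I) (hi : i ∈ J) (v : K) :
    ‖b (l i v)‖ = ‖b Ω‖ * ‖v‖ := by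
  have h1 := CA_compress F J (star b * b) (mul_mem (star_mem hb) hb) i hi v
  have h2 : ⟪b (l i v), b (l i v)⟫_ℂ = tau Ω (star b * b) * ⟪v, v⟫_ℂ := by
    rw [← inner_smul_right, ← h1, ContinuousLinearMap.star_eq_adjoint (l i),
      ContinuousLinearMap.adjoint_inner_right, ContinuousLinearMap.mul_apply,
      ContinuousLinearMap.star_eq_adjoint, ContinuousLinearMap.adjoint_inner_right]
  rw [← norm_sq_tau, ← nsq, ← nsq] at h2
  have h3 : ‖b (l i v)‖ ^ 2 = (‖b Ω‖ * ‖v‖) ^ 2 := by
    rw [mul_pow]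
    exact_mod_cast h2
  exact (sq_eq_sq₀ (norm_nonneg _) (by positivity)).1 h3

end Pool.Agent.TH254.AL
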