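import Mathlib
import Pool.Agent.TH254.FC.Split
import Pool.Agent.TH254.FC.Defs

set_option autoImplicit false
set_option linter.unusedSectionVars false
set_option linter.deprecated false

open scoped InnerProductSpace ENNReal
open MeasureTheory

namespace Pool.Agent.TH254.FI

open Pool.Agent.TH254.FC Pool.Agent.TH254.FE

theorem ddq_sp {V : Type*} {n : ℕ} (x : Fin n → V) (c : V → ℂ) (i : Fin n)
    (hc : ∀ j, c (x j) = if j = i then 1 else 0) (Φ Ψ : List V → ℂ) (w : List (Fin n)) :
    ∑ k : Fin w.length, (if w.get k = i then Φ ((w.take k).map x) *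
      Ψ ((w.drop (k + 1)).map x) else 0) = sp c Φ Ψ (w.map x) := by
  induction w generalizing Φ with
  | nil => simp
  | cons j w ih =>
    rw [List.map_cons, sp_cons, hc]
    have h1 := Fin.sum_univ_succ (n := w.length) (fun k : Fin (w.length + 1) =>
      (if (j :: w).get k = i then Φ (((j :: w).take k).map x) *
        Ψ (((j :: w).drop (k + 1)).map x) else 0))
    refine h1.trans ?_
    congr 1
    · simp only [Fin.val_zero, List.take_zero, List.map_nil, zero_add,
        List.drop_succ_cons, List.drop_zero, smul_eq_mul]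
      have : (j :: w).get (0 : Fin (w.length + 1)) = j := rfl
      rw [this]
      split_ifs <;> simp
    · rw [← ih]
      apply Finset.sum_congr rfl
      intro k _
      rfl

variable {K : Type} [NormedAddCommGroup K] [InnerProductSpace ℂ K] [CompleteSpace K] {n : ℕ}

/-- a vector satisfying the conjugate relations bounds the term of the Fisher information -/
theorem term_le (ω : K) (X : Fin n → (K →L[ℂ] K)) (i : Fin n) (η : K)
    (h : ∀ w : List (Fin n), ⟪η, (w.map X).prod ω⟫_ℂ = ddq ω X i w) :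
    (⨅ (ξ : K) (_ : IsConj ω X i ξ), ‖ξ‖ₑ ^ 2) ≤ ‖η‖ₑ ^ 2 := by
  set W := (Submodule.span ℂ (Set.range fun w : List (Fin n) =>
    (w.map X).prod ω)).topologicalClosure with hW
  have hc : IsClosed (W : Set K) := Submodule.isClosed_topologicalClosure _
  have : CompleteSpace W := hc.completeSpace_coe
  set p : K := W.starProjection η with hp
  have h1 : IsConj ω X i p := by
    refine ⟨?_, ?_⟩
    · have : p ∈ W := Submodule.starProjection_apply_mem _ _
      exact this
    · intro w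
      rw [← h w]
      have hw : (w.map X).prod ω ∈ W :=
        Submodule.le_topologicalClosure _ (Submodule.subset_span ⟨w, rfl⟩)
      have h2 : W.starProjection ((w.map X).prod ω) = (w.map X).prod ω :=
        Submodule.starProjection_eq_self_iff.2 hw
      rw [hp]
      conv_rhs => rw [← h2]
      exact Submodule.inner_starProjection_left_eq_right W η _
  refine (iInf₂_le p h1).trans ?_
  have h3 : ‖p‖ ≤ ‖η‖ := Submodule.norm_starProjection_apply_le W η
  have h4 : ‖p‖ₑ ≤ ‖η‖ₑ := by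
    rw [← ofReal_norm, ← ofReal_norm]
    exact ENNReal.ofReal_le_ofReal h3
  gcongr

/-- lower bounds for the conjugate variables -/
theorem le_term (ω : K) (X : Fin n → (K →L[ℂ] K)) (i : Fin n) (c : ℝ)
    (h : ∀ ξ : K, IsConj ω X i ξ → c ≤ ‖ξ‖ ^ 2) :
    ENNReal.ofReal c ≤ ⨅ (ξ : K) (_ : IsConj ω X i ξ), ‖ξ‖ₑ ^ 2 := by
  refine le_iInf₂ fun ξ hξ => ?_
  rw [← ofReal_norm, ← ENNReal.ofReal_pow (norm_nonneg _)]
  exact ENNReal.ofReal_le_ofReal (h ξ hξ)

theorem ddq_single (ω : K) (X : Fin n → (K →L[ℂ] K)) (i : Fin n) (hω : ‖ω‖ = 1) :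
    ddq ω X i [i] = 1 := by
  unfold ddq
  have h1 := ddq_sp (fun j : Fin n => j) (fun j : Fin n => if j = i then 1 else 0) i
    (fun j => rfl) (mom ω X) (mom ω X) [i]
  simp only [List.map_id_fun', id_eq] at h1
  rw [h1]
  have : mom ω X [] = 1 := by
    simp [mom, inner_self_eq_norm_sq_to_K, hω]
  simp [sp_cons, this]

/-- Cramér-Rao: the conjugate variable has norm at least `1/‖X_i ω‖` -/
theorem cramer (ω : K) (X : Fin n → (K →L[ℂ] K)) (i : Fin n) (hω : ‖ω‖ = 1) (ξ : K)
    (h : IsConj ω X i ξ) (a : ℝ) (ha : 0 < a) (hX : ‖X i ω‖ ^ 2 ≤ a) : 1 / a ≤ ‖ξ‖ ^ 2 := by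
  have h1 := h.2 [i]
  rw [ddq_single ω X i hω] at h1
  simp only [List.map_cons, List.map_nil, List.prod_cons, List.prod_nil, mul_one] at h1
  have h2 : (1 : ℝ) ≤ ‖ξ‖ * ‖X i ω‖ := by
    have := norm_inner_le_norm (𝕜 := ℂ) ξ (X i ω)
    rw [h1, norm_one] at this
    exact this
  rw [div_le_iff₀ ha]
  have h3 : (1 : ℝ) ≤ (‖ξ‖ * ‖X i ω‖) ^ 2 := one_le_pow₀ h2
  have h4 : (‖ξ‖ * ‖X i ω‖) ^ 2 ≤ ‖ξ‖ ^ 2 * a := by
    rw [mul_pow]
    exact mul_le_mul_of_nonneg_left hX (by positivity)
  linarith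

end Pool.Agent.TH254.FI
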