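import Mathlib
import Pool.Agent.TH254.FC.Alg
import Pool.Agent.TH254.FC.Fish

set_option autoImplicit false
set_option linter.unusedSectionVars false
set_option linter.deprecated false

open scoped InnerProductSpace

namespace Pool.Agent.TH254.LW

open Pool.Agent.TH254.FC Pool.Agent.TH254.FE Pool.Agent.TH254.AL Pool.Agent.TH254.CO

variable {K : Type} [NormedAddCommGroup K] [InnerProductSpace ℂ K] [CompleteSpace K]

/-- positivity of the functional calculus -/
theorem cfc_nn (X : K →L[ℂ] K) (_hX : IsSelfAdjoint X) (f : ℝ → ℝ) (hf : Continuous f)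
    (h0 : ∀ x, 0 ≤ f x) (v : K) : 0 ≤ (⟪v, (cfc f X) v⟫_ℂ).re := by
  have h1 : cfc f X = star (cfc (fun x => Real.sqrt (f x)) X) * cfc (fun x => Real.sqrt (f x)) X := by
    have hs : star (cfc (fun x => Real.sqrt (f x)) X) = cfc (fun x => Real.sqrt (f x)) X :=
      (cfc_predicate (fun x => Real.sqrt (f x)) X : IsSelfAdjoint _)
    rw [hs, ← cfc_mul (fun x => Real.sqrt (f x)) (fun x => Real.sqrt (f x)) X
      (by fun_prop) (by fun_prop)]
    congr 1
    funext x
    exact (Real.mul_self_sqrt (h0 x)).symm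
  rw [h1, ContinuousLinearMap.mul_apply, ContinuousLinearMap.star_eq_adjoint,
    ContinuousLinearMap.adjoint_inner_right]
  exact inner_self_nonneg (𝕜 := ℂ)

/-- comparison of functions in the functional calculus -/
theorem cfc_le' (X : K →L[ℂ] K) (hX : IsSelfAdjoint X) (f g : ℝ → ℝ) (hf : Continuous f)
    (hg : Continuous g) (h : ∀ x, f x ≤ g x) (v : K) :
    (⟪v, (cfc f X) v⟫_ℂ).re ≤ (⟪v, (cfc g X) v⟫_ℂ).re := by
  have h1 := cfc_nn X hX (fun x => g x - f x) (hg.sub hf) (fun x => sub_nonneg.2 (h x)) v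
  rw [cfc_sub g f X (by fun_prop) (by fun_prop)] at h1
  simp only [ContinuousLinearMap.sub_apply, inner_sub_right, Complex.sub_re] at h1
  linarith

/-- the cutoff function -/
noncomputable def cut (t : ℝ) (x : ℝ) : ℝ := Real.sqrt (max 0 (1 - x ^ 2 / (64 * t)))

theorem cut_cont (t : ℝ) : Continuous (cut t) := by
  unfold cut; fun_prop

theorem cut_sq (t x : ℝ) : cut t x * cut t x = max 0 (1 - x ^ 2 / (64 * t)) := by
  unfold cut
  exact Real.mul_self_sqrt (le_max_left _ _)

theorem cut_nonneg (t x : ℝ) : 0 ≤ cut t x := Real.sqrt_nonneg _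

theorem cut_le_one (t x : ℝ) (ht : 0 < t) : cut t x ≤ 1 := by
  unfold cut
  rw [Real.sqrt_le_one]
  apply max_le zero_le_one
  have : 0 ≤ x ^ 2 / (64 * t) := by positivity
  linarith

variable (X : K →L[ℂ] K) (hX : IsSelfAdjoint X) (t : ℝ) (ht : 0 < t)
include hX

theorem aa : cfc (cut t) X * cfc (cut t) X = cfc (fun x => cut t x * cut t x) X :=
  (cfc_mul (cut t) (cut t) X (cut_cont t).continuousOn (cut_cont t).continuousOn).symm

theorem a_star : star (cfc (cut t) X) = cfc (cut t) X :=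
  (cfc_predicate (cut t) X : IsSelfAdjoint _)

theorem a_comm : cfc (cut t) X * X = X * cfc (cut t) X := by
  have h1 : cfc (fun x : ℝ => x) X = X := cfc_id' ℝ X
  have e1 : cfc (cut t) X * cfc (fun x : ℝ => x) X = cfc (fun x : ℝ => x) X * cfc (cut t) X := by
    rw [← cfc_mul (cut t) (fun x => x) X (cut_cont t).continuousOn continuousOn_id,
      ← cfc_mul (fun x => x) (cut t) X continuousOn_id (cut_cont t).continuousOn]
    congr 1
    funext x
    ring
  rw [h1] at e1
  exact e1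

theorem inner_cfc_star (f : ℝ → ℝ) (v : K) :
    ((‖(cfc f X) v‖ ^ 2 : ℝ)) = (⟪v, (cfc f X * cfc f X) v⟫_ℂ).re := by
  have hs : star (cfc f X) = cfc f X := (cfc_predicate f X : IsSelfAdjoint _)
  conv_rhs => rw [← hs]
  rw [hs, ContinuousLinearMap.mul_apply]
  conv_rhs => rw [← hs]
  rw [ContinuousLinearMap.star_eq_adjoint, ContinuousLinearMap.adjoint_inner_right]
  have : ContinuousLinearMap.adjoint (cfc f X) = cfc f X := hs
  rw [this, inner_self_eq_norm_sq_to_K]
  norm_cast

/-- `‖X a v‖² ≤ 64 t ‖a v‖²` -/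
theorem Xa (ht : 0 < t) (v : K) : ‖X ((cfc (cut t) X) v)‖ ^ 2 ≤ 64 * t * ‖(cfc (cut t) X) v‖ ^ 2 := by
  have h1 : cfc (fun x : ℝ => x) X = X := cfc_id' ℝ X
  have e1 : X * cfc (cut t) X = cfc (fun x => x * cut t x) X := by
    rw [cfc_mul (fun x => x) (cut t) X continuousOn_id (cut_cont t).continuousOn, h1]
  have e2 : X ((cfc (cut t) X) v) = (cfc (fun x => x * cut t x) X) v := by
    rw [← e1]; rfl
  rw [e2, inner_cfc_star X hX, inner_cfc_star X hX, aa X hX t]
  have e3 : cfc (fun x => x * cut t x) X * cfc (fun x => x * cut t x) X =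
      cfc (fun x => (x * cut t x) * (x * cut t x)) X :=
    (cfc_mul _ _ X (by have := cut_cont t; fun_prop) (by have := cut_cont t; fun_prop)).symm
  rw [e3]
  have e4 : (64 * t) * (⟪v, (cfc (fun x => cut t x * cut t x) X) v⟫_ℂ).re =
      (⟪v, (cfc (fun x => (64 * t) * (cut t x * cut t x)) X) v⟫_ℂ).re := by
    rw [cfc_const_mul (64 * t) (fun x => cut t x * cut t x) X
      (by have := cut_cont t; fun_prop)]
    simp
  rw [e4]
  apply cfc_le' X hX
  · have := cut_cont t; fun_prop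
  · have := cut_cont t; fun_prop
  · intro x
    have h2 := cut_sq t x
    have h3 : (x * cut t x) * (x * cut t x) = x ^ 2 * (cut t x * cut t x) := by ring
    rw [h3, h2]
    by_cases hx : 1 - x ^ 2 / (64 * t) ≤ 0
    · rw [max_eq_left hx]; simp
    · push Not at hx
      rw [max_eq_right hx.le]
      apply mul_le_mul_of_nonneg_right _ hx.le
      have : x ^ 2 / (64 * t) < 1 := by linarith
      rw [div_lt_one (by positivity)] at this
      exact this.le

/-- `‖v‖² - ‖a v‖² ≤ ‖X v‖²/(64 t)` -/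
theorem one_sub_aa (v : K) :
    ‖v‖ ^ 2 - ‖(cfc (cut t) X) v‖ ^ 2 ≤ ‖X v‖ ^ 2 / (64 * t) := by
  have h1 : cfc (fun x : ℝ => x) X = X := cfc_id' ℝ X
  rw [inner_cfc_star X hX, aa X hX t]
  have e2 : ‖X v‖ ^ 2 = (⟪v, (cfc (fun x : ℝ => x * x) X) v⟫_ℂ).re := by
    have := inner_cfc_star X hX (fun x => x) v
    rw [h1] at this
    rw [this, cfc_mul (fun x : ℝ => x) (fun x : ℝ => x) X continuousOn_id continuousOn_id, h1]
  have e3 : ‖v‖ ^ 2 = (⟪v, (cfc (fun _ : ℝ => (1 : ℝ)) X) v⟫_ℂ).re := by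
    rw [cfc_const_one ℝ X, ContinuousLinearMap.one_apply, inner_self_eq_norm_sq_to_K]
    norm_cast
  have e4 : ‖X v‖ ^ 2 / (64 * t) = (⟪v, (cfc (fun x => (1 / (64 * t)) * (x * x)) X) v⟫_ℂ).re := by
    rw [cfc_const_mul (1 / (64 * t)) (fun x => x * x) X (by fun_prop), e2]
    simp
    ring
  rw [e4, e3]
  have h5 := cfc_le' X hX (fun _ => 1) (fun x => cut t x * cut t x + (1 / (64 * t)) * (x * x))
    (by fun_prop) (by have := cut_cont t; fun_prop) (fun x => by
      rw [cut_sq]
      have := le_max_right 0 (1 - x ^ 2 / (64 * t))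
      have h6 : (1 / (64 * t)) * (x * x) = x ^ 2 / (64 * t) := by ring
      rw [h6]
      linarith) v
  rw [cfc_add X (fun x => cut t x * cut t x) (fun x => (1 / (64 * t)) * (x * x))
    (by have := cut_cont t; fun_prop) (by fun_prop), ContinuousLinearMap.add_apply,
    inner_add_right, Complex.add_re] at h5
  linarith

/-- `⟪v, a v⟫ ≥ ‖a v‖²` -/
theorem a_ge (ht : 0 < t) (v : K) :
    ‖(cfc (cut t) X) v‖ ^ 2 ≤ (⟪v, (cfc (cut t) X) v⟫_ℂ).re := by
  rw [inner_cfc_star X hX, aa X hX t]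
  apply cfc_le' X hX
  · have := cut_cont t; fun_prop
  · exact cut_cont t
  · intro x
    have h1 := cut_nonneg t x
    have h2 := cut_le_one t x ht
    nlinarith

end Pool.Agent.TH254.LW
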