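import Mathlib
import Pool.Agent.TH254.FC.Lower
import Pool.Agent.TH254.FC.Tr

set_option autoImplicit false
set_option linter.unusedSectionVars false
set_option linter.deprecated false

open scoped InnerProductSpace

namespace Pool.Agent.TH254.LW

open Pool.Agent.TH254.FC Pool.Agent.TH254.FE Pool.Agent.TH254.AL Pool.Agent.TH254.CO

variable {K : Type} [NormedAddCommGroup K] [InnerProductSpace ℂ K] [CompleteSpace K]

/-- the conjugate relation tested on elements of the closed algebra generated by `X 0` -/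
theorem conj_test (Ω : K) (hΩ : ‖Ω‖ = 1) (X : Fin 2 → (K →L[ℂ] K)) (hX : IsSelfAdjoint (X 0))
    (ξ : K) (hξ : IsConj Ω X 1 ξ) (f : ℝ → ℝ) :
    ⟪ξ, (cfc f (X 0)) (X 1 Ω)⟫_ℂ = ⟪Ω, (cfc f (X 0)) Ω⟫_ℂ := by
  have hm : ∀ m : ℕ, ⟪ξ, (X 0 ^ m) (X 1 Ω)⟫_ℂ = ⟪Ω, (X 0 ^ m) Ω⟫_ℂ := by
    intro m
    have h1 := hξ.2 (List.replicate m 0 ++ [1])
    have h2 : ((List.replicate m (0 : Fin 2) ++ [1]).map X).prod Ω = (X 0 ^ m) (X 1 Ω) := by
      simp
    rw [h2] at h1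
    rw [h1]
    unfold ddq
    have h3 := FI.ddq_sp (fun j : Fin 2 => j) (fun j : Fin 2 => if j = 1 then 1 else 0) 1
      (fun j => rfl) (mom Ω X) (mom Ω X) (List.replicate m 0 ++ [1])
    simp only [List.map_id_fun', id_eq] at h3
    rw [h3, sp_snoc, sp_coef_zero]
    · simp [mom, inner_self_eq_norm_sq_to_K, hΩ]
    · intro x hx
      have := List.eq_of_mem_replicate hx
      rw [this]
      simp
  have hP : ∀ b ∈ StarAlgebra.adjoin ℂ {X 0}, ⟪ξ, b (X 1 Ω)⟫_ℂ = ⟪Ω, b Ω⟫_ℂ := by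
    intro b hb
    have h1 : b ∈ Algebra.adjoin ℂ {X 0} := by
      have h2 : (StarAlgebra.adjoin ℂ {X 0}).toSubalgebra =
          Algebra.adjoin ℂ ({X 0} ∪ star {X 0}) := StarAlgebra.adjoin_toSubalgebra _ _
      have h3 : ({X 0} ∪ star {X 0} : Set (K →L[ℂ] K)) = {X 0} := by
        rw [Set.star_singleton, hX.star_eq, Set.union_self]
      rw [h3] at h2
      rw [← h2]
      exact hb
    rw [Algebra.adjoin_singleton_eq_range_aeval] at h1
    obtain ⟨p, rfl⟩ := h1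
    clear hb
    induction p using Polynomial.induction_on' with
    | add p q hp hq =>
      simp only [AlgHom.toRingHom_eq_coe, RingHom.coe_coe, map_add,
        ContinuousLinearMap.add_apply, inner_add_right] at hp hq ⊢
      rw [hp, hq]
    | monomial n c =>
      simp only [AlgHom.toRingHom_eq_coe, RingHom.coe_coe, Polynomial.aeval_monomial,
        Algebra.algebraMap_eq_smul_one, smul_mul_assoc, one_mul,
        ContinuousLinearMap.smul_apply, inner_smul_right]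
      rw [hm n]
  -- closure
  set PP := (StarAlgebra.adjoin ℂ {X 0}).topologicalClosure with hPP
  have hcl : IsClosed (PP : Set (K →L[ℂ] K)) := StarSubalgebra.isClosed_topologicalClosure _
  have hmem : cfc f (X 0) ∈ PP := by
    apply cfc_mem (𝕜' := ℂ) (hs := hcl)
    exact StarSubalgebra.le_topologicalClosure _ (StarAlgebra.subset_adjoin ℂ _ rfl)
  have h1 : (PP : Set (K →L[ℂ] K)) = closure ((StarAlgebra.adjoin ℂ {X 0} :
      StarSubalgebra ℂ (K →L[ℂ] K)) : Set (K →L[ℂ] K)) :=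
    StarSubalgebra.topologicalClosure_coe _
  have h2 : cfc f (X 0) ∈ closure ((StarAlgebra.adjoin ℂ {X 0} :
      StarSubalgebra ℂ (K →L[ℂ] K)) : Set (K →L[ℂ] K)) := by rw [← h1]; exact hmem
  have h3 : IsClosed {b : K →L[ℂ] K | ⟪ξ, b (X 1 Ω)⟫_ℂ = ⟪Ω, b Ω⟫_ℂ} := by
    apply isClosed_eq
    · exact continuous_const.inner (ContinuousLinearMap.apply ℂ K (X 1 Ω)).continuous
    · exact continuous_const.inner (ContinuousLinearMap.apply ℂ K Ω).continuous
  exact closure_minimal (fun b hb => hP b hb) h3 h2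

variable {A : Subalgebra ℂ (K →L[ℂ] K)} {Ω : K} {l : Fin 3 → K →L[ℂ] K}
variable {y : K →L[ℂ] K} {q g : ℕ → K →L[ℂ] K}

/-- the semicircular elements are self-adjoint -/
theorem s_sa (l : Fin 3 → K →L[ℂ] K) (i : Fin 3) : IsSelfAdjoint (l i + star (l i)) := by
  show star (l i + star (l i)) = l i + star (l i)
  rw [star_add, star_star, add_comm]

theorem smul_sa (x : K →L[ℂ] K) (hx : IsSelfAdjoint x) (r : ℝ) :
    IsSelfAdjoint ((r : ℂ) • x) := by
  show star ((r : ℂ) • x) = (r : ℂ) • x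
  rw [star_smul, hx.star_eq]
  simp

theorem norm_q (C : Core A Ω y q g) (T : ℕ) (v : K) : ‖q T v‖ ≤ ‖v‖ := by
  have h1 : ⟪q T v, q T v⟫_ℂ = ⟪v, q T v⟫_ℂ := by
    have hs : star (q T) = q T := C.qs T
    conv_lhs => rw [← hs]
    rw [TR.adjL, hs]
    have := congrArg (fun S : K →L[ℂ] K => S v) (C.qq T)
    simp only [ContinuousLinearMap.mul_apply] at this
    rw [this]
  have h2 : ‖q T v‖ ^ 2 ≤ ‖v‖ * ‖q T v‖ := by
    have h3 : ((‖q T v‖ ^ 2 : ℝ) : ℂ) = ⟪v, q T v⟫_ℂ := by rw [nsq, h1]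
    have h4 := norm_inner_le_norm (𝕜 := ℂ) v (q T v)
    rw [← h3, Complex.norm_real, Real.norm_eq_abs, abs_of_nonneg (by positivity)] at h4
    exact h4
  by_cases h0 : ‖q T v‖ = 0
  · rw [h0]; exact norm_nonneg _
  · have : 0 < ‖q T v‖ := lt_of_le_of_ne (norm_nonneg _) (Ne.symm h0)
    nlinarith

theorem norm_qΩ (C : Core A Ω y q g) (T : ℕ) : ‖q T Ω‖ ^ 2 = 1 / (T + 1) := by
  have h1 := norm_sq_tau (Ω := Ω) (q T)
  rw [(C.qs T).star_eq, C.qq T, C.qn T] at h1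
  exact_mod_cast h1

theorem lower (F : Fock A Ω l) (C : Core A Ω y q g) (t : ℝ) (ht : 0 < t) (T : ℕ)
    (hT : (1 / 4 : ℝ) ^ T ≤ t) (X : Fin 2 → (K →L[ℂ] K))
    (h0 : X 0 = y + (Real.sqrt t : ℂ) • (l 1 + star (l 1)))
    (h1 : X 1 = y * (l 0 + star (l 0)) * y + (Real.sqrt t : ℂ) • (l 2 + star (l 2)))
    (ξ : K) (hξ : IsConj Ω X 1 ξ) : 1 / (588 * t * (T + 1)) ≤ ‖ξ‖ ^ 2 := by
  have hX : IsSelfAdjoint (X 0) := by
    rw [h0]
    exact C.ys.add (smul_sa _ (s_sa l 1) _)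
  set a := cfc (cut t) (X 0) with ha
  have hst : 0 < Real.sqrt t := Real.sqrt_pos.2 ht
  have hst2 : Real.sqrt t * Real.sqrt t = t := Real.mul_self_sqrt ht.le
  have hstn : ‖(Real.sqrt t : ℂ)‖ = Real.sqrt t := by
    rw [Complex.norm_real, Real.norm_eq_abs, abs_of_pos hst]
  -- memberships
  have hyW : ∀ J : Set (Fin 3), y ∈ CA F J := fun J => WA_le_CA F J (A_mem F J y C.yA)
  have hqW : ∀ J : Set (Fin 3), q T ∈ CA F J := fun J => WA_le_CA F J (A_mem F J _ (C.qA T))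
  have hsW : ∀ (J : Set (Fin 3)) (i : Fin 3), i ∉ J → l i + star (l i) ∈ CA F J :=
    fun J i hi => WA_le_CA F J (s_mem F J i hi)
  have hX0 : X 0 ∈ CA F {0, 2} := by
    rw [h0]
    exact add_mem (hyW _) (SMulMemClass.smul_mem _ (hsW _ 1 (by decide)))
  have haC : a ∈ CA F {0, 2} := by
    have hcl := CA_closed F {0, 2}
    exact cfc_mem (𝕜' := ℂ) (hs := hcl) (cut t) hX0
  have haE : a ∈ CA F ∅ := CA_mono F (Set.empty_subset _) haC
  have has : star a = a := a_star (X 0) hX t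
  -- the norm of `a Ω`
  set N := ‖a Ω‖ with hN
  have hN0 : 0 ≤ N := norm_nonneg _
  -- (i)
  have i1 : N ^ 2 ≤ ‖ξ‖ * ‖a (X 1 Ω)‖ := by
    have h2 := a_ge (X 0) hX t ht Ω
    rw [← ha, ← hN] at h2
    have h3 := conj_test Ω F.norm X hX ξ hξ (cut t)
    rw [← ha] at h3
    rw [← h3] at h2
    refine h2.trans ((Complex.re_le_norm _).trans ?_)
    exact norm_inner_le_norm (𝕜 := ℂ) ξ _
  -- (iii)
  have hyn : ‖y Ω‖ ≤ 2 := by
    have := C.yn Ω
    rw [F.norm] at this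
    linarith
  have i3 : ‖(a * y) Ω‖ ≤ 10 * Real.sqrt t * N := by
    have e1 : (a * y) Ω = a (X 0 Ω) - (Real.sqrt t : ℂ) • a ((l 1 + star (l 1)) Ω) := by
      rw [h0, ContinuousLinearMap.mul_apply, ContinuousLinearMap.add_apply, map_add,
        ContinuousLinearMap.smul_apply, map_smul]
      abel
    have e2 : ‖a (X 0 Ω)‖ ≤ 8 * Real.sqrt t * N := by
      have h2 : a (X 0 Ω) = X 0 (a Ω) := by
        have := congrArg (fun S : K →L[ℂ] K => S Ω) (a_comm (X 0) hX t)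
        simpa using this
      rw [h2]
      have h3 := Xa (X 0) hX t ht Ω
      rw [← ha, ← hN] at h3
      have h4 : ‖X 0 (a Ω)‖ ^ 2 ≤ (8 * Real.sqrt t * N) ^ 2 := by
        have : (8 * Real.sqrt t * N) ^ 2 = 64 * (Real.sqrt t * Real.sqrt t) * N ^ 2 := by ring
        rw [this, hst2]
        exact h3
      exact (sq_le_sq₀ (norm_nonneg _) (by positivity)).1 h4
    have e3 : ‖a ((l 1 + star (l 1)) Ω)‖ ≤ 2 * N := by
      have h2 := norm_star_eq F (a * (l 1 + star (l 1)))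
        (mul_mem haE (hsW ∅ 1 (by simp)))
      rw [star_mul, has, (s_sa l 1).star_eq] at h2
      rw [← ContinuousLinearMap.mul_apply, ← h2, ContinuousLinearMap.mul_apply]
      exact norm_s F 1 (a Ω)
    rw [e1]
    refine (norm_sub_le _ _).trans ?_
    rw [norm_smul, hstn]
    nlinarith
  -- (ii)
  have i2 : ‖a (X 1 Ω)‖ ≤ 21 * Real.sqrt t * N := by
    have e1 : a (X 1 Ω) = (a * y) (l 0 (y Ω)) + (Real.sqrt t : ℂ) • a (l 2 Ω) := by
      have h2 : star (l 0) (y Ω) = 0 := F.r2 y C.yA 0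
      have h3 : star (l 2) Ω = 0 := ann_vac F 2
      rw [h1]
      simp only [ContinuousLinearMap.add_apply, ContinuousLinearMap.mul_apply,
        ContinuousLinearMap.smul_apply, map_add, map_smul, h2, h3, add_zero]
    have e2 := norm_blc F {0, 2} (a * y) (mul_mem haC (hyW _)) 0 (by simp) (y Ω)
    have e3 := norm_blc F {0, 2} a haC 2 (by simp) Ω
    rw [F.norm, mul_one, ← hN] at e3
    rw [e1]
    refine (norm_add_le _ _).trans ?_
    rw [e2, norm_smul, hstn, e3]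
    have h5 : ‖(a * y) Ω‖ * ‖y Ω‖ ≤ (10 * Real.sqrt t * N) * 2 :=
      mul_le_mul i3 hyn (norm_nonneg _) (by positivity)
    nlinarith
  -- (v)
  have i5 : 3 / 4 * (1 / (T + 1)) ≤ N ^ 2 := by
    have h2 := one_sub_aa (X 0) hX t (q T Ω)
    rw [← ha] at h2
    have hq1 : ‖a (q T Ω)‖ ≤ N := by
      have h3 := norm_star_eq F (a * q T) (mul_mem haE (hqW ∅))
      rw [star_mul, has, (C.qs T).star_eq] at h3
      rw [← ContinuousLinearMap.mul_apply, ← h3, ContinuousLinearMap.mul_apply]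
      exact norm_q C T (a Ω)
    have hyq : y (q T Ω) = (q T * y) (q T Ω) := by
      have h4 := congrArg (fun S : K →L[ℂ] K => S (q T Ω)) (F.comm y C.yA (q T) (C.qA T))
      have h5 := congrArg (fun S : K →L[ℂ] K => S Ω) (C.qq T)
      simp only [ContinuousLinearMap.mul_apply] at h4 h5 ⊢
      rw [← h4, h5]
    have h2T : ((1 : ℝ) / 2) ^ T ≤ Real.sqrt t := by
      apply Real.le_sqrt_of_sq_le
      rw [← pow_mul, mul_comm, pow_mul]
      norm_num at hT ⊢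
      exact hT
    have h6 : ‖X 0 (q T Ω)‖ ≤ 4 * Real.sqrt t * ‖q T Ω‖ := by
      rw [h0, ContinuousLinearMap.add_apply, ContinuousLinearMap.smul_apply]
      refine (norm_add_le _ _).trans ?_
      rw [norm_smul, hstn, hyq]
      have h7 := C.yq T (q T Ω)
      have h8 := norm_s F 1 (q T Ω)
      have h9 : 0 ≤ ‖q T Ω‖ := norm_nonneg _
      have h10 : 9 / 8 * (1 / 2) ^ T * ‖q T Ω‖ ≤ 9 / 8 * Real.sqrt t * ‖q T Ω‖ := by gcongr
      have h11 : Real.sqrt t * ‖(l 1 + star (l 1)) (q T Ω)‖ ≤ Real.sqrt t * (2 * ‖q T Ω‖) := by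
        gcongr
      nlinarith
    have h12 : ‖X 0 (q T Ω)‖ ^ 2 / (64 * t) ≤ ‖q T Ω‖ ^ 2 / 4 := by
      rw [div_le_iff₀ (by positivity)]
      have h13 : ‖X 0 (q T Ω)‖ ^ 2 ≤ (4 * Real.sqrt t * ‖q T Ω‖) ^ 2 :=
        pow_le_pow_left₀ (norm_nonneg _) h6 2
      have h14 : (4 * Real.sqrt t * ‖q T Ω‖) ^ 2 = 16 * t * ‖q T Ω‖ ^ 2 := by
        have : (4 * Real.sqrt t * ‖q T Ω‖) ^ 2 =
          16 * (Real.sqrt t * Real.sqrt t) * ‖q T Ω‖ ^ 2 := by ring
        rw [this, hst2]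
      rw [h14] at h13
      linarith
    have h15 : ‖a (q T Ω)‖ ^ 2 ≤ N ^ 2 := pow_le_pow_left₀ (norm_nonneg _) hq1 2
    rw [norm_qΩ C T] at h2 h12
    linarith
  -- conclusion
  have hT1 : (0 : ℝ) < T + 1 := by positivity
  have hNpos : 0 < N := by
    by_contra hcon
    have : N = 0 := le_antisymm (not_lt.1 hcon) hN0
    rw [this] at i5
    have : (0 : ℝ) < 3 / 4 * (1 / (T + 1)) := by positivity
    linarith
  have i4 : N ≤ 21 * Real.sqrt t * ‖ξ‖ := by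
    have h2 : N ^ 2 ≤ ‖ξ‖ * (21 * Real.sqrt t * N) :=
      i1.trans (mul_le_mul_of_nonneg_left i2 (norm_nonneg _))
    have h3 : N * N ≤ (21 * Real.sqrt t * ‖ξ‖) * N := by nlinarith
    exact le_of_mul_le_mul_right h3 hNpos
  have i6 : N ^ 2 ≤ 441 * t * ‖ξ‖ ^ 2 := by
    have h2 : N ^ 2 ≤ (21 * Real.sqrt t * ‖ξ‖) ^ 2 := pow_le_pow_left₀ hN0 i4 2
    have h3 : (21 * Real.sqrt t * ‖ξ‖) ^ 2 = 441 * (Real.sqrt t * Real.sqrt t) * ‖ξ‖ ^ 2 := by ring
    rw [h3, hst2] at h2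
    exact h2
  have i7 : 3 / 4 * (1 / (T + 1)) ≤ 441 * t * ‖ξ‖ ^ 2 := i5.trans i6
  rw [div_le_iff₀ (by positivity)]
  have h16 : 3 / 4 * (1 / ((T : ℝ) + 1)) * (T + 1) = 3 / 4 := by field_simp
  have h17 : 3 / 4 * (1 / ((T : ℝ) + 1)) * (T + 1) ≤ 441 * t * ‖ξ‖ ^ 2 * (T + 1) :=
    mul_le_mul_of_nonneg_right i7 hT1.le
  rw [h16] at h17
  nlinarith

end Pool.Agent.TH254.LW
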