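import Mathlib
import Pool.Agent.TH254.FC.Lower2

set_option autoImplicit false
set_option linter.unusedSectionVars false
set_option linter.deprecated false

open scoped InnerProductSpace ENNReal

namespace Pool.Agent.TH254.UP

open Pool.Agent.TH254.FC Pool.Agent.TH254.FE Pool.Agent.TH254.AL Pool.Agent.TH254.CO
open Pool.Agent.TH254.LW

variable {K : Type} [NormedAddCommGroup K] [InnerProductSpace ℂ K] [CompleteSpace K]
variable {A : Subalgebra ℂ (K →L[ℂ] K)} {Ω : K} {l : Fin 3 → K →L[ℂ] K}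
variable {y : K →L[ℂ] K} {q g : ℕ → K →L[ℂ] K}

/-- the letters of the tuple `(y + √t s_1, s_0 + √t s_2)` -/
noncomputable def xt (A : Subalgebra ℂ (K →L[ℂ] K)) (y : A) (t : ℝ) : Fin 2 → A × (Fin 3 → ℂ) :=
  fun i => if i = 0 then (y, ![0, (Real.sqrt t : ℂ), 0]) else (0, ![1, 0, (Real.sqrt t : ℂ)])

theorem op_xt0 (y : A) (t : ℝ) : op l (xt A y t 0) =
    (y : K →L[ℂ] K) + (Real.sqrt t : ℂ) • (l 1 + star (l 1)) := by
  simp [op, xt, Fin.sum_univ_three]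

theorem op_xt1 (y : A) (t : ℝ) : op l (xt A y t 1) =
    (l 0 + star (l 0)) + (Real.sqrt t : ℂ) • (l 2 + star (l 2)) := by
  simp [op, xt, Fin.sum_univ_three]

section

variable (F : Fock A Ω l) (C : Core A Ω y q g) (t : ℝ) (ht : 0 < t) (X : Fin 2 → (K →L[ℂ] K))
  (h0 : X 0 = y + (Real.sqrt t : ℂ) • (l 1 + star (l 1)))
  (h1 : X 1 = (l 0 + star (l 0)) + (Real.sqrt t : ℂ) • (l 2 + star (l 2)))

include h0 h1 in
theorem X_prod (yA : y ∈ A) (w : List (Fin 2)) :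
    (w.map X).prod = pr l (w.map (xt A ⟨y, yA⟩ t)) := by
  have h : X = fun i => op l (xt A ⟨y, yA⟩ t i) := by
    funext i
    fin_cases i
    · simp only [Fin.zero_eta]
      rw [h0, op_xt0]
    · simp only [Fin.mk_one]
      rw [h1, op_xt1]
  rw [pr, List.map_map, h]
  rfl

include h0 h1 in
theorem X_ddq (yA : y ∈ A) (i : Fin 2) (c : A × (Fin 3 → ℂ) → ℂ)
    (hc : ∀ j, c (xt A ⟨y, yA⟩ t j) = if j = i then 1 else 0) (w : List (Fin 2)) :
    ddq Ω X i w = sp c (T Ω l 1) (T Ω l 1) (w.map (xt A ⟨y, yA⟩ t)) := by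
  have hm : ∀ w, mom Ω X w = T Ω l 1 (w.map (xt A ⟨y, yA⟩ t)) := by
    intro w
    rw [mom, X_prod t X h0 h1 yA]
    rfl
  unfold ddq
  simp only [hm]
  exact FI.ddq_sp (xt A ⟨y, yA⟩ t) c i hc (T Ω l 1) (T Ω l 1) w

theorem inner_sa (a : K →L[ℂ] K) (ha : IsSelfAdjoint a) (u v : K) : ⟪a u, v⟫_ℂ = ⟪u, a v⟫_ℂ := by
  conv_lhs => rw [← ha.star_eq]
  rw [TR.adjL]

theorem enorm_sq (η : K) (c : ℝ) (h : ‖η‖ ^ 2 ≤ c) : ‖η‖ₑ ^ 2 ≤ ENNReal.ofReal c := by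
  rw [← ofReal_norm, ← ENNReal.ofReal_pow (norm_nonneg _)]
  exact ENNReal.ofReal_le_ofReal h

include F C ht h0 h1 in
theorem upper0 (T : ℕ) : (⨅ (ξ : K) (_ : IsConj Ω X 0 ξ), ‖ξ‖ₑ ^ 2) ≤
    ENNReal.ofReal (2 * ‖g T Ω‖ ^ 2 + 2 / (t * (T + 1) ^ 2)) := by
  have hst : 0 < Real.sqrt t := Real.sqrt_pos.2 ht
  have hst2 : Real.sqrt t * Real.sqrt t = t := Real.mul_self_sqrt ht.le
  have hstc : (Real.sqrt t : ℂ) ≠ 0 := by exact_mod_cast hst.ne'
  set s1 := l 1 + star (l 1) with hs1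
  have hqs : star (q T) = q T := C.qs T
  set qq : A := ⟨q T, C.qA T⟩ with hqq
  refine (FI.term_le Ω X 0 (g T Ω + (((Real.sqrt t)⁻¹ : ℝ) : ℂ) • (q T * s1 * q T) Ω) ?_).trans
    (enorm_sq _ _ ?_)
  · intro w
    rw [X_ddq t X h0 h1 C.yA 0 (fun x => cf 1 x / Real.sqrt t) (by
      intro j
      fin_cases j
      · simp [cf, xt, hstc]
      · simp [cf, xt]), X_prod t X h0 h1 C.yA]
    set L := w.map (xt A ⟨y, C.yA⟩ t) with hL
    rw [inner_add_left, inner_smul_left, inner_sa (g T) (C.gs T)]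
    have e1 : ⟪Ω, g T (pr l L Ω)⟫_ℂ = FC.T Ω l (g T) L := rfl
    have e2 := dagger' F y (q T) (g T) C.yA (C.qA T) (C.gA T) (C.base T)
      (fun x => cf 1 x / Real.sqrt t) L (by
        intro x hx
        rw [hL] at hx
        obtain ⟨j, _, rfl⟩ := List.mem_map.1 hx
        fin_cases j
        · simp [cf, xt, hstc]
        · simp [cf, xt])
    have e3 : ⟪(q T * s1 * q T) Ω, pr l L Ω⟫_ℂ = sp (cf 1) (FC.T Ω l (q T)) (FC.T Ω l (q T)) L := by
      have h5 := T_qsq F 1 qq L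
      have h6 : ⟪(q T * s1 * q T) Ω, pr l L Ω⟫_ℂ = FC.T Ω l 1 (lt qq :: ls 1 :: lt qq :: L) := by
        rw [FC.T, pr_cons, pr_cons, pr_cons, op_lt F, op_ls F, ← hs1, ContinuousLinearMap.mul_apply,
          ContinuousLinearMap.mul_apply, inner_sa (q T) (C.qs T), inner_sa s1 (s_sa l 1),
          inner_sa (q T) (C.qs T)]
        rfl
      rw [h6, h5]
    rw [e1, e2, e3]
    have e4 : sp (fun x => cf 1 x / Real.sqrt t) (FC.T Ω l (q T)) (FC.T Ω l (q T)) L =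
        (((Real.sqrt t)⁻¹ : ℝ) : ℂ) * sp (cf 1) (FC.T Ω l (q T)) (FC.T Ω l (q T)) L := by
      have := sp_coef_smul (((Real.sqrt t)⁻¹ : ℝ) : ℂ) (cf 1) (FC.T Ω l (q T)) (FC.T Ω l (q T)) L
      rw [smul_eq_mul] at this
      rw [← this]
      congr 1
      funext x
      push_cast
      rw [div_eq_inv_mul]
    rw [e4, Complex.conj_ofReal]
    ring
  · have hn : ‖(q T * s1 * q T) Ω‖ = 1 / (T + 1) := by
      have e1 : (q T * s1 * q T) Ω = q T (l 1 (q T Ω)) := by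
        have h2 : star (l 1) (q T Ω) = 0 := F.r2 _ (C.qA T) 1
        simp only [ContinuousLinearMap.mul_apply, hs1, ContinuousLinearMap.add_apply, h2, add_zero]
      rw [e1, norm_blc F {1} (q T) (WA_le_CA F _ (A_mem F _ _ (C.qA T))) 1 rfl (q T Ω), ← sq,
        norm_qΩ C T]
    have h3 : ‖g T Ω + (((Real.sqrt t)⁻¹ : ℝ) : ℂ) • (q T * s1 * q T) Ω‖ ≤
        ‖g T Ω‖ + (Real.sqrt t)⁻¹ * (1 / (T + 1)) := by
      refine (norm_add_le _ _).trans ?_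
      rw [norm_smul, hn, Complex.norm_real, Real.norm_eq_abs, abs_of_pos (by positivity)]
    have h4 : ‖g T Ω + (((Real.sqrt t)⁻¹ : ℝ) : ℂ) • (q T * s1 * q T) Ω‖ ^ 2 ≤
        (‖g T Ω‖ + (Real.sqrt t)⁻¹ * (1 / (T + 1))) ^ 2 :=
      pow_le_pow_left₀ (norm_nonneg _) h3 2
    have h5 : (‖g T Ω‖ + (Real.sqrt t)⁻¹ * (1 / (T + 1))) ^ 2 ≤
        2 * ‖g T Ω‖ ^ 2 + 2 * ((Real.sqrt t)⁻¹ * (1 / (T + 1))) ^ 2 := by
      nlinarith [sq_nonneg (‖g T Ω‖ - (Real.sqrt t)⁻¹ * (1 / (T + 1)))]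
    have h6 : 2 * ((Real.sqrt t)⁻¹ * (1 / ((T : ℝ) + 1))) ^ 2 = 2 / (t * (T + 1) ^ 2) := by
      rw [mul_pow, inv_pow, sq (Real.sqrt t), hst2]
      have : (0 : ℝ) < (T : ℝ) + 1 := by positivity
      field_simp
    rw [h6] at h5
    exact h4.trans h5

include F C ht h0 h1 in
theorem upper0' : (⨅ (ξ : K) (_ : IsConj Ω X 0 ξ), ‖ξ‖ₑ ^ 2) ≤ ENNReal.ofReal (1 / t) := by
  have hst : 0 < Real.sqrt t := Real.sqrt_pos.2 ht
  have hst2 : Real.sqrt t * Real.sqrt t = t := Real.mul_self_sqrt ht.le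
  have hstc : (Real.sqrt t : ℂ) ≠ 0 := by exact_mod_cast hst.ne'
  set s1 := l 1 + star (l 1) with hs1
  refine (FI.term_le Ω X 0 ((((Real.sqrt t)⁻¹ : ℝ) : ℂ) • s1 Ω) ?_).trans
    (enorm_sq _ _ ?_)
  · intro w
    rw [X_ddq t X h0 h1 C.yA 0 (fun x => (((Real.sqrt t)⁻¹ : ℝ) : ℂ) * cf 1 x) (by
      intro j
      fin_cases j
      · simp [cf, xt, hstc]
      · simp [cf, xt]), X_prod t X h0 h1 C.yA]
    set L := w.map (xt A ⟨y, C.yA⟩ t) with hL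
    have e3 : ⟪s1 Ω, pr l L Ω⟫_ℂ = sp (cf 1) (FC.T Ω l 1) (FC.T Ω l 1) L := by
      have h5 := T_ls F 1 L
      have h6 : ⟪s1 Ω, pr l L Ω⟫_ℂ = FC.T Ω l 1 (ls 1 :: L) := by
        rw [FC.T, pr_cons, op_ls F, ← hs1, inner_sa s1 (s_sa l 1)]
        rfl
      rw [h6, h5]
    rw [inner_smul_left, e3, sp_coef_smul, Complex.conj_ofReal, smul_eq_mul]
  · have hn : s1 Ω = l 1 Ω := by
      rw [hs1, ContinuousLinearMap.add_apply, ann_vac F, add_zero]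
    rw [norm_smul, hn, norm_l F, F.norm, mul_one, Complex.norm_real, Real.norm_eq_abs,
      sq_abs, inv_pow, sq, hst2, one_div]

include F C ht h0 h1 in
theorem upper1 : (⨅ (ξ : K) (_ : IsConj Ω X 1 ξ), ‖ξ‖ₑ ^ 2) ≤ ENNReal.ofReal (1 / (1 + t)) := by
  have hst : 0 < Real.sqrt t := Real.sqrt_pos.2 ht
  have hst2 : Real.sqrt t * Real.sqrt t = t := Real.mul_self_sqrt ht.le
  have hst2c : (Real.sqrt t : ℂ) * (Real.sqrt t : ℂ) = (t : ℂ) := by exact_mod_cast hst2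
  have h1t : (0 : ℝ) < 1 + t := by linarith
  have h1tc : (1 + (t : ℂ)) ≠ 0 := by exact_mod_cast h1t.ne'
  set s0 := l 0 + star (l 0) with hs0
  set s2 := l 2 + star (l 2) with hs2
  refine (FI.term_le Ω X 1 ((((1 + t)⁻¹ : ℝ) : ℂ) • (s0 Ω + (Real.sqrt t : ℂ) • s2 Ω)) ?_).trans
    (enorm_sq _ _ ?_)
  · intro w
    rw [X_ddq t X h0 h1 C.yA 1 (fun x => (((1 + t)⁻¹ : ℝ) : ℂ) *
      (cf 0 x + (Real.sqrt t : ℂ) * cf 2 x)) (by
      intro j
      fin_cases j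
      · simp [cf, xt]
      · simp [cf, xt, hst2c, h1tc]), X_prod t X h0 h1 C.yA]
    set L := w.map (xt A ⟨y, C.yA⟩ t) with hL
    have e3 : ∀ i : Fin 3, ⟪(l i + star (l i)) Ω, pr l L Ω⟫_ℂ =
        sp (cf i) (FC.T Ω l 1) (FC.T Ω l 1) L := by
      intro i
      have h5 := T_ls F i L
      have h6 : ⟪(l i + star (l i)) Ω, pr l L Ω⟫_ℂ = FC.T Ω l 1 (ls i :: L) := by
        rw [FC.T, pr_cons, op_ls F, inner_sa (l i + star (l i)) (s_sa l i)]
        rfl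
      rw [h6, h5]
    rw [inner_smul_left, inner_add_left, inner_smul_left, hs0, hs2, e3, e3, sp_coef_smul,
      sp_coef_add, sp_coef_smul, Complex.conj_ofReal, Complex.conj_ofReal, smul_eq_mul, smul_eq_mul]
  · have hn0 : s0 Ω = l 0 Ω := by
      rw [hs0, ContinuousLinearMap.add_apply, ann_vac F, add_zero]
    have hn2 : s2 Ω = l 2 Ω := by
      rw [hs2, ContinuousLinearMap.add_apply, ann_vac F, add_zero]
    rw [norm_smul, hn0, hn2, mul_pow]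
    have hor : ⟪l 0 Ω, (Real.sqrt t : ℂ) • l 2 Ω⟫_ℂ = 0 := by
      rw [inner_smul_right, ← ContinuousLinearMap.adjoint_inner_right,
        ← ContinuousLinearMap.star_eq_adjoint, orth F 0 2 (by decide), inner_zero_right, mul_zero]
    have hsq : ‖l 0 Ω + (Real.sqrt t : ℂ) • l 2 Ω‖ ^ 2 = 1 + t := by
      have := norm_add_sq_eq_norm_sq_add_norm_sq_of_inner_eq_zero (𝕜 := ℂ) (l 0 Ω)
        ((Real.sqrt t : ℂ) • l 2 Ω) hor
      rw [norm_smul, norm_l F, norm_l F, F.norm, Complex.norm_real, Real.norm_eq_abs,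
        abs_of_pos hst] at this
      rw [sq, this]
      nlinarith
    rw [hsq, Complex.norm_real, Real.norm_eq_abs, sq_abs]
    apply le_of_eq
    field_simp

end

end Pool.Agent.TH254.UP
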