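import Mathlib
import Pool.Agent.TH254.FC.Upper
import Pool.Agent.TH254.FC.Int

set_option autoImplicit false
set_option linter.unusedSectionVars false
set_option linter.deprecated false

open scoped InnerProductSpace ENNReal
open MeasureTheory

namespace Pool.Agent.TH254.EN

open Pool.Agent.TH254.FC Pool.Agent.TH254.FE Pool.Agent.TH254.AL Pool.Agent.TH254.CO
open Pool.Agent.TH254.LW

variable {K : Type} [NormedAddCommGroup K] [InnerProductSpace ℂ K] [CompleteSpace K]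

/-- the first tuple -/
noncomputable def YY (l : Fin 3 → K →L[ℂ] K) (y : K →L[ℂ] K) : Fin 2 → (K →L[ℂ] K) :=
  ![y, l 0 + star (l 0)]

/-- the second tuple -/
noncomputable def ZZ (l : Fin 3 → K →L[ℂ] K) (y : K →L[ℂ] K) : Fin 2 → (K →L[ℂ] K) :=
  ![y, y * (l 0 + star (l 0)) * y]

/-- the free semicircular family -/
noncomputable def SS (l : Fin 3 → K →L[ℂ] K) : Fin 2 → (K →L[ℂ] K) :=
  ![l 1 + star (l 1), l 2 + star (l 2)]

variable {A : Subalgebra ℂ (K →L[ℂ] K)} {Ω : K} {l : Fin 3 → K →L[ℂ] K}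
variable {y : K →L[ℂ] K} {q g : ℕ → K →L[ℂ] K}

theorem norm_shift (F : Fock A Ω l) (i : Fin 3) (v : K) (hv : star (l i) v = 0) (a t : ℝ)
    (ht : 0 < t) (ha : ‖v‖ ^ 2 ≤ a) :
    ‖v + ((Real.sqrt t : ℂ) • (l i + star (l i))) Ω‖ ^ 2 ≤ a + t := by
  have hst : 0 < Real.sqrt t := Real.sqrt_pos.2 ht
  have hst2 : Real.sqrt t * Real.sqrt t = t := Real.mul_self_sqrt ht.le
  have e1 : ((Real.sqrt t : ℂ) • (l i + star (l i))) Ω = (Real.sqrt t : ℂ) • l i Ω := by
    rw [ContinuousLinearMap.smul_apply, ContinuousLinearMap.add_apply, ann_vac F, add_zero]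
  have hor : ⟪v, (Real.sqrt t : ℂ) • l i Ω⟫_ℂ = 0 := by
    rw [inner_smul_right, ← ContinuousLinearMap.adjoint_inner_left,
      ← ContinuousLinearMap.star_eq_adjoint, hv, inner_zero_left, mul_zero]
  have h2 := norm_add_sq_eq_norm_sq_add_norm_sq_of_inner_eq_zero (𝕜 := ℂ) v
    ((Real.sqrt t : ℂ) • l i Ω) hor
  rw [norm_smul, norm_l F, F.norm, Complex.norm_real, Real.norm_eq_abs, abs_of_pos hst] at h2
  rw [e1, sq, h2]
  nlinarith

theorem ys0y (F : Fock A Ω l) (C : Core A Ω y q g) :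
    ‖(y * (l 0 + star (l 0)) * y) Ω‖ ^ 2 ≤ 16 := by
  have h2 : star (l 0) (y Ω) = 0 := F.r2 y C.yA 0
  have e1 : (y * (l 0 + star (l 0)) * y) Ω = y (l 0 (y Ω)) := by
    simp only [ContinuousLinearMap.mul_apply, ContinuousLinearMap.add_apply, h2, add_zero]
  have h3 : ‖y Ω‖ ≤ 2 := by
    have := C.yn Ω
    rw [F.norm] at this
    linarith
  have h4 := C.yn (l 0 (y Ω))
  rw [norm_l F] at h4
  rw [e1]
  have h5 : ‖y (l 0 (y Ω))‖ ≤ 4 := by linarith
  calc ‖y (l 0 (y Ω))‖ ^ 2 ≤ 4 ^ 2 := pow_le_pow_left₀ (norm_nonneg _) h5 2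
    _ = 16 := by norm_num

theorem ann_2 (F : Fock A Ω l) (C : Core A Ω y q g) :
    star (l 2) ((y * (l 0 + star (l 0)) * y) Ω) = 0 := by
  have h1 : y * (l 0 + star (l 0)) * y ∈ CA F {2} :=
    mul_mem (mul_mem (WA_le_CA F _ (A_mem F _ _ C.yA)) (WA_le_CA F _ (s_mem F _ 0 (by simp))))
      (WA_le_CA F _ (A_mem F _ _ C.yA))
  exact CA_annih F {2} _ h1 2 rfl

/-- the terms of the Fisher information -/
theorem fisherT_two (ω : K) (Y S : Fin 2 → (K →L[ℂ] K)) (t : ℝ) :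
    fisherT ω Y S t =
      (⨅ (ξ : K) (_ : IsConj ω (fun i => Y i + (Real.sqrt t : ℂ) • S i) 0 ξ), ‖ξ‖ₑ ^ 2) +
      (⨅ (ξ : K) (_ : IsConj ω (fun i => Y i + (Real.sqrt t : ℂ) • S i) 1 ξ), ‖ξ‖ₑ ^ 2) := by
  unfold fisherT fisher
  exact Fin.sum_univ_two _

theorem term_ge (F : Fock A Ω l) (Y : Fin 2 → (K →L[ℂ] K)) (i : Fin 2) (k : Fin 3)
    (hk : SS l i = l k + star (l k)) (hv : star (l k) (Y i Ω) = 0) (a t : ℝ) (ht : 0 < t)
    (ha : 0 ≤ a) (hn : ‖Y i Ω‖ ^ 2 ≤ a) : ENNReal.ofReal (1 / (a + t)) ≤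
      (⨅ (ξ : K) (_ : IsConj Ω (fun i => Y i + (Real.sqrt t : ℂ) • SS l i) i ξ), ‖ξ‖ₑ ^ 2) := by
  apply FI.le_term
  intro ξ hξ
  refine FI.cramer Ω _ i F.norm ξ hξ (a + t) (by linarith) ?_
  rw [ContinuousLinearMap.add_apply, hk]
  exact norm_shift F k (Y i Ω) hv a t ht hn

theorem pos_Y (F : Fock A Ω l) (C : Core A Ω y q g) : chiPos Ω (YY l y) (SS l) < ⊤ := by
  unfold chiPos
  have h := BS.pos_fin (fisherT Ω (YY l y) (SS l)) _ _ 16 (by norm_num)
    (fun t _ => fisherT_two Ω (YY l y) (SS l) t)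
    (fun t ht => term_ge F (YY l y) 0 1 rfl (F.r2 y C.yA 1) 16 t ht (by norm_num) (by
      have := C.yn Ω
      rw [F.norm] at this
      show ‖y Ω‖ ^ 2 ≤ 16
      nlinarith [norm_nonneg (y Ω)]))
    (fun t ht => term_ge F (YY l y) 1 2 rfl (by
      show star (l 2) ((l 0 + star (l 0)) Ω) = 0
      rw [ContinuousLinearMap.add_apply, ann_vac F, add_zero, orth F 2 0 (by decide)]) 16 t ht
      (by norm_num) (by
      show ‖(l 0 + star (l 0)) Ω‖ ^ 2 ≤ 16
      rw [ContinuousLinearMap.add_apply, ann_vac F, add_zero, norm_l F, F.norm]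
      norm_num))
  exact_mod_cast h

theorem pos_Z (F : Fock A Ω l) (C : Core A Ω y q g) : chiPos Ω (ZZ l y) (SS l) < ⊤ := by
  unfold chiPos
  have h := BS.pos_fin (fisherT Ω (ZZ l y) (SS l)) _ _ 16 (by norm_num)
    (fun t _ => fisherT_two Ω (ZZ l y) (SS l) t)
    (fun t ht => term_ge F (ZZ l y) 0 1 rfl (F.r2 y C.yA 1) 16 t ht (by norm_num) (by
      have := C.yn Ω
      rw [F.norm] at this
      show ‖y Ω‖ ^ 2 ≤ 16
      nlinarith [norm_nonneg (y Ω)]))
    (fun t ht => term_ge F (ZZ l y) 1 2 rfl (ann_2 F C) 16 t ht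
      (by norm_num) (ys0y F C))
  exact_mod_cast h

theorem neg_Y (F : Fock A Ω l) (C : Core A Ω y q g) : chiNeg Ω (YY l y) (SS l) < ⊤ := by
  unfold chiNeg
  have h := BS.neg_fin (fisherT Ω (YY l y) (SS l)) _ _ (fun T => ‖g T Ω‖ ^ 2)
    (fun T => by
      have := C.gn T
      rw [BS.int_u_sq] at this
      exact this)
    (fun t _ => fisherT_two Ω (YY l y) (SS l) t)
    (fun t ht => UP.upper1 F C t ht _ rfl rfl)
    (fun t ht T => UP.upper0 F C t ht _ rfl rfl T)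
    (fun t ht => UP.upper0' F C t ht _ rfl rfl)
  exact_mod_cast h

theorem neg_Z (F : Fock A Ω l) (C : Core A Ω y q g) : chiNeg Ω (ZZ l y) (SS l) = ⊤ := by
  unfold chiNeg
  have h := BS.neg_inf (fisherT Ω (ZZ l y) (SS l))
    (fun t ht T hT => by
      rw [fisherT_two]
      refine le_trans ?_ le_add_self
      apply FI.le_term
      intro ξ hξ
      exact LW.lower F C t ht T hT _ rfl rfl ξ hξ)
  exact_mod_cast h

theorem chi_fin {n : ℕ} (ω : K) (Y S : Fin n → (K →L[ℂ] K)) (h1 : chiPos ω Y S < ⊤)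
    (h2 : chiNeg ω Y S < ⊤) : chiStar ω Y S ≠ ⊥ ∧ chiStar ω Y S ≠ ⊤ := by
  have e1 : (chiPos ω Y S : EReal) = (((chiPos ω Y S).toReal : ℝ) : EReal) :=
    (EReal.coe_toReal (by simpa using h1.ne) (by simp)).symm.trans
      (by rw [EReal.toReal_coe_ennreal])
  have e2 : (chiNeg ω Y S : EReal) = (((chiNeg ω Y S).toReal : ℝ) : EReal) :=
    (EReal.coe_toReal (by simpa using h2.ne) (by simp)).symm.trans
      (by rw [EReal.toReal_coe_ennreal])
  unfold chiStar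
  rw [e1, e2, ← EReal.coe_sub, ← EReal.coe_mul, ← EReal.coe_add]
  exact ⟨EReal.coe_ne_bot _, EReal.coe_ne_top _⟩

theorem chi_bot {n : ℕ} (ω : K) (Y S : Fin n → (K →L[ℂ] K))
    (h2 : chiNeg ω Y S = ⊤) : chiStar ω Y S = ⊥ := by
  unfold chiStar
  rw [h2, EReal.coe_ennreal_top, EReal.sub_top, EReal.coe_mul_bot_of_pos (by norm_num),
    EReal.bot_add]

/-- the algebra of words contains the tuples -/
theorem adjoin_WA (F : Fock A Ω l) (J : Set (Fin 3)) (B : Set (K →L[ℂ] K))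
    (hB : ∀ b ∈ B, b ∈ WA F J) (b : K →L[ℂ] K) (hb : b ∈ Algebra.adjoin ℂ B) : b ∈ WA F J := by
  have h : Algebra.adjoin ℂ B ≤ (WA F J).toSubalgebra := Algebra.adjoin_le hB
  exact h hb

theorem YY_mem (F : Fock A Ω l) (C : Core A Ω y q g) (J : Set (Fin 3)) (hJ : 0 ∉ J) (i : Fin 2) :
    YY l y i ∈ WA F J := by
  fin_cases i
  · exact A_mem F _ _ C.yA
  · exact s_mem F _ 0 hJ

theorem ZZ_mem (F : Fock A Ω l) (C : Core A Ω y q g) (J : Set (Fin 3)) (hJ : 0 ∉ J) (i : Fin 2) :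
    ZZ l y i ∈ WA F J := by
  fin_cases i
  · exact A_mem F _ _ C.yA
  · exact mul_mem (mul_mem (A_mem F _ _ C.yA) (s_mem F _ 0 hJ)) (A_mem F _ _ C.yA)

theorem SS_mem (F : Fock A Ω l) (i : Fin 2) : SS l i ∈ WA F ∅ := by
  fin_cases i
  · exact s_mem F _ 1 (by simp)
  · exact s_mem F _ 2 (by simp)

theorem SS_eq (l : Fin 3 → K →L[ℂ] K) (i : Fin 2) :
    SS l i = l i.succ + star (l i.succ) := by
  fin_cases i <;> rfl

theorem YY_sa (C : Core A Ω y q g) (i : Fin 2) : IsSelfAdjoint (YY l y i) := by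
  fin_cases i
  · exact C.ys
  · exact s_sa l 0

theorem ZZ_sa (C : Core A Ω y q g) (i : Fin 2) : IsSelfAdjoint (ZZ l y i) := by
  fin_cases i
  · exact C.ys
  · show star (y * (l 0 + star (l 0)) * y) = y * (l 0 + star (l 0)) * y
    rw [star_mul, star_mul, C.ys.star_eq, (s_sa l 0).star_eq, mul_assoc]

/-- the realization -/
theorem realize (F : Fock A Ω l) (X : Fin 2 → (K →L[ℂ] K))
    (hX : ∀ i, X i ∈ WA F (Set.range (Fin.succ : Fin 2 → Fin 3))) (hs : ∀ i, IsSelfAdjoint (X i))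
    {H : Type} [NormedAddCommGroup H] [InnerProductSpace ℂ H] (ξ : H)
    (x : Fin 2 → (H →L[ℂ] H)) (hl : ∀ w : List (Fin 2), mom Ω X w = mom ξ x w) :
    FreeRealization ξ x Ω X (SS l) where
  norm := F.norm
  sa := hs
  law := hl
  semi := by
    intro i
    rw [SS_eq]
    exact ⟨s_sa l _, fun m => moments F i.succ m⟩
  trace := by
    intro a ha b hb
    have h : ∀ c ∈ Set.range X ∪ Set.range (SS l), c ∈ WA F ∅ := by
      rintro c (⟨i, rfl⟩ | ⟨i, rfl⟩)
      · exact WA_mono F (Set.empty_subset _) (hX i)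
      · exact SS_mem F i
    exact WA_trace F a b (adjoin_WA F ∅ _ h a ha) (adjoin_WA F ∅ _ h b hb)
  free := by
    intro L hL hc hp
    refine (freeness F Fin.succ (Fin.succ_injective _) (Algebra.adjoin ℂ (Set.range X)) ?_ L hc
      ?_).2.2 hL
    · intro b hb
      refine adjoin_WA F _ _ ?_ b hb
      rintro c ⟨i, rfl⟩
      exact hX i
    · intro p hpL
      have h := hp p hpL
      refine ⟨?_, h.2⟩
      rcases hp1 : p.1 with _ | i
      · have := h.1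
        rw [hp1] at this
        exact this
      · have := h.1
        rw [hp1] at this
        simp only [Option.elim_some, SS_eq] at this
        exact this

end Pool.Agent.TH254.EN
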