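import Mathlib
import Pool.Agent.TH254.FC.Ent
import Pool.Agent.TH254.FC.Delta

set_option autoImplicit false
set_option linter.unusedSectionVars false
set_option linter.deprecated false

open scoped InnerProductSpace ENNReal

namespace Pool.Agent.TH254.RE

open Pool.Agent.TH254.FC Pool.Agent.TH254.FE Pool.Agent.TH254.AL Pool.Agent.TH254.CO
open Pool.Agent.TH254.LW Pool.Agent.TH254.EN Pool.Agent.TH254.DL Pool.Agent.TH254.TR

section Gen

variable {K : Type} [NormedAddCommGroup K] [InnerProductSpace ℂ K] [CompleteSpace K] {n : ℕ}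

/-- the closed span of the words applied to the vector -/
noncomputable def Wc (Ω : K) (Y : Fin n → (K →L[ℂ] K)) : Submodule ℂ K :=
  (Submodule.span ℂ (Set.range fun w : List (Fin n) => (w.map Y).prod Ω)).topologicalClosure

variable {Ω : K} {Y : Fin n → (K →L[ℂ] K)}

theorem Wc_closed : IsClosed (Wc Ω Y : Set K) := Submodule.isClosed_topologicalClosure _

instance : CompleteSpace (Wc Ω Y) := (Wc_closed (Ω := Ω) (Y := Y)).completeSpace_coe

theorem word_mem (w : List (Fin n)) : (w.map Y).prod Ω ∈ Wc Ω Y :=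
  Submodule.le_topologicalClosure _ (Submodule.subset_span ⟨w, rfl⟩)

theorem inv_of (S : K →L[ℂ] K) (hS : ∀ w : List (Fin n), S ((w.map Y).prod Ω) ∈ Wc Ω Y) :
    ∀ v ∈ Wc Ω Y, S v ∈ Wc Ω Y := by
  have h1 : Wc Ω Y ≤ (Wc Ω Y).comap (S : K →ₗ[ℂ] K) := by
    apply Submodule.topologicalClosure_minimal
    · rw [Submodule.span_le]
      rintro _ ⟨w, rfl⟩
      exact hS w
    · exact Wc_closed.preimage S.continuous
  exact h1

/-- restrictions -/
noncomputable def rs (S : K →L[ℂ] K) (h : ∀ v ∈ Wc Ω Y, S v ∈ Wc Ω Y) :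
    Wc Ω Y →L[ℂ] Wc Ω Y :=
  (S ∘L (Wc Ω Y).subtypeL).codRestrict (Wc Ω Y) (fun x => h x x.2)

theorem rs_coe (S : K →L[ℂ] K) (h : ∀ v ∈ Wc Ω Y, S v ∈ Wc Ω Y) (v : Wc Ω Y) :
    ((rs S h v : Wc Ω Y) : K) = S v := rfl

theorem Y_inv (i : Fin n) : ∀ v ∈ Wc Ω Y, Y i v ∈ Wc Ω Y :=
  inv_of (Y i) (fun w => by
    have := word_mem (Ω := Ω) (Y := Y) (i :: w)
    rw [List.map_cons, List.prod_cons] at this
    exact this)

/-- the restricted tuple -/
noncomputable def yy (Ω : K) (Y : Fin n → (K →L[ℂ] K)) (i : Fin n) : Wc Ω Y →L[ℂ] Wc Ω Y :=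
  rs (Y i) (Y_inv i)

/-- the vector -/
noncomputable def om (Ω : K) (Y : Fin n → (K →L[ℂ] K)) : Wc Ω Y := ⟨Ω, by
  have := word_mem (Ω := Ω) (Y := Y) []
  simpa using this⟩

theorem om_coe : ((om Ω Y : Wc Ω Y) : K) = Ω := rfl

/-- the word vectors -/
noncomputable def wv (Ω : K) (Y : Fin n → (K →L[ℂ] K)) (w : List (Fin n)) : Wc Ω Y :=
  (w.map (yy Ω Y)).prod (om Ω Y)

/-- restrictions of tuples of words -/
theorem coe_prod {m : ℕ} (z : Fin m → (Wc Ω Y →L[ℂ] Wc Ω Y)) (Z : Fin m → (K →L[ℂ] K))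
    (hz : ∀ i v, ((z i v : Wc Ω Y) : K) = Z i v) (w : List (Fin m)) (v : Wc Ω Y) :
    (((w.map z).prod v : Wc Ω Y) : K) = (w.map Z).prod (v : K) := by
  induction w with
  | nil => simp
  | cons i w ih =>
    rw [List.map_cons, List.map_cons, List.prod_cons, List.prod_cons,
      ContinuousLinearMap.mul_apply, ContinuousLinearMap.mul_apply, hz, ih]

theorem wv_coe (w : List (Fin n)) : ((wv Ω Y w : Wc Ω Y) : K) = (w.map Y).prod Ω :=
  coe_prod (yy Ω Y) Y (fun _ _ => rfl) w (om Ω Y)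

theorem law_eq {m : ℕ} (z : Fin m → (Wc Ω Y →L[ℂ] Wc Ω Y)) (Z : Fin m → (K →L[ℂ] K))
    (hz : ∀ i v, ((z i v : Wc Ω Y) : K) = Z i v) (w : List (Fin m)) :
    mom Ω Z w = mom (om Ω Y) z w := by
  unfold mom
  rw [Submodule.coe_inner, coe_prod z Z hz w (om Ω Y)]
  rfl

theorem dense_words : Dense (Submodule.span ℂ (Set.range (wv Ω Y)) : Set (Wc Ω Y)) := by
  intro v
  rw [closure_subtype]
  have h1 : ((fun x : Wc Ω Y => (x : K)) '' (Submodule.span ℂ (Set.range (wv Ω Y)) :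
      Set (Wc Ω Y))) = (Submodule.span ℂ (Set.range fun w : List (Fin n) => (w.map Y).prod Ω) :
      Set K) := by
    have h2 := Submodule.map_span (Wc Ω Y).subtype (Set.range (wv Ω Y))
    have h3 := congrArg (fun p : Submodule ℂ K => (p : Set K)) h2
    simp only [Submodule.map_coe, ← Set.range_comp] at h3
    refine h3.trans ?_
    congr 3
    funext w
    exact wv_coe w
  rw [h1]
  exact v.2

theorem ext_words {N : Type*} [AddCommGroup N] [Module ℂ N] [TopologicalSpace N] [T2Space N]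
    (f g : Wc Ω Y →L[ℂ] N) (h : ∀ w, f (wv Ω Y w) = g (wv Ω Y w)) : f = g := by
  apply ContinuousLinearMap.ext_on dense_words
  rintro _ ⟨w, rfl⟩
  exact h w

theorem yy_sa (hs : ∀ i, IsSelfAdjoint (Y i)) (i : Fin n) : star (yy Ω Y i) = yy Ω Y i := by
  rw [ContinuousLinearMap.star_eq_adjoint]
  symm
  rw [ContinuousLinearMap.eq_adjoint_iff]
  intro u v
  rw [Submodule.coe_inner, Submodule.coe_inner]
  show ⟪Y i (u : K), (v : K)⟫_ℂ = ⟪(u : K), Y i (v : K)⟫_ℂ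
  conv_lhs => rw [← (hs i).star_eq]
  rw [TR.adjL]

/-- the star algebra generated by the restricted tuple -/
noncomputable def Al (Ω : K) (Y : Fin n → (K →L[ℂ] K)) :
    StarSubalgebra ℂ (Wc Ω Y →L[ℂ] Wc Ω Y) :=
  StarAlgebra.adjoin ℂ (Set.range (yy Ω Y))

theorem yy_mem (i : Fin n) : yy Ω Y i ∈ Al Ω Y := StarAlgebra.subset_adjoin ℂ _ ⟨i, rfl⟩

theorem words_mem (w : List (Fin n)) : (w.map (yy Ω Y)).prod ∈ Al Ω Y := by
  apply list_prod_mem
  intro x hx
  obtain ⟨i, _, rfl⟩ := List.mem_map.1 hx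
  exact yy_mem i

theorem Al_adjoin (hs : ∀ i, IsSelfAdjoint (Y i)) (a : Wc Ω Y →L[ℂ] Wc Ω Y) (ha : a ∈ Al Ω Y) :
    a ∈ Algebra.adjoin ℂ (Set.range (yy Ω Y)) := by
  have h2 : (StarAlgebra.adjoin ℂ (Set.range (yy Ω Y))).toSubalgebra =
      Algebra.adjoin ℂ (Set.range (yy Ω Y) ∪ star (Set.range (yy Ω Y))) :=
    StarAlgebra.adjoin_toSubalgebra _ _
  have h3 : star (Set.range (yy Ω Y)) ⊆ Set.range (yy Ω Y) := by
    intro x hx
    obtain ⟨i, hi⟩ := Set.mem_star.1 hx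
    refine ⟨i, ?_⟩
    rw [← star_star x, ← hi, yy_sa hs]
  rw [Set.union_eq_self_of_subset_right h3] at h2
  rw [← h2]
  exact ha

theorem Al_lift (hs : ∀ i, IsSelfAdjoint (Y i)) (B : Subalgebra ℂ (K →L[ℂ] K))
    (hB : ∀ i, Y i ∈ B) (a : Wc Ω Y →L[ℂ] Wc Ω Y) (ha : a ∈ Al Ω Y) :
    ∃ b ∈ B, ∀ v : Wc Ω Y, ((a v : Wc Ω Y) : K) = b v := by
  have h := Al_adjoin hs a ha
  clear ha
  induction h using Algebra.adjoin_induction with
  | mem x hx =>
    obtain ⟨i, rfl⟩ := hx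
    exact ⟨Y i, hB i, fun v => rfl⟩
  | algebraMap r =>
    refine ⟨algebraMap ℂ _ r, B.algebraMap_mem r, fun v => ?_⟩
    simp [Algebra.algebraMap_eq_smul_one]
  | add x z _ _ hx hz =>
    obtain ⟨b, hb, h1⟩ := hx
    obtain ⟨c, hc, h2⟩ := hz
    refine ⟨b + c, B.add_mem hb hc, fun v => ?_⟩
    rw [ContinuousLinearMap.add_apply, ContinuousLinearMap.add_apply, Submodule.coe_add, h1, h2]
  | mul x z _ _ hx hz =>
    obtain ⟨b, hb, h1⟩ := hx
    obtain ⟨c, hc, h2⟩ := hz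
    refine ⟨b * c, B.mul_mem hb hc, fun v => ?_⟩
    rw [ContinuousLinearMap.mul_apply, ContinuousLinearMap.mul_apply, h1, h2]

theorem tv (hs : ∀ i, IsSelfAdjoint (Y i)) (B : Subalgebra ℂ (K →L[ℂ] K))
    (hB : ∀ i, Y i ∈ B) (ht : ∀ a ∈ B, ∀ b ∈ B, ⟪Ω, (a * b) Ω⟫_ℂ = ⟪Ω, (b * a) Ω⟫_ℂ) :
    TrVec (Al Ω Y) (om Ω Y) where
  dense := by
    have h1 : Dense (LinearMap.range (ev (Al Ω Y) (om Ω Y)) : Set (Wc Ω Y)) := by
      apply dense_words.mono
      rw [SetLike.coe_subset_coe, Submodule.span_le]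
      rintro _ ⟨w, rfl⟩
      exact ⟨⟨_, words_mem w⟩, rfl⟩
    exact h1
  tr := by
    intro a ha b hb
    obtain ⟨a', ha', h1⟩ := Al_lift hs B hB a ha
    obtain ⟨b', hb', h2⟩ := Al_lift hs B hB b hb
    have := ht a' ha' b' hb'
    rw [Submodule.coe_inner, Submodule.coe_inner, ContinuousLinearMap.mul_apply,
      ContinuousLinearMap.mul_apply, h1, h2, h2, h1, om_coe]
    exact this

/-- right multiplication on word vectors -/
theorem R_word (h : TrVec (Al Ω Y) (om Ω Y)) (i : Fin n) (w : List (Fin n)) :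
    R (Al Ω Y) (om Ω Y) (yy Ω Y i) (wv Ω Y w) = wv Ω Y (w ++ [i]) := by
  unfold wv
  rw [R_apply h _ (yy_mem i) _ (words_mem w)]
  simp

/-- the dual relation on word vectors implies the commutation relation -/
theorem dual_comm (h : TrVec (Al Ω Y) (om Ω Y)) (D : Wc Ω Y →L[ℂ] Wc Ω Y) (c : Fin n → ℂ)
    (hD : ∀ w, D (wv Ω Y w) = sp c (mom Ω Y) (wv Ω Y) w) (i : Fin n) :
    R (Al Ω Y) (om Ω Y) (yy Ω Y i) * D = D * R (Al Ω Y) (om Ω Y) (yy Ω Y i) -
      c i • (innerSL ℂ (om Ω Y)).smulRight (om Ω Y) := by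
  apply ext_words
  intro w
  rw [ContinuousLinearMap.sub_apply, ContinuousLinearMap.mul_apply,
    ContinuousLinearMap.mul_apply, R_word h, hD, hD, sp_snoc]
  have h1 := map_sp ((R (Al Ω Y) (om Ω Y) (yy Ω Y i) : Wc Ω Y →L[ℂ] Wc Ω Y) :
    Wc Ω Y →ₗ[ℂ] Wc Ω Y) c (mom Ω Y) (wv Ω Y) w
  simp only [ContinuousLinearMap.coe_coe, R_word h] at h1
  rw [h1]
  have h2 : (c i • (innerSL ℂ (om Ω Y)).smulRight (om Ω Y)) (wv Ω Y w) =
      (c i * mom Ω Y w) • om Ω Y := by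
    rw [ContinuousLinearMap.smul_apply, ContinuousLinearMap.smulRight_apply,
      innerSL_apply_apply, smul_smul, Submodule.coe_inner, wv_coe]
    rfl
  have h3 : wv Ω Y [] = om Ω Y := by simp [wv]
  rw [h2, h3]
  abel

end Gen

theorem sp_map {V V' N : Type*} [AddCommGroup N] [Module ℂ N] (x : V' → V) (c : V → ℂ)
    (Φ : List V → ℂ) (Ψ : List V → N) (w : List V') :
    sp c Φ Ψ (w.map x) = sp (fun j => c (x j)) (fun w => Φ (w.map x)) (fun w => Ψ (w.map x)) w := by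
  induction w generalizing Φ with
  | nil => rfl
  | cons i w ih =>
    rw [List.map_cons, sp_cons, sp_cons, ih]
    rfl

theorem sp_mem {V N : Type*} [AddCommGroup N] [Module ℂ N] (p : Submodule ℂ N) (c : V → ℂ)
    (Φ : List V → ℂ) (Ψ : List V → N) (h : ∀ w, Ψ w ∈ p) (w : List V) : sp c Φ Ψ w ∈ p := by
  induction w generalizing Φ with
  | nil => exact p.zero_mem
  | cons i w ih =>
    rw [sp_cons]
    exact p.add_mem (p.smul_mem _ (h w)) (ih _)

section Spec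

variable {K : Type} [NormedAddCommGroup K] [InnerProductSpace ℂ K] [CompleteSpace K]
variable {A : Subalgebra ℂ (K →L[ℂ] K)} {Ω : K} {l : Fin 3 → K →L[ℂ] K}
variable {y : K →L[ℂ] K} {q g : ℕ → K →L[ℂ] K}

/-- the letters of the pair -/
noncomputable def xl (a : A) : Fin 2 → A × (Fin 3 → ℂ) := ![lt a, ls 0]

theorem prod_YY (F : Fock A Ω l) (C : Core A Ω y q g) (w : List (Fin 2)) :
    (w.map (YY l y)).prod = pr l (w.map (xl ⟨y, C.yA⟩)) := by
  have h : YY l y = fun i => op l (xl (A := A) ⟨y, C.yA⟩ i) := by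
    funext i
    fin_cases i
    · exact (op_lt F (⟨y, C.yA⟩ : A)).symm
    · exact (op_ls F 0).symm
  rw [pr, List.map_map, h]
  rfl

theorem ann_YY (F : Fock A Ω l) (C : Core A Ω y q g) (w : List (Fin 2)) :
    star (l 0) ((w.map (YY l y)).prod Ω) =
      sp ![0, 1] (mom Ω (YY l y)) (fun w => (w.map (YY l y)).prod Ω) w := by
  have h1 := annih F (w.map (xl ⟨y, C.yA⟩)) 1 A.one_mem 0
  rw [sp_map, ContinuousLinearMap.one_apply] at h1
  rw [prod_YY F C, h1]
  have e1 : (fun j => cf 0 (xl (A := A) ⟨y, C.yA⟩ j)) = ![0, 1] := by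
    funext j
    fin_cases j
    · rfl
    · simp [cf, xl, ls]
  have e2 : (fun w : List (Fin 2) => T Ω l 1 (w.map (xl (A := A) ⟨y, C.yA⟩))) =
      mom Ω (YY l y) := by
    funext w
    rw [mom, prod_YY F C]
    rfl
  rw [e1, e2]
  apply sp_congr
  · intro M _ _; rfl
  · intro M _ _
    rw [prod_YY F C]

theorem D_inv (F : Fock A Ω l) (C : Core A Ω y q g) :
    ∀ v ∈ Wc Ω (YY l y), star (l 0) v ∈ Wc Ω (YY l y) := by
  apply inv_of
  intro w
  rw [ann_YY F C]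
  exact sp_mem _ _ _ _ (fun w => word_mem w) w

/-- the restricted annihilation operator -/
noncomputable def DD (F : Fock A Ω l) (C : Core A Ω y q g) :
    Wc Ω (YY l y) →L[ℂ] Wc Ω (YY l y) := rs (star (l 0)) (D_inv F C)

theorem DD_word (F : Fock A Ω l) (C : Core A Ω y q g) (w : List (Fin 2)) :
    DD F C (wv Ω (YY l y) w) = sp ![0, 1] (mom Ω (YY l y)) (wv Ω (YY l y)) w := by
  apply Subtype.ext
  have h1 := map_sp (Wc Ω (YY l y)).subtype ![0, 1] (mom Ω (YY l y)) (wv Ω (YY l y)) w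
  have h2 : ((sp ![0, 1] (mom Ω (YY l y)) (wv Ω (YY l y)) w : Wc Ω (YY l y)) : K) =
      sp ![0, 1] (mom Ω (YY l y)) (fun w => ((wv Ω (YY l y) w : Wc Ω (YY l y)) : K)) w := h1
  rw [h2]
  simp only [wv_coe]
  rw [← ann_YY F C, ← wv_coe]
  rfl

theorem dual (F : Fock A Ω l) (C : Core A Ω y q g) :
    Dual (Al Ω (YY l y)) (om Ω (YY l y)) (yy Ω (YY l y) 0) (yy Ω (YY l y) 1) (DD F C) := by
  have htv : TrVec (Al Ω (YY l y)) (om Ω (YY l y)) :=
    tv (YY_sa C) (WA F ∅).toSubalgebra (fun i => YY_mem F C ∅ (by simp) i)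
      (fun a ha b hb => WA_trace F a b ha hb)
  refine
    { tv := htv
      m0 := yy_mem 0
      m1 := yy_mem 1
      s0 := yy_sa (YY_sa C) 0
      eig := ?_
      d0 := ?_
      d1 := ?_ }
  · intro c v hv
    apply Subtype.ext
    apply C.eig c
    have := congrArg (fun u : Wc Ω (YY l y) => (u : K)) hv
    exact this
  · have := dual_comm htv (DD F C) ![0, 1] (DD_word F C) 0
    simpa using this
  · intro x
    have := dual_comm htv (DD F C) ![0, 1] (DD_word F C) 1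
    have h2 := congrArg (fun S : Wc Ω (YY l y) →L[ℂ] Wc Ω (YY l y) => S x) this
    simp only [ContinuousLinearMap.mul_apply, ContinuousLinearMap.sub_apply,
      ContinuousLinearMap.smul_apply, ContinuousLinearMap.smulRight_apply,
      innerSL_apply_apply] at h2
    rw [h2]
    simp

end Spec

end Pool.Agent.TH254.RE
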