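import Mathlib
import Pool.Agent.TH254.FC.Rest

set_option autoImplicit false
set_option linter.unusedSectionVars false
set_option linter.deprecated false

open scoped InnerProductSpace ENNReal

namespace Pool.Agent.TH254.VN

open Pool.Agent.TH254.FE Pool.Agent.TH254.DL Pool.Agent.TH254.TR Pool.Agent.TH254.RK
open Pool.Agent.TH254.RE

variable {K : Type} [NormedAddCommGroup K] [InnerProductSpace ℂ K] [CompleteSpace K]
variable {H : Type} [NormedAddCommGroup H] [InnerProductSpace ℂ H] [CompleteSpace H]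
variable {𝒜 : StarSubalgebra ℂ (H →L[ℂ] H)} {ξ : H} {S : Set (H →L[ℂ] H)}

theorem M_R (h : TrVec 𝒜 ξ) (hS : ∀ s ∈ S, s ∈ 𝒜) (m : H →L[ℂ] H)
    (hm : m ∈ Set.centralizer (Set.centralizer S)) (b : H →L[ℂ] H) (hb : b ∈ 𝒜) :
    m * R 𝒜 ξ b = R 𝒜 ξ b * m := by
  have h1 : R 𝒜 ξ b ∈ Set.centralizer S := by
    intro s hs
    exact (R_comm h b hb s (hS s hs)).symm
  exact (hm _ h1).symm

theorem trM (h : TrVec 𝒜 ξ) (hS : ∀ s ∈ S, s ∈ 𝒜) (a : H →L[ℂ] H)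
    (ha : a ∈ Set.centralizer (Set.centralizer S)) (c : H →L[ℂ] H)
    (hc : c ∈ Set.centralizer (Set.centralizer S)) : ⟪(a * c) ξ, ξ⟫_ℂ = ⟪(c * a) ξ, ξ⟫_ℂ := by
  have := trace_M h a c (fun b hb => M_R h hS a ha b hb) (fun b hb => M_R h hS c hc b hb)
  rw [← inner_conj_symm, this, inner_conj_symm]

theorem denM (h : TrVec 𝒜 ξ) (h1 : ∀ a ∈ 𝒜, a ∈ Set.centralizer (Set.centralizer S)) :
    Dense ((fun x : H →L[ℂ] H => x ξ) '' Set.centralizer (Set.centralizer S)) := by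
  refine Dense.mono ?_ h.dense
  rintro _ ⟨a, rfl⟩
  exact ⟨a, h1 a a.2, rfl⟩

theorem K0 (h : TrVec 𝒜 ξ) (hS : ∀ s ∈ S, s ∈ 𝒜)
    (h1 : ∀ a ∈ 𝒜, a ∈ Set.centralizer (Set.centralizer S)) (z : Fin 2 → (H →L[ℂ] H))
    (hz : ∀ k, z k ∈ 𝒜)
    (hK : ∀ T0 T1 : H →L[ℂ] H, FR T0 → FR T1 →
      (T0 * R 𝒜 ξ (z 0) - R 𝒜 ξ (z 0) * T0) + (T1 * R 𝒜 ξ (z 1) - R 𝒜 ξ (z 1) * T1) = 0 →
      T0 = 0 ∧ T1 = 0) :
    KSet (Set.centralizer (Set.centralizer S)) ξ z = {0} := by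
  ext T
  simp only [Set.mem_singleton_iff]
  constructor
  · rintro ⟨hT, r, hr, hs⟩
    have hrk : ∀ k, r k = R 𝒜 ξ (z k) := by
      intro k
      apply unique_R h (r k) _ (z k) (hz k) (hr k).2
      intro b hb
      exact ((hr k).1 b (h1 b hb)).symm
    simp only [hrk] at hs
    rw [Fin.sum_univ_two] at hs
    obtain ⟨e0, e1⟩ := hK (T 0) (T 1) (hT 0) (hT 1) hs
    funext k
    fin_cases k
    · exact e0
    · exact e1
  · rintro rfl
    refine ⟨fun k => ?_, fun k => R 𝒜 ξ (z k), fun k => ⟨?_, ?_⟩, ?_⟩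
    · have : LinearMap.range (((0 : Fin 2 → (H →L[ℂ] H)) k : H →L[ℂ] H) : H →ₗ[ℂ] H) = ⊥ := by
        rw [LinearMap.range_eq_bot]
        rfl
      rw [this]
      infer_instance
    · intro m hm
      exact M_R h hS m hm (z k) (hz k)
    · exact R_one h _ (hz k)
    · simp

end Pool.Agent.TH254.VN
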