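import Mathlib
import Pool.Agent.TH254.FC.Vn
import Pool.Agent.TH254.FC.Univ

set_option autoImplicit false
set_option linter.unusedSectionVars false
set_option linter.deprecated false

open scoped InnerProductSpace ENNReal

namespace Pool.Agent.TH254.FN

open Pool.Agent.TH254.FE Pool.Agent.TH254.DL Pool.Agent.TH254.TR Pool.Agent.TH254.RK
open Pool.Agent.TH254.RE Pool.Agent.TH254.VN Pool.Agent.TH254.EN Pool.Agent.TH254.FC
open Pool.Agent.TH254.CO Pool.Agent.TH254.AL Pool.Agent.TH254.UN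

/-- the polynomials `X₁` and `X₁ X₂ X₁` -/
noncomputable def P2 : Fin 2 → FreeAlgebra ℂ (Fin 2) :=
  ![FreeAlgebra.ι ℂ 0, FreeAlgebra.ι ℂ 0 * FreeAlgebra.ι ℂ 1 * FreeAlgebra.ι ℂ 0]

variable {K : Type} [NormedAddCommGroup K] [InnerProductSpace ℂ K] [CompleteSpace K]
variable {A : Subalgebra ℂ (K →L[ℂ] K)} {Ω : K} {l : Fin 3 → K →L[ℂ] K}
variable {y : K →L[ℂ] K} {q g : ℕ → K →L[ℂ] K}

theorem z0 {B : Type} [Ring B] [Algebra ℂ B] (x : Fin 2 → B) :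
    FreeAlgebra.lift ℂ x (P2 0) = x 0 := by
  simp [P2]

theorem z1 {B : Type} [Ring B] [Algebra ℂ B] (x : Fin 2 → B) :
    FreeAlgebra.lift ℂ x (P2 1) = x 0 * x 1 * x 0 := by
  simp [P2]

theorem Al_le (Ω : K) (Y : Fin 2 → (K →L[ℂ] K)) (hs : ∀ i, IsSelfAdjoint (Y i))
    (a : Wc Ω Y →L[ℂ] Wc Ω Y) (ha : a ∈ Al Ω Y) :
    a ∈ Set.centralizer (Set.centralizer (Set.range (yy Ω Y))) := by
  have h1 : Algebra.adjoin ℂ (Set.range (yy Ω Y)) ≤
      Subalgebra.centralizer ℂ (Set.centralizer (Set.range (yy Ω Y))) := by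
    apply Algebra.adjoin_le
    rintro _ ⟨i, rfl⟩
    intro m hm
    exact (hm _ ⟨i, rfl⟩).symm
  exact h1 (Al_adjoin hs a ha)

theorem main : ∃ (H : Type) (_ : NormedAddCommGroup H) (_ : InnerProductSpace ℂ H)
      (_ : CompleteSpace H) (y : Fin 2 → (H →L[ℂ] H)) (M : Set (H →L[ℂ] H)) (ξ : H),
      ((∀ i, IsSelfAdjoint (y i)) ∧ M = Set.centralizer (Set.centralizer (Set.range y)) ∧
      ‖ξ‖ = 1 ∧ Dense ((fun x : H →L[ℂ] H => x ξ) '' M) ∧
      (∀ a ∈ M, ∀ c ∈ M, ⟪(a * c) ξ, ξ⟫_ℂ = ⟪(c * a) ξ, ξ⟫_ℂ)) ∧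
      (KSet M ξ y = {0} ∧
        ∀ (ι : Type) (b : HilbertBasis ι ℂ H), Delta b M ξ y = 2) ∧
      (∀ j, IsSelfAdjoint (FreeAlgebra.lift ℂ y (P2 j))) ∧
      (KSet M ξ (fun j => FreeAlgebra.lift ℂ y (P2 j)) = {0} ∧
        ∀ (ι : Type) (b : HilbertBasis ι ℂ H),
          Delta b M ξ (fun j => FreeAlgebra.lift ℂ y (P2 j)) = 2) ∧
      (∃ (K : Type) (_ : NormedAddCommGroup K) (_ : InnerProductSpace ℂ K) (_ : CompleteSpace K)
        (ω : K) (Y S : Fin 2 → (K →L[ℂ] K)), FreeRealization ξ y ω Y S ∧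
          FreeRealization ξ (fun j => FreeAlgebra.lift ℂ y (P2 j)) ω
            (fun j => FreeAlgebra.lift ℂ Y (P2 j)) S) ∧
      (∀ (K : Type) [NormedAddCommGroup K] [InnerProductSpace ℂ K] [CompleteSpace K]
        (ω : K) (Y S : Fin 2 → (K →L[ℂ] K)), FreeRealization ξ y ω Y S →
          chiPos ω Y S < ⊤ ∧ chiNeg ω Y S < ⊤) ∧
      (∀ (K : Type) [NormedAddCommGroup K] [InnerProductSpace ℂ K] [CompleteSpace K]
        (ω : K) (Z S : Fin 2 → (K →L[ℂ] K)),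
        FreeRealization ξ (fun j => FreeAlgebra.lift ℂ y (P2 j)) ω Z S →
          chiPos ω Z S < ⊤ ∧ chiNeg ω Z S = ⊤) := by
  obtain ⟨K, _, _, _, A, Ω, l, y, q, g, F, C⟩ := exists_core (Fin 3)
  have D := dual F C
  have hxi : ‖om Ω (YY l y)‖ = 1 := F.norm
  have hS : ∀ s ∈ Set.range (yy Ω (YY l y)), s ∈ Al Ω (YY l y) := by
    rintro _ ⟨i, rfl⟩
    exact yy_mem i
  have hM := Al_le Ω (YY l y) (YY_sa C)
  have hz : ∀ k, FreeAlgebra.lift ℂ (yy Ω (YY l y)) (P2 k) ∈ Al Ω (YY l y) := by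
    intro k
    fin_cases k
    · simp only [Fin.zero_eta, z0]
      exact yy_mem 0
    · simp only [Fin.mk_one, z1]
      exact mul_mem (mul_mem (yy_mem 0) (yy_mem 1)) (yy_mem 0)
  have hK1 := K0 D.tv hS hM (yy Ω (YY l y)) (fun k => yy_mem k) (Kzero D)
  have hK2 := K0 D.tv hS hM (fun j => FreeAlgebra.lift ℂ (yy Ω (YY l y)) (P2 j)) hz (by
    intro T0 T1 h0 h1 h
    simp only [z0, z1] at h
    exact Kzero' D T0 T1 h0 h1 h)
  have hJ : (0 : Fin 3) ∉ Set.range (Fin.succ : Fin 2 → Fin 3) := by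
    rintro ⟨i, hi⟩
    exact Fin.succ_ne_zero i hi
  have hZ : (fun j => FreeAlgebra.lift ℂ (YY l y) (P2 j)) = ZZ l y := by
    funext j
    fin_cases j
    · simp only [Fin.zero_eta, z0]
      rfl
    · simp only [Fin.mk_one, z1]
      rfl
  have rY : FreeRealization (om Ω (YY l y)) (yy Ω (YY l y)) Ω (YY l y) (SS l) :=
    realize F (YY l y) (fun i => YY_mem F C _ hJ i) (YY_sa C) _ _
      (fun w => law_eq (yy Ω (YY l y)) (YY l y) (fun _ _ => rfl) w)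
  have rZ : FreeRealization (om Ω (YY l y))
      (fun j => FreeAlgebra.lift ℂ (yy Ω (YY l y)) (P2 j)) Ω (ZZ l y) (SS l) :=
    realize F (ZZ l y) (fun i => ZZ_mem F C _ hJ i) (ZZ_sa C) _ _
      (fun w => law_eq _ (ZZ l y) (by
        intro i v
        fin_cases i
        · simp only [Fin.zero_eta, z0]
          rfl
        · simp only [Fin.mk_one, z1]
          rfl) w)
  refine ⟨Wc Ω (YY l y), inferInstance, inferInstance, inferInstance, yy Ω (YY l y), _,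
    om Ω (YY l y), ⟨fun i => yy_sa (YY_sa C) i, rfl, hxi, denM D.tv hM, ?_⟩, ⟨hK1, ?_⟩, ?_,
    ⟨hK2, ?_⟩, ?_, ?_, ?_⟩
  · intro a ha c hc
    exact trM D.tv hS a ha c hc
  · intro ι b
    have := Delta_eq b _ hxi (yy Ω (YY l y)) hK1
    exact_mod_cast this
  · intro j
    have s0 := yy_sa (Ω := Ω) (Y := YY l y) (YY_sa C) 0
    have s1 := yy_sa (Ω := Ω) (Y := YY l y) (YY_sa C) 1
    fin_cases j
    · simp only [Fin.zero_eta, z0]
      exact s0
    · simp only [Fin.mk_one, z1]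
      show star _ = _
      rw [star_mul, star_mul, s0, s1, mul_assoc]
  · intro ι b
    have := Delta_eq b _ hxi (fun j => FreeAlgebra.lift ℂ (yy Ω (YY l y)) (P2 j)) hK2
    exact_mod_cast this
  · refine ⟨K, inferInstance, inferInstance, inferInstance, Ω, YY l y, SS l, rY, ?_⟩
    rw [hZ]
    exact rZ
  · intro K' _ _ _ ω Y S h
    obtain ⟨e1, e2, _⟩ := chi_eq h rY
    rw [e1, e2]
    exact ⟨pos_Y F C, neg_Y F C⟩
  · intro K' _ _ _ ω Z S h
    obtain ⟨e1, e2, _⟩ := chi_eq h rZ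
    rw [e1, e2]
    exact ⟨pos_Z F C, neg_Z F C⟩

end Pool.Agent.TH254.FN
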