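import Mathlib
import Pool.Agent.TH254.FC.Defs

set_option autoImplicit false

/-! The notions used to state the counterexample. -/

open scoped InnerProductSpace ENNReal

namespace Pool.Agent.TH254.FE

section Stmt

variable {H : Type} [NormedAddCommGroup H] [InnerProductSpace ℂ H] [CompleteSpace H] {n m : ℕ}

/-- `M` is the von Neumann algebra generated by the self-adjoint tuple `y`, and `ξ` is a cyclic
tracial unit vector for `M`, so that `H = L²(M, τ)` with `τ(a) = ⟪a ξ, ξ⟫` -/
structure StdGen (M : Set (H →L[ℂ] H)) (ξ : H) (y : Fin n → (H →L[ℂ] H)) : Prop where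
  sa : ∀ i, IsSelfAdjoint (y i)
  gen : M = Set.centralizer (Set.centralizer (Set.range y))
  unit : ‖ξ‖ = 1
  cyclic : Dense ((fun x : H →L[ℂ] H => x ξ) '' M)
  tracial : ∀ a ∈ M, ∀ c ∈ M, ⟪(a * c) ξ, ξ⟫_ℂ = ⟪(c * a) ξ, ξ⟫_ℂ

/-- the tuple `z` has full dimension: `Δ_M(z) = m`, computed in any Hilbert basis; moreover
`𝒦_M(z)` is trivial -/
structure FullDim (M : Set (H →L[ℂ] H)) (ξ : H) (z : Fin m → (H →L[ℂ] H)) : Prop where
  triv : KSet M ξ z = {0}
  delta : ∀ (ι : Type) (b : HilbertBasis ι ℂ H), Delta b M ξ z = m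

/-- there is a realization of `y` with a free semicircular family -/
def Realizable (ξ : H) (y : Fin n → (H →L[ℂ] H)) : Prop :=
  ∃ (K : Type) (_ : NormedAddCommGroup K) (_ : InnerProductSpace ℂ K) (_ : CompleteSpace K)
    (ω : K) (Y S : Fin n → (K →L[ℂ] K)), FreeRealization ξ y ω Y S

/-- `χ*(y) = c`: there is a realization of `y` with a free semicircular family, and in every such
realization the positive part of the integral is finite and the value of `χ*` is `c` -/
structure ChiIs (ξ : H) (y : Fin n → (H →L[ℂ] H)) (c : EReal) : Prop where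
  ex : Realizable ξ y
  val : ∀ (K : Type) [NormedAddCommGroup K] [InnerProductSpace ℂ K] [CompleteSpace K]
    (ω : K) (Y S : Fin n → (K →L[ℂ] K)), FreeRealization ξ y ω Y S →
      chiPos ω Y S < ⊤ ∧ chiStar ω Y S = c

/-- the polynomials `P` in the generating tuple `y` contradict the implication of Q2 -/
structure Counterexample (M : Set (H →L[ℂ] H)) (ξ : H) (y : Fin n → (H →L[ℂ] H))
    (P : Fin m → FreeAlgebra ℂ (Fin n)) : Prop where
  gen : StdGen M ξ y
  dim : FullDim M ξ y
  sa : ∀ j, IsSelfAdjoint (FreeAlgebra.lift ℂ y (P j))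
  dimz : FullDim M ξ (fun j => FreeAlgebra.lift ℂ y (P j))
  fin : ∃ c : ℝ, ChiIs ξ y c
  inf : ChiIs ξ (fun j => FreeAlgebra.lift ℂ y (P j)) ⊥

end Stmt

end Pool.Agent.TH254.FE
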